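import Mathlib

set_option autoImplicit false

namespace Pool.Agent.Helper47

open Finset Pointwise

/-- The `j`-fold sumset. -/
def iterSum {p : ℕ} (T : Finset (ZMod p)) : ℕ → Finset (ZMod p)
  | 0 => {0}
  | j + 1 => iterSum T j + T

theorem iterSum_card {p : ℕ} (hp : p.Prime) (T : Finset (ZMod p)) (hT : T.Nonempty) (j : ℕ) :
    (iterSum T j).Nonempty ∧ min p (j * (T.card - 1) + 1) ≤ (iterSum T j).card := by
  induction j with
  | zero => simp [iterSum]
  | succ j ih =>
    obtain ⟨h1, h2⟩ := ih
    refine ⟨h1.add hT, ?_⟩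
    have h3 := ZMod.cauchy_davenport hp h1 hT
    show min p ((j + 1) * (T.card - 1) + 1) ≤ (iterSum T j + T).card
    refine le_trans ?_ h3
    have hc : 1 ≤ T.card := hT.card_pos
    obtain ⟨t, ht⟩ : ∃ t, T.card = t + 1 := ⟨T.card - 1, by omega⟩
    rw [ht] at h2 ⊢
    simp only [Nat.add_sub_cancel] at h2 ⊢
    have h4 : (j + 1) * t + 1 = (j * t + 1) + (t + 1) - 1 := by ring_nf; omega
    rcases le_total p (j * t + 1) with h5 | h5
    · have : p ≤ (iterSum T j).card := by rwa [min_eq_left h5] at h2
      rw [le_min_iff]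
      constructor
      · exact min_le_left _ _
      · exact le_trans (min_le_left _ _) (by omega)
    · have : j * t + 1 ≤ (iterSum T j).card := by rwa [min_eq_right h5] at h2
      rw [le_min_iff]
      constructor
      · exact min_le_left _ _
      · refine le_trans (min_le_right _ _) ?_
        rw [h4]; omega

theorem mem_iterSum {p : ℕ} (T : Finset (ZMod p)) (j : ℕ) (x : ZMod p) (hx : x ∈ iterSum T j) :
    ∃ c : Fin j → ZMod p, (∀ i, c i ∈ T) ∧ ∑ i, c i = x := by
  induction j generalizing x with
  | zero =>
    simp only [iterSum, mem_singleton] at hx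
    exact ⟨Fin.elim0, fun i => i.elim0, by simp [hx]⟩
  | succ j ih =>
    simp only [iterSum, Finset.mem_add] at hx
    obtain ⟨y, hy, z, hz, rfl⟩ := hx
    obtain ⟨c, hc, hs⟩ := ih y hy
    refine ⟨Fin.snoc c z, ?_, ?_⟩
    · intro i
      refine Fin.lastCases ?_ (fun i => ?_) i
      · simpa using hz
      · simpa using hc i
    · rw [Fin.sum_univ_castSucc]
      simp [hs]

/-- A subset of `ZMod p` with no zero sum of length `r`, where `r ∣ p - 1`, has at most
`(p - 1) / r` elements. -/
theorem card_le_of_no_zero_sum {p r : ℕ} (hp : p.Prime) (hr : 1 ≤ r) (hd : r ∣ p - 1)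
    (T : Finset (ZMod p))
    (h : ∀ c : Fin r → ZMod p, (∀ i, c i ∈ T) → ∑ i, c i ≠ 0) : T.card * r ≤ p - 1 := by
  haveI : Fact p.Prime := ⟨hp⟩
  rcases T.eq_empty_or_nonempty with rfl | hT
  · simp
  obtain ⟨_, h2⟩ := iterSum_card hp T hT r
  have h0 : (0 : ZMod p) ∉ iterSum T r := by
    intro h0
    obtain ⟨c, hc, hs⟩ := mem_iterSum T r 0 h0
    exact h c hc hs
  have h3 : (iterSum T r).card < p := by
    have : iterSum T r ⊂ univ := by
      rw [Finset.ssubset_univ_iff]
      intro h4; rw [h4] at h0; exact h0 (mem_univ _)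
    have := Finset.card_lt_card this
    rwa [Finset.card_univ, ZMod.card] at this
  obtain ⟨q, hq⟩ := hd
  have hp1 := hp.one_lt
  have h5 : r * (T.card - 1) + 1 < p := by
    by_contra hcon
    rw [min_eq_left (not_lt.1 hcon)] at h2
    omega
  have hc : 1 ≤ T.card := hT.card_pos
  have h6 : r * (T.card - 1) < r * q := by omega
  have h7 : T.card - 1 < q := Nat.lt_of_mul_lt_mul_left h6
  have h8 : T.card ≤ q := by omega
  calc T.card * r ≤ q * r := Nat.mul_le_mul_right _ h8
    _ = p - 1 := by rw [hq, mul_comm]

/-- A subset `S` of a finite `ZMod p`-vector space such that no `r` scalar multiples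
(in `S`) of a vector have coefficients summing to zero satisfies `r * |S| ≤ |G| - 1`. -/
theorem card_mul_le {p r : ℕ} [Fact p.Prime] (hr : 1 ≤ r) (hd : r ∣ p - 1)
    {G : Type*} [AddCommGroup G] [Fintype G] [DecidableEq G] [Module (ZMod p) G] (S : Finset G)
    (h : ∀ (g : G) (c : Fin r → ZMod p), (∀ i, c i • g ∈ S) → ∑ i, c i ≠ 0) :
    S.card * r ≤ Fintype.card G - 1 := by
  classical
  have hp : p.Prime := Fact.out
  have h0 : (0 : G) ∉ S := by
    intro h0
    refine h 0 (fun _ => 0) (fun i => ?_) (by simp)
    simpa using h0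
  -- double counting
  have h1 : ∑ g ∈ (univ : Finset G).erase 0,
      ((univ : Finset (ZMod p)).filter (fun c => c • g ∈ S)).card = (p - 1) * S.card := by
    have : ∀ g ∈ (univ : Finset G).erase 0,
        ((univ : Finset (ZMod p)).filter (fun c => c • g ∈ S)).card
          = ∑ c ∈ (univ : Finset (ZMod p)).erase 0, if c • g ∈ S then 1 else 0 := by
      intro g _
      rw [← Finset.sum_filter, Finset.sum_const, smul_eq_mul, mul_one]
      congr 1
      ext c
      simp only [mem_filter, mem_univ, true_and, mem_erase, and_true]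
      constructor
      · intro hc
        refine ⟨?_, hc⟩
        rintro rfl
        rw [zero_smul] at hc
        exact h0 hc
      · exact fun hc => hc.2
    rw [Finset.sum_congr rfl this, Finset.sum_comm]
    have h2 : ∀ c ∈ (univ : Finset (ZMod p)).erase 0,
        (∑ g ∈ (univ : Finset G).erase 0, if c • g ∈ S then 1 else 0) = S.card := by
      intro c hc
      have hc0 : c ≠ 0 := (mem_erase.1 hc).1
      rw [← Finset.sum_filter, Finset.sum_const, smul_eq_mul, mul_one]
      apply Finset.card_bij (fun g _ => c • g)
      · intro g hg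
        exact (mem_filter.1 hg).2
      · intro a _ b _ hab
        have := congrArg (fun x => c⁻¹ • x) hab
        simpa [smul_smul, inv_mul_cancel₀ hc0] using this
      · intro b hb
        refine ⟨c⁻¹ • b, ?_, ?_⟩
        · simp only [mem_filter, mem_erase, mem_univ, and_true]
          refine ⟨?_, ?_⟩
          · intro h3
            rw [smul_eq_zero] at h3
            rcases h3 with h3 | h3
            · exact inv_ne_zero hc0 h3
            · rw [h3] at hb; exact h0 hb
          · rw [smul_smul, mul_inv_cancel₀ hc0, one_smul]; exact hb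
        · rw [smul_smul, mul_inv_cancel₀ hc0, one_smul]
    rw [Finset.sum_congr rfl h2, Finset.sum_const, smul_eq_mul,
      Finset.card_erase_of_mem (mem_univ _), Finset.card_univ, ZMod.card]
  have h2 : (∑ g ∈ (univ : Finset G).erase 0,
      ((univ : Finset (ZMod p)).filter (fun c => c • g ∈ S)).card) * r
        ≤ (Fintype.card G - 1) * (p - 1) := by
    rw [Finset.sum_mul]
    calc _ ≤ ∑ g ∈ (univ : Finset G).erase 0, (p - 1) := by
          apply Finset.sum_le_sum
          intro g _
          apply card_le_of_no_zero_sum hp hr hd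
          intro c hc
          apply h g c
          intro i
          simpa using hc i
      _ = _ := by
          rw [Finset.sum_const, smul_eq_mul, Finset.card_erase_of_mem (mem_univ _),
            Finset.card_univ]
  rw [h1] at h2
  have hp1 : 0 < p - 1 := by have := hp.one_lt; omega
  have h3 : (p - 1) * (S.card * r) ≤ (p - 1) * (Fintype.card G - 1) := by
    calc (p - 1) * (S.card * r) = (p - 1) * S.card * r := by ring
      _ ≤ (Fintype.card G - 1) * (p - 1) := h2
      _ = _ := by ring
  exact Nat.le_of_mul_le_mul_left h3 hp1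

end Pool.Agent.Helper47
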