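import Mathlib

set_option autoImplicit false

namespace Pool.Agent.Helper47

open Finset

section Large

variable {F A G : Type*} [Field F] [Ring A] [Algebra F A] [AddCommGroup G]

/-- The span of the basis vectors with class in `C`. -/
def Part {p : ℕ} (π : G →+ ZMod p) (b : Module.Basis G F A) (C : Set (ZMod p)) : Submodule F A :=
  Submodule.span F (b '' {g | π g ∈ C})

theorem part_mul {p : ℕ} (π : G →+ ZMod p) (b : Module.Basis G F A)
    (hb : ∀ g h, ∃ c : F, b g * b h = c • b (g + h)) {C D E : Set (ZMod p)}
    (hE : ∀ x ∈ C, ∀ y ∈ D, x + y ∈ E) {u v : A} (hu : u ∈ Part π b C) (hv : v ∈ Part π b D) :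
    u * v ∈ Part π b E := by
  unfold Part at hu hv
  induction hu using Submodule.span_induction with
  | zero => simp
  | add x y _ _ hx hy => rw [add_mul]; exact add_mem hx hy
  | smul c x _ hx => rw [smul_mul_assoc]; exact Submodule.smul_mem _ _ hx
  | mem x hx =>
    induction hv using Submodule.span_induction with
    | zero => simp
    | add x y _ _ hx hy => rw [mul_add]; exact add_mem hx hy
    | smul c x _ hx => rw [mul_smul_comm]; exact Submodule.smul_mem _ _ hx
    | mem y hy =>
      obtain ⟨g, hg, rfl⟩ := hx
      obtain ⟨h, hh, rfl⟩ := hy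
      obtain ⟨c, hc⟩ := hb g h
      rw [hc]
      refine Submodule.smul_mem _ _ (Submodule.subset_span ⟨g + h, ?_, rfl⟩)
      show π (g + h) ∈ E
      rw [map_add]
      exact hE _ hg _ hh

theorem exists_large {p r : ℕ} [Fact p.Prime] [Fintype G] (π : G →+ ZMod p)
    (hπ : Function.Surjective π) (b : Module.Basis G F A)
    (hb : ∀ g h, ∃ c : F, b g * b h = c • b (g + h)) (hb0 : b 0 = 1)
    (T : A →ₗ[F] F) (hT : ∀ g, g ≠ 0 → T (b g) = 0)
    (hr : 2 ≤ r) (hrp : r ≤ p - 1) (hnd : ¬ r ∣ p - 1) :
    ∃ V : Submodule F A, (∀ v ∈ V, T (v ^ r) = 0) ∧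
      Fintype.card G - 1 < Module.finrank F V * r := by
  classical
  have hp : p.Prime := Fact.out
  have hp2 := hp.two_le
  set q := (p - 2) / r with hq
  have hqr : q * r ≤ p - 2 := Nat.div_mul_le_self _ _
  have hqr2 : p ≤ (q + 1) * r := by
    have h1 : p - 2 < (q + 1) * r := by
      have := Nat.lt_div_mul_add (a := p - 2) (b := r) (by omega)
      rw [← hq] at this
      calc p - 2 < q * r + r := this
        _ = (q + 1) * r := by ring
    have h2 : (q + 1) * r ≠ p - 1 := fun h => hnd ⟨q + 1, by rw [← h, mul_comm]⟩
    omega
  have hrz : (r : ZMod p) ≠ 0 := by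
    rw [Ne, ZMod.natCast_eq_zero_iff]
    intro h
    have := Nat.le_of_dvd (by omega) h
    omega
  set u : ZMod p := (r : ZMod p)⁻¹ with hu
  let C : ℕ → Set (ZMod p) := fun j => {x | ∃ i : ℕ, i ≤ j * q ∧ x = j * u + i}
  refine ⟨Part π b (C 1), ?_, ?_⟩
  · -- the powers
    intro v hv
    have hpow : ∀ j : ℕ, v ^ j ∈ Part π b (C j) := by
      intro j
      induction j with
      | zero =>
        rw [pow_zero, ← hb0]
        refine Submodule.subset_span ⟨0, ?_, rfl⟩
        exact ⟨0, by simp, by simp⟩
      | succ j ih =>
        rw [pow_succ]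
        refine part_mul π b hb ?_ ih hv
        rintro x ⟨i, hi, rfl⟩ y ⟨i', hi', rfl⟩
        refine ⟨i + i', ?_, ?_⟩
        · calc i + i' ≤ j * q + 1 * q := Nat.add_le_add hi hi'
            _ = (j + 1) * q := by ring
        · push_cast
          ring
    have h1 := hpow r
    unfold Part at h1
    have h0 : (0 : ZMod p) ∉ C r := by
      rintro ⟨i, hi, h⟩
      rw [hu, mul_inv_cancel₀ hrz] at h
      have h2 : ((1 + i : ℕ) : ZMod p) = 0 := by rw [h]; push_cast; ring
      rw [ZMod.natCast_eq_zero_iff] at h2
      have h3 := Nat.le_of_dvd (by omega) h2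
      have h4 : r * q ≤ p - 2 := by rw [mul_comm]; exact hqr
      omega
    generalize v ^ r = w at h1
    induction h1 using Submodule.span_induction with
    | zero => simp
    | add x y _ _ hx hy => rw [map_add, hx, hy, add_zero]
    | smul c x _ hx => rw [map_smul, hx, smul_zero]
    | mem x hx =>
      obtain ⟨g, hg, rfl⟩ := hx
      apply hT
      rintro rfl
      apply h0
      have : π 0 ∈ C r := hg
      rwa [map_zero] at this
  · -- the dimension
    have hdim : Module.finrank F (Part π b (C 1))
        = ((univ : Finset G).filter (fun g => π g ∈ C 1)).card := by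
      have h1 : LinearIndependent F (fun g : {g // π g ∈ C 1} => b g) :=
        b.linearIndependent.comp _ Subtype.val_injective
      have h2 := finrank_span_eq_card h1
      have h3 : Part π b (C 1) = Submodule.span F (Set.range (fun g : {g // π g ∈ C 1} => b g)) := by
        unfold Part
        rw [Set.image_eq_range]
        rfl
      rw [h3, h2, Fintype.card_subtype]
    set K := ((univ : Finset G).filter (fun g => π g = 0)).card with hK
    have hfib : ∀ t : ZMod p, ((univ : Finset G).filter (fun g => π g = t)).card = K := by
      intro t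
      obtain ⟨g0, hg0⟩ := hπ t
      rw [hK]
      apply Finset.card_bij (fun g _ => g - g0)
      · intro g hg
        simp only [mem_filter, mem_univ, true_and] at hg ⊢
        rw [map_sub, hg, hg0, sub_self]
      · intro a _ b _ hab
        exact sub_left_injective hab
      · intro h hh
        simp only [mem_filter, mem_univ, true_and] at hh
        refine ⟨h + g0, ?_, ?_⟩
        · simp only [mem_filter, mem_univ, true_and]
          rw [map_add, hh, hg0, zero_add]
        · exact add_sub_cancel_right _ _
    have hcardG : Fintype.card G = p * K := by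
      rw [← Finset.card_univ, Finset.card_eq_sum_card_fiberwise (f := π) (t := univ)
        (fun _ _ => mem_univ _)]
      rw [Finset.sum_congr rfl (fun t _ => hfib t), Finset.sum_const, smul_eq_mul,
        Finset.card_univ, ZMod.card]
    let Tset : Finset (ZMod p) := (Finset.range (q + 1)).image (fun i : ℕ => u + (i : ZMod p))
    have hTcard : Tset.card = q + 1 := by
      rw [Finset.card_image_of_injOn, Finset.card_range]
      intro i hi j hj hij
      simp only [Finset.coe_range, Set.mem_Iio] at hi hj
      have h1 : (i : ZMod p) = j := add_left_cancel hij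
      have hqp : q ≤ p - 2 := le_trans (Nat.le_mul_of_pos_right q (by omega)) hqr
      rw [ZMod.natCast_eq_natCast_iff'] at h1
      rwa [Nat.mod_eq_of_lt (by omega), Nat.mod_eq_of_lt (by omega)] at h1
    have hcard : ((univ : Finset G).filter (fun g => π g ∈ C 1)).card = (q + 1) * K := by
      have h1 : ((univ : Finset G).filter (fun g => π g ∈ C 1))
          = (univ : Finset G).filter (fun g => π g ∈ Tset) := by
        ext g
        simp only [mem_filter, mem_univ, true_and, Tset, Finset.mem_image, Finset.mem_range]
        constructor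
        · rintro ⟨i, hi, h⟩
          refine ⟨i, by omega, ?_⟩
          rw [h]; push_cast; ring
        · rintro ⟨i, hi, h⟩
          refine ⟨i, by omega, ?_⟩
          rw [← h]; push_cast; ring
      rw [h1, Finset.card_eq_sum_card_fiberwise (f := π) (t := Tset)
        (fun g hg => by simpa using hg)]
      have h2 : ∀ t ∈ Tset, (((univ : Finset G).filter (fun g => π g ∈ Tset)).filter
          (fun g => π g = t)).card = K := by
        intro t ht
        rw [← hfib t, Finset.filter_filter]
        congr 1
        ext g
        simp only [mem_filter, mem_univ, true_and]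
        constructor
        · exact fun h => h.2
        · intro h
          exact ⟨by rw [h]; exact ht, h⟩
      rw [Finset.sum_congr rfl h2, Finset.sum_const, smul_eq_mul, hTcard]
    rw [hdim, hcard, hcardG]
    have hKpos : 0 < K := by
      rw [hK, Finset.card_pos]
      exact ⟨0, by simp⟩
    have hpK : 0 < p * K := Nat.mul_pos hp.pos hKpos
    calc p * K - 1 < p * K := by omega
      _ ≤ ((q + 1) * r) * K := Nat.mul_le_mul_right _ hqr2
      _ = (q + 1) * K * r := by ring

end Large

end Pool.Agent.Helper47
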