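import Mathlib

set_option autoImplicit false

namespace Pool.Agent.Helper47

open scoped TensorProduct

universe u

/-- The defining relations `x ^ n = α`, `y ^ n = β`, `y x = ω x y` of a symbol algebra; the two
generators `FreeAlgebra.ι F 0` and `FreeAlgebra.ι F 1` stand for `x` and `y`. -/
inductive SymbolRel {F : Type u} [Field F] (n : ℕ) (ω α β : F) :
    FreeAlgebra F (Fin 2) → FreeAlgebra F (Fin 2) → Prop
  | x_pow : SymbolRel n ω α β (FreeAlgebra.ι F 0 ^ n) (algebraMap F (FreeAlgebra F (Fin 2)) α)
  | y_pow : SymbolRel n ω α β (FreeAlgebra.ι F 1 ^ n) (algebraMap F (FreeAlgebra F (Fin 2)) β)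
  | y_mul_x : SymbolRel n ω α β (FreeAlgebra.ι F 1 * FreeAlgebra.ι F 0)
      (algebraMap F (FreeAlgebra F (Fin 2)) ω * (FreeAlgebra.ι F 0 * FreeAlgebra.ι F 1))

/-- The symbol algebra `(α, β)_{n, F}` with respect to `ω`: the quotient of the free `F`-algebra
on `x, y` by the relations `x ^ n = α`, `y ^ n = β`, `y x = ω x y`. -/
def SymbolAlgebra (F : Type u) [Field F] (n : ℕ) (ω α β : F) : Type u :=
  RingQuot (SymbolRel n ω α β)

noncomputable instance SymbolAlgebra.ring (F : Type u) [Field F] (n : ℕ) (ω α β : F) :
    Ring (SymbolAlgebra F n ω α β) :=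
  RingQuot.instRing (SymbolRel n ω α β)

noncomputable instance SymbolAlgebra.algebra (F : Type u) [Field F] (n : ℕ) (ω α β : F) :
    Algebra F (SymbolAlgebra F n ω α β) :=
  RingQuot.instAlgebra (SymbolRel n ω α β)

/-- The tensor product over `F` of the `m` symbol algebras `(α i, β i)_{p, F}`. -/
def SymbolTensor (F : Type u) [Field F] (p m : ℕ) (ω : F) (α β : Fin m → F) : Type u :=
  ⨂[F] i : Fin m, SymbolAlgebra F p ω (α i) (β i)

noncomputable instance SymbolTensor.ring (F : Type u) [Field F] (p m : ℕ) (ω : F)
    (α β : Fin m → F) : Ring (SymbolTensor F p m ω α β) :=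
  PiTensorProduct.instRing

noncomputable instance SymbolTensor.algebra (F : Type u) [Field F] (p m : ℕ) (ω : F)
    (α β : Fin m → F) : Algebra F (SymbolTensor F p m ω α β) :=
  PiTensorProduct.instAlgebra

/-- The rational function field over `k` in the `2 m` independent indeterminates `X (i, j)`,
`i < m`, `j < 2`. -/
def GenericField (k : Type u) [Field k] (m : ℕ) : Type u :=
  FractionRing (MvPolynomial (Fin m × Fin 2) k)

noncomputable instance GenericField.field (k : Type u) [Field k] (m : ℕ) :
    Field (GenericField k m) :=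
  FractionRing.field (MvPolynomial (Fin m × Fin 2) k)

noncomputable instance GenericField.algebraPoly (k : Type u) [Field k] (m : ℕ) :
    Algebra (MvPolynomial (Fin m × Fin 2) k) (GenericField k m) :=
  OreLocalization.instAlgebra

noncomputable instance GenericField.algebraBase (k : Type u) [Field k] (m : ℕ) :
    Algebra k (GenericField k m) :=
  ((algebraMap (MvPolynomial (Fin m × Fin 2) k) (GenericField k m)).comp
    MvPolynomial.C).toAlgebra

/-- The generic tensor product of `m` symbol algebras of degree `p`: the tensor product over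
`F = k(α 0, β 0, …, α (m-1), β (m-1))` of the symbol algebras `(α i, β i)_{p, F}`, where
`α i = X (i, 0)` and `β i = X (i, 1)` are the `2 m` indeterminates. -/
def GenericSymbolTensor (k : Type u) [Field k] (p m : ℕ) (ω : k) : Type u :=
  SymbolTensor (GenericField k m) p m (algebraMap k (GenericField k m) ω)
    (fun i => algebraMap (MvPolynomial (Fin m × Fin 2) k) (GenericField k m)
      (MvPolynomial.X (i, 0)))
    (fun i => algebraMap (MvPolynomial (Fin m × Fin 2) k) (GenericField k m)
      (MvPolynomial.X (i, 1)))

noncomputable instance GenericSymbolTensor.ring (k : Type u) [Field k] (p m : ℕ) (ω : k) :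
    Ring (GenericSymbolTensor k p m ω) :=
  SymbolTensor.ring _ _ _ _ _ _

noncomputable instance GenericSymbolTensor.algebra (k : Type u) [Field k] (p m : ℕ) (ω : k) :
    Algebra (GenericField k m) (GenericSymbolTensor k p m ω) :=
  SymbolTensor.algebra _ _ _ _ _ _

/-- The linear map `T : A → F` is the reduced trace of the `F`-algebra `A`: for some extension
field `K` of `F` and some isomorphism `φ` of `K ⊗ A` with a matrix algebra over `K`, the element
`T a` is the matrix trace of `φ (1 ⊗ a)` for every `a`. -/
def IsReducedTrace {F A : Type u} [Field F] [Ring A] [Algebra F A] (T : A →ₗ[F] F) : Prop :=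
  ∃ (K : Type u) (_ : Field K) (_ : Algebra F K) (n : ℕ)
    (φ : (K ⊗[F] A) ≃ₐ[K] Matrix (Fin n) (Fin n) K),
    ∀ a : A, algebraMap F K (T a) = Matrix.trace (φ ((1 : K) ⊗ₜ[F] a))

/-- The reduced trace of `v ^ r` vanishes for every `v` in the subspace `V`. -/
def IsTraceVanishing {F A : Type u} [Field F] [Ring A] [Algebra F A] (r : ℕ) (T : A →ₗ[F] F)
    (V : Submodule F A) : Prop :=
  ∀ v ∈ V, T (v ^ r) = 0

end Pool.Agent.Helper47
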