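import Mathlib
import Pool.Agent.Helper47.SymbolDefs

set_option autoImplicit false

namespace Pool.Agent.Helper47

open Finset

universe u

/-- The symbol algebra with the instances of `RingQuot`. -/
abbrev RawSymbol (F : Type u) [Field F] (n : ℕ) (ω α β : F) : Type u :=
  RingQuot (SymbolRel n ω α β)

namespace RawSymbol

variable {F : Type u} [Field F] (n : ℕ) (ω α β : F)

/-- The generator `x`. -/
noncomputable def x : RawSymbol F n ω α β :=
  RingQuot.mkAlgHom F (SymbolRel n ω α β) (FreeAlgebra.ι F 0)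

/-- The generator `y`. -/
noncomputable def y : RawSymbol F n ω α β :=
  RingQuot.mkAlgHom F (SymbolRel n ω α β) (FreeAlgebra.ι F 1)

theorem x_pow : x n ω α β ^ n = algebraMap F _ α := by
  unfold x
  rw [← map_pow, RingQuot.mkAlgHom_rel F (SymbolRel.x_pow (n := n) (ω := ω) (α := α) (β := β)),
    AlgHom.commutes]

theorem y_pow : y n ω α β ^ n = algebraMap F _ β := by
  unfold y
  rw [← map_pow, RingQuot.mkAlgHom_rel F (SymbolRel.y_pow (n := n) (ω := ω) (α := α) (β := β)),
    AlgHom.commutes]

theorem y_mul_x : y n ω α β * x n ω α β = ω • (x n ω α β * y n ω α β) := by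
  unfold x y
  rw [← map_mul, RingQuot.mkAlgHom_rel F (SymbolRel.y_mul_x (n := n) (ω := ω) (α := α) (β := β)),
    map_mul, AlgHom.commutes, map_mul, Algebra.smul_def]

theorem y_mul_x_pow (c : ℕ) :
    y n ω α β * x n ω α β ^ c = ω ^ c • (x n ω α β ^ c * y n ω α β) := by
  induction c with
  | zero => simp
  | succ c ih =>
    rw [pow_succ, ← mul_assoc, ih, smul_mul_assoc, mul_assoc, y_mul_x, mul_smul_comm, smul_smul,
      ← pow_succ, mul_assoc]

theorem y_pow_mul_x_pow (b c : ℕ) :
    y n ω α β ^ b * x n ω α β ^ c = ω ^ (b * c) • (x n ω α β ^ c * y n ω α β ^ b) := by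
  induction b with
  | zero => simp
  | succ b ih =>
    rw [pow_succ, mul_assoc, y_mul_x_pow, mul_smul_comm, ← mul_assoc, ih, smul_mul_assoc,
      smul_smul, mul_assoc, ← pow_add]
    congr 2
    ring

theorem mono_mul_mono (a b c d : ℕ) :
    (x n ω α β ^ a * y n ω α β ^ b) * (x n ω α β ^ c * y n ω α β ^ d)
      = ω ^ (b * c) • (x n ω α β ^ (a + c) * y n ω α β ^ (b + d)) := by
  rw [mul_assoc, ← mul_assoc (y n ω α β ^ b), y_pow_mul_x_pow, smul_mul_assoc, mul_smul_comm,
    pow_add, pow_add, mul_assoc, mul_assoc]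

theorem mono_reduce (a b : ℕ) :
    x n ω α β ^ a * y n ω α β ^ b
      = (α ^ (a / n) * β ^ (b / n)) • (x n ω α β ^ (a % n) * y n ω α β ^ (b % n)) := by
  conv_lhs => rw [← Nat.div_add_mod a n, ← Nat.div_add_mod b n]
  rw [pow_add, pow_mul, x_pow, pow_add, pow_mul, y_pow, ← map_pow, ← map_pow,
    ← Algebra.smul_def, ← Algebra.smul_def, smul_mul_smul_comm]

/-! ### The regular representation on monomials -/

section Rep

variable [NeZero n]

/-- The operator representing `x`. -/
noncomputable def opX : ((ZMod n × ZMod n) →₀ F) →ₗ[F] ((ZMod n × ZMod n) →₀ F) :=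
  Finsupp.linearCombination F
    (fun ij : ZMod n × ZMod n => Finsupp.single (ij.1 + 1, ij.2) (if ij.1 + 1 = 0 then α else 1))

/-- The operator representing `y`. -/
noncomputable def opY : ((ZMod n × ZMod n) →₀ F) →ₗ[F] ((ZMod n × ZMod n) →₀ F) :=
  Finsupp.linearCombination F
    (fun ij : ZMod n × ZMod n => Finsupp.single (ij.1, ij.2 + 1)
      (ω ^ ij.1.val * if ij.2 + 1 = 0 then β else 1))

theorem opX_single (i j : ZMod n) :
    opX n α (Finsupp.single (i, j) 1) = Finsupp.single (i + 1, j) (if i + 1 = 0 then α else 1) := by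
  simp [opX]

theorem opY_single (i j : ZMod n) :
    opY n ω β (Finsupp.single (i, j) 1)
      = Finsupp.single (i, j + 1) (ω ^ i.val * if j + 1 = 0 then β else 1) := by
  simp [opY]

theorem natCast_ne_zero {a : ℕ} (h0 : 0 < a) (h : a < n) : (a : ZMod n) ≠ 0 := by
  rw [Ne, ZMod.natCast_eq_zero_iff]
  intro hd
  have := Nat.le_of_dvd h0 hd
  omega

theorem opX_pow_single (j : ZMod n) (a : ℕ) (ha : a < n) :
    (opX n α ^ a) (Finsupp.single (0, j) 1) = Finsupp.single ((a : ZMod n), j) 1 := by
  induction a with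
  | zero => simp
  | succ a ih =>
    rw [pow_succ', Module.End.mul_apply, ih (by omega), opX_single, if_neg]
    · push_cast; rfl
    · have := natCast_ne_zero n (a := a + 1) (by omega) ha
      push_cast at this
      exact this

theorem opY_pow_single (i : ZMod n) (a : ℕ) (ha : a < n) :
    (opY n ω β ^ a) (Finsupp.single (i, 0) 1)
      = Finsupp.single (i, (a : ZMod n)) (ω ^ (i.val * a)) := by
  induction a with
  | zero => simp
  | succ a ih =>
    rw [pow_succ', Module.End.mul_apply, ih (by omega)]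
    have h1 : Finsupp.single (i, (a : ZMod n)) (ω ^ (i.val * a))
        = ω ^ (i.val * a) • Finsupp.single (i, (a : ZMod n)) (1 : F) := by
      rw [Finsupp.smul_single, smul_eq_mul, mul_one]
    rw [h1, map_smul, opY_single, if_neg]
    · rw [Finsupp.smul_single, smul_eq_mul, mul_one, ← pow_add]
      push_cast
      rfl
    · have := natCast_ne_zero n (a := a + 1) (by omega) ha
      push_cast at this
      exact this

theorem natCast_pred : ((n - 1 : ℕ) : ZMod n) + 1 = 0 := by
  have h : ((n - 1 + 1 : ℕ) : ZMod n) = 0 := by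
    rw [Nat.sub_add_cancel (Nat.one_le_iff_ne_zero.2 (NeZero.ne n)), ZMod.natCast_self]
  push_cast at h
  exact h

theorem opX_pow_n : opX n α ^ n = algebraMap F (Module.End F ((ZMod n × ZMod n) →₀ F)) α := by
  have hn := Nat.pos_of_ne_zero (NeZero.ne n)
  have h1 : ∀ j, (opX n α ^ n) (Finsupp.single (0, j) 1) = α • Finsupp.single (0, j) 1 := by
    intro j
    have h2 : opX n α ^ n = opX n α * opX n α ^ (n - 1) := by
      rw [← pow_succ', Nat.sub_add_cancel hn]
    rw [h2, Module.End.mul_apply, opX_pow_single n α j (n - 1) (by omega), opX_single,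
      natCast_pred, if_pos rfl, Finsupp.smul_single, smul_eq_mul, mul_one]
  apply Finsupp.lhom_ext'
  rintro ⟨i, j⟩
  apply LinearMap.ext_ring
  show (opX n α ^ n) (Finsupp.single (i, j) 1) = α • Finsupp.single (i, j) 1
  have h3 : Finsupp.single (i, j) (1 : F) = (opX n α ^ i.val) (Finsupp.single (0, j) 1) := by
    rw [opX_pow_single n α j i.val (ZMod.val_lt i), ZMod.natCast_zmod_val]
  rw [h3, ← Module.End.mul_apply, ← pow_add, add_comm, pow_add, Module.End.mul_apply, h1,
    map_smul]

theorem opY_pow_n (hω : ω ^ n = 1) :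
    opY n ω β ^ n = algebraMap F (Module.End F ((ZMod n × ZMod n) →₀ F)) β := by
  have hn := Nat.pos_of_ne_zero (NeZero.ne n)
  have hω0 : ω ≠ 0 := by
    rintro rfl
    rw [zero_pow (NeZero.ne n)] at hω
    exact zero_ne_one hω
  have h1 : ∀ i, (opY n ω β ^ n) (Finsupp.single (i, 0) 1) = β • Finsupp.single (i, 0) 1 := by
    intro i
    have h2 : opY n ω β ^ n = opY n ω β * opY n ω β ^ (n - 1) := by
      rw [← pow_succ', Nat.sub_add_cancel hn]
    rw [h2, Module.End.mul_apply, opY_pow_single n ω β i (n - 1) (by omega)]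
    have h3 : Finsupp.single (i, ((n - 1 : ℕ) : ZMod n)) (ω ^ (i.val * (n - 1)))
        = ω ^ (i.val * (n - 1)) • Finsupp.single (i, ((n - 1 : ℕ) : ZMod n)) (1 : F) := by
      rw [Finsupp.smul_single, smul_eq_mul, mul_one]
    rw [h3, map_smul, opY_single, natCast_pred, if_pos rfl, Finsupp.smul_single,
      Finsupp.smul_single, smul_eq_mul, smul_eq_mul, mul_one, ← mul_assoc, ← pow_add]
    have h4 : i.val * (n - 1) + i.val = n * i.val := by
      obtain ⟨m, rfl⟩ : ∃ m, n = m + 1 := ⟨n - 1, by omega⟩
      simp only [Nat.add_sub_cancel]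
      ring
    rw [h4, pow_mul, hω, one_pow, one_mul]
  apply Finsupp.lhom_ext'
  rintro ⟨i, j⟩
  apply LinearMap.ext_ring
  show (opY n ω β ^ n) (Finsupp.single (i, j) 1) = β • Finsupp.single (i, j) 1
  have h3 : Finsupp.single (i, j) (1 : F)
      = (ω ^ (i.val * j.val))⁻¹ • (opY n ω β ^ j.val) (Finsupp.single (i, 0) 1) := by
    rw [opY_pow_single n ω β i j.val (ZMod.val_lt j), ZMod.natCast_zmod_val, Finsupp.smul_single,
      smul_eq_mul, inv_mul_cancel₀ (pow_ne_zero _ hω0)]
  rw [h3, map_smul, ← Module.End.mul_apply, ← pow_add, add_comm, pow_add, Module.End.mul_apply, h1,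
    map_smul, smul_comm]

theorem opY_mul_opX (hω : ω ^ n = 1) :
    opY n ω β * opX n α = ω • (opX n α * opY n ω β) := by
  have hn := Nat.pos_of_ne_zero (NeZero.ne n)
  apply Finsupp.lhom_ext'
  rintro ⟨i, j⟩
  apply LinearMap.ext_ring
  show opY n ω β (opX n α (Finsupp.single (i, j) 1))
    = ω • (opX n α (opY n ω β (Finsupp.single (i, j) 1)))
  have e1 : ∀ (a b : ZMod n) (c : F), Finsupp.single (a, b) c = c • Finsupp.single (a, b) 1 := by
    intro a b c
    rw [Finsupp.smul_single, smul_eq_mul, mul_one]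
  rw [opX_single, opY_single, e1 _ _ (if i + 1 = 0 then α else 1),
    e1 _ _ (ω ^ i.val * if j + 1 = 0 then β else 1), map_smul, map_smul, opX_single, opY_single,
    e1 (i + 1) (j + 1), e1 (i + 1) (j + 1) (if i + 1 = 0 then α else 1), smul_smul, smul_smul,
    smul_smul]
  congr 1
  by_cases h : i + 1 = 0
  · rw [if_pos h, h, ZMod.val_zero, pow_zero, one_mul]
    have hi : i = ((n - 1 : ℕ) : ZMod n) := by
      have := natCast_pred n
      rw [← h] at this
      exact (add_right_cancel this).symm
    have h2 : i.val = n - 1 := by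
      rw [hi, ZMod.val_natCast, Nat.mod_eq_of_lt (by omega)]
    have h3 : ω * ω ^ i.val = 1 := by
      rw [h2, ← pow_succ', Nat.sub_add_cancel hn, hω]
    calc α * (if j + 1 = 0 then β else 1) = (ω * ω ^ i.val) * (α * (if j + 1 = 0 then β else 1)) := by
          rw [h3, one_mul]
      _ = _ := by ring
  · rw [if_neg h]
    have h2 : (i + 1).val = i.val + 1 := by
      have h3 : i.val + 1 < n := by
        rcases Nat.lt_or_ge (i.val + 1) n with h4 | h4
        · exact h4
        · exfalso
          apply h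
          have h5 : i.val + 1 = n := le_antisymm (ZMod.val_lt i) h4
          have h6 : ((i.val + 1 : ℕ) : ZMod n) = 0 := by rw [h5, ZMod.natCast_self]
          push_cast at h6
          rwa [ZMod.natCast_zmod_val] at h6
      have h7 : (i + 1) = ((i.val + 1 : ℕ) : ZMod n) := by
        push_cast
        rw [ZMod.natCast_zmod_val]
      rw [h7, ZMod.val_natCast, Nat.mod_eq_of_lt h3]
    rw [h2, pow_succ]
    ring

/-- The representation of the symbol algebra on the span of the monomials. -/
noncomputable def rep (hω : ω ^ n = 1) :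
    RawSymbol F n ω α β →ₐ[F] Module.End F ((ZMod n × ZMod n) →₀ F) :=
  RingQuot.liftAlgHom F ⟨FreeAlgebra.lift F ![opX n α, opY n ω β], by
    intro a b h
    cases h with
    | x_pow =>
      rw [map_pow, FreeAlgebra.lift_ι_apply, AlgHom.commutes]
      exact opX_pow_n n α
    | y_pow =>
      rw [map_pow, FreeAlgebra.lift_ι_apply, AlgHom.commutes]
      exact opY_pow_n n ω β hω
    | y_mul_x =>
      rw [map_mul, map_mul, map_mul, FreeAlgebra.lift_ι_apply, FreeAlgebra.lift_ι_apply,
        AlgHom.commutes, ← Algebra.smul_def]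
      exact opY_mul_opX n ω α β hω⟩

theorem rep_x (hω : ω ^ n = 1) : rep n ω α β hω (x n ω α β) = opX n α := by
  unfold rep x
  rw [RingQuot.liftAlgHom_mkAlgHom_apply, FreeAlgebra.lift_ι_apply]
  rfl

theorem rep_y (hω : ω ^ n = 1) : rep n ω α β hω (y n ω α β) = opY n ω β := by
  unfold rep y
  rw [RingQuot.liftAlgHom_mkAlgHom_apply, FreeAlgebra.lift_ι_apply]
  rfl

/-- The monomials `x ^ i y ^ j`. -/
noncomputable def mono (ij : ZMod n × ZMod n) : RawSymbol F n ω α β :=
  x n ω α β ^ ij.1.val * y n ω α β ^ ij.2.val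

theorem mono_linearIndependent (hω : ω ^ n = 1) :
    LinearIndependent F (mono n ω α β) := by
  let φ : RawSymbol F n ω α β →ₗ[F] ((ZMod n × ZMod n) →₀ F) :=
    (LinearMap.applyₗ (Finsupp.single ((0 : ZMod n), (0 : ZMod n)) (1 : F))).comp
      (rep n ω α β hω).toLinearMap
  apply LinearIndependent.of_comp φ
  have h : φ ∘ mono n ω α β = fun ij => Finsupp.single ij (1 : F) := by
    funext ij
    obtain ⟨i, j⟩ := ij
    show (rep n ω α β hω (mono n ω α β (i, j))) (Finsupp.single (0, 0) 1) = _
    unfold mono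
    rw [map_mul, map_pow, map_pow, rep_x, rep_y, Module.End.mul_apply,
      opY_pow_single n ω β 0 j.val (ZMod.val_lt j)]
    simp only [ZMod.val_zero, zero_mul, pow_zero, ZMod.natCast_zmod_val]
    rw [opX_pow_single n α j i.val (ZMod.val_lt i), ZMod.natCast_zmod_val]
  rw [h]
  exact Finsupp.linearIndependent_single_one F (ZMod n × ZMod n)

theorem pow_mul_pow_mem (a b : ℕ) :
    x n ω α β ^ a * y n ω α β ^ b ∈ Submodule.span F (Set.range (mono n ω α β)) := by
  rw [mono_reduce]
  apply Submodule.smul_mem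
  apply Submodule.subset_span
  refine ⟨((a : ZMod n), (b : ZMod n)), ?_⟩
  unfold mono
  simp only [ZMod.val_natCast]

theorem mono_span : ⊤ ≤ Submodule.span F (Set.range (mono n ω α β)) := by
  have key : ∀ f : FreeAlgebra F (Fin 2), ∀ w ∈ Submodule.span F (Set.range (mono n ω α β)),
      RingQuot.mkAlgHom F (SymbolRel n ω α β) f * w
        ∈ Submodule.span F (Set.range (mono n ω α β)) := by
    intro f
    induction f using FreeAlgebra.induction with
    | grade0 r =>
      intro w hw
      rw [AlgHom.commutes, ← Algebra.smul_def]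
      exact Submodule.smul_mem _ _ hw
    | grade1 i =>
      intro w hw
      induction hw using Submodule.span_induction with
      | zero => simp
      | add a b _ _ ha hb => rw [mul_add]; exact add_mem ha hb
      | smul c a _ ha => rw [mul_smul_comm]; exact Submodule.smul_mem _ _ ha
      | mem w hw =>
        obtain ⟨⟨a, b⟩, rfl⟩ := hw
        fin_cases i
        · show x n ω α β * (x n ω α β ^ a.val * y n ω α β ^ b.val) ∈ _
          rw [← mul_assoc, ← pow_succ']
          exact pow_mul_pow_mem n ω α β _ _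
        · show y n ω α β * (x n ω α β ^ a.val * y n ω α β ^ b.val) ∈ _
          rw [← mul_assoc, y_mul_x_pow, smul_mul_assoc, mul_assoc, ← pow_succ']
          exact Submodule.smul_mem _ _ (pow_mul_pow_mem n ω α β _ _)
    | mul f g hf hg =>
      intro w hw
      rw [map_mul, mul_assoc]
      exact hf _ (hg _ hw)
    | add f g hf hg =>
      intro w hw
      rw [map_add, add_mul]
      exact add_mem (hf _ hw) (hg _ hw)
  intro a _
  obtain ⟨f, rfl⟩ := RingQuot.mkAlgHom_surjective F (SymbolRel n ω α β) a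
  have h1 := key f 1 (by simpa using pow_mul_pow_mem n ω α β 0 0)
  rwa [mul_one] at h1

/-- The monomial basis of the symbol algebra. -/
noncomputable def basis (hω : ω ^ n = 1) :
    Module.Basis (ZMod n × ZMod n) F (RawSymbol F n ω α β) :=
  Module.Basis.mk (mono_linearIndependent n ω α β hω) (mono_span n ω α β)

theorem basis_apply (hω : ω ^ n = 1) (ij : ZMod n × ZMod n) :
    basis n ω α β hω ij = mono n ω α β ij := by
  unfold basis
  rw [Module.Basis.mk_apply]

end Rep

end RawSymbol

namespace SymbolAlgebra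

variable {F : Type u} [Field F] (n : ℕ) (ω α β : F)

/-- The generator `x`. -/
noncomputable def x : SymbolAlgebra F n ω α β := RawSymbol.x n ω α β

/-- The generator `y`. -/
noncomputable def y : SymbolAlgebra F n ω α β := RawSymbol.y n ω α β

theorem mono_mul_mono (a b c d : ℕ) :
    (x n ω α β ^ a * y n ω α β ^ b) * (x n ω α β ^ c * y n ω α β ^ d)
      = ω ^ (b * c) • (x n ω α β ^ (a + c) * y n ω α β ^ (b + d)) :=
  RawSymbol.mono_mul_mono n ω α β a b c d

theorem mono_reduce (a b : ℕ) :
    x n ω α β ^ a * y n ω α β ^ b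
      = (α ^ (a / n) * β ^ (b / n)) • (x n ω α β ^ (a % n) * y n ω α β ^ (b % n)) :=
  RawSymbol.mono_reduce n ω α β a b

/-- The monomials `x ^ i y ^ j`. -/
noncomputable def mono (ij : ZMod n × ZMod n) : SymbolAlgebra F n ω α β :=
  x n ω α β ^ ij.1.val * y n ω α β ^ ij.2.val

/-- The monomial basis of the symbol algebra. -/
noncomputable def basis [NeZero n] (hω : ω ^ n = 1) :
    Module.Basis (ZMod n × ZMod n) F (SymbolAlgebra F n ω α β) :=
  RawSymbol.basis n ω α β hω

theorem basis_apply [NeZero n] (hω : ω ^ n = 1) (ij : ZMod n × ZMod n) :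
    basis n ω α β hω ij = mono n ω α β ij :=
  RawSymbol.basis_apply n ω α β hω ij

end SymbolAlgebra

end Pool.Agent.Helper47
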