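import Mathlib
import Pool.Agent.Helper47.Symbol

set_option autoImplicit false

namespace Pool.Agent.Helper47

open Finset
open scoped TensorProduct

universe u

/-- The tensor product of symbol algebras, with the instances of `PiTensorProduct`. -/
abbrev RawTensor (F : Type u) [Field F] (p m : ℕ) (ω : F) (α β : Fin m → F) : Type u :=
  ⨂[F] i : Fin m, RawSymbol F p ω (α i) (β i)

namespace RawTensor

variable {F : Type u} [Field F] (p : ℕ) {m : ℕ} (ω : F) (α β : Fin m → F)

/-- The monomial with exponent `e`. -/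
noncomputable def N (e : (Fin m × Fin 2) →₀ ℕ) : RawTensor F p m ω α β :=
  PiTensorProduct.tprod F (fun i => RawSymbol.x p ω (α i) (β i) ^ e (i, 0)
    * RawSymbol.y p ω (α i) (β i) ^ e (i, 1))

theorem N_zero : N p ω α β 0 = 1 := by
  unfold N
  rw [PiTensorProduct.one_def]
  congr 1
  funext i
  simp

/-- The commutation exponent. -/
def cc (e f : (Fin m × Fin 2) →₀ ℕ) : ℕ := ∑ i, e (i, 1) * f (i, 0)

theorem N_mul (e f : (Fin m × Fin 2) →₀ ℕ) :
    N p ω α β e * N p ω α β f = ω ^ cc e f • N p ω α β (e + f) := by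
  unfold N
  rw [PiTensorProduct.tprod_mul_tprod]
  have h : ((fun i => RawSymbol.x p ω (α i) (β i) ^ e (i, 0)
      * RawSymbol.y p ω (α i) (β i) ^ e (i, 1)) *
      fun i => RawSymbol.x p ω (α i) (β i) ^ f (i, 0)
      * RawSymbol.y p ω (α i) (β i) ^ f (i, 1))
      = fun i => ω ^ (e (i, 1) * f (i, 0)) • (RawSymbol.x p ω (α i) (β i) ^ (e + f) (i, 0)
      * RawSymbol.y p ω (α i) (β i) ^ (e + f) (i, 1)) := by
    funext i
    rw [Pi.mul_apply, RawSymbol.mono_mul_mono]
    rfl
  rw [h, MultilinearMap.map_smul_univ, Finset.prod_pow_eq_pow_sum]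
  rfl

section Basis

variable [NeZero p]

/-- The monomial basis of the tensor product. -/
noncomputable def B (hω : ω ^ p = 1) :
    Module.Basis (Fin m → ZMod p × ZMod p) F (RawTensor F p m ω α β) :=
  Basis.piTensorProduct (fun i => RawSymbol.basis p ω (α i) (β i) hω)

/-- The class of an exponent. -/
def cl : ((Fin m × Fin 2) →₀ ℕ) →+ (Fin m → ZMod p × ZMod p) where
  toFun e := fun i => ((e (i, 0) : ZMod p), (e (i, 1) : ZMod p))
  map_zero' := by funext i; simp
  map_add' e f := by funext i; simp

/-- The quotient of an exponent by `p`. -/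
noncomputable def qq (e : (Fin m × Fin 2) →₀ ℕ) : (Fin m × Fin 2) →₀ ℕ :=
  e.mapRange (fun a => a / p) (Nat.zero_div p)

/-- The smallest exponent in a class. -/
noncomputable def lift (g : Fin m → ZMod p × ZMod p) : (Fin m × Fin 2) →₀ ℕ :=
  Finsupp.equivFunOnFinite.symm (fun s => if s.2 = 0 then (g s.1).1.val else (g s.1).2.val)

omit [NeZero p] in
@[simp] theorem lift_zero_apply (g : Fin m → ZMod p × ZMod p) (i : Fin m) :
    lift p g (i, 0) = (g i).1.val := by
  simp [lift]

omit [NeZero p] in
@[simp] theorem lift_one_apply (g : Fin m → ZMod p × ZMod p) (i : Fin m) :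
    lift p g (i, 1) = (g i).2.val := by
  simp [lift]

theorem B_apply (hω : ω ^ p = 1) (g : Fin m → ZMod p × ZMod p) :
    B p ω α β hω g = N p ω α β (lift p g) := by
  unfold B N
  rw [Basis.piTensorProduct_apply]
  congr 1
  funext i
  rw [RawSymbol.basis_apply]
  unfold RawSymbol.mono
  rw [lift_zero_apply, lift_one_apply]

theorem B_zero (hω : ω ^ p = 1) : B p ω α β hω 0 = 1 := by
  rw [B_apply, ← N_zero p ω α β]
  congr 1
  ext ⟨i, j⟩
  fin_cases j
  · show lift p 0 (i, 0) = 0
    simp
  · show lift p 0 (i, 1) = 0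
    simp

theorem N_eq (hω : ω ^ p = 1) (e : (Fin m × Fin 2) →₀ ℕ) :
    N p ω α β e = (∏ i, (α i ^ (qq p e (i, 0)) * β i ^ (qq p e (i, 1))))
      • B p ω α β hω (cl p e) := by
  rw [B_apply]
  unfold N
  rw [← MultilinearMap.map_smul_univ]
  congr 1
  funext i
  rw [RawSymbol.mono_reduce, lift_zero_apply, lift_one_apply]
  show _ = (α i ^ (e (i, 0) / p) * β i ^ (e (i, 1) / p)) • (_ * _)
  congr 3
  · show _ = ((e (i, 0) : ℕ) : ZMod p).val
    rw [ZMod.val_natCast]
  · show _ = ((e (i, 1) : ℕ) : ZMod p).val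
    rw [ZMod.val_natCast]

omit [NeZero p] in
theorem qq_cl_injective :
    Function.Injective (fun e : (Fin m × Fin 2) →₀ ℕ => (qq p e, cl p e)) := by
  intro e f h
  have h1 : qq p e = qq p f := congrArg Prod.fst h
  have h2 : cl p e = cl p f := congrArg Prod.snd h
  ext ⟨i, j⟩
  have h3 : e (i, j) / p = f (i, j) / p := by
    have := DFunLike.congr_fun h1 (i, j)
    exact this
  have h4 : e (i, j) % p = f (i, j) % p := by
    have h5 := congrFun h2 i
    fin_cases j
    · have h6 : ((e (i, 0) : ℕ) : ZMod p) = (f (i, 0) : ℕ) := congrArg Prod.fst h5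
      rwa [ZMod.natCast_eq_natCast_iff'] at h6
    · have h6 : ((e (i, 1) : ℕ) : ZMod p) = (f (i, 1) : ℕ) := congrArg Prod.snd h5
      rwa [ZMod.natCast_eq_natCast_iff'] at h6
  rw [← Nat.div_add_mod (e (i, j)) p, h3, h4, Nat.div_add_mod]

theorem qq_cl_surjective (d : (Fin m × Fin 2) →₀ ℕ) (g : Fin m → ZMod p × ZMod p) :
    ∃ e : (Fin m × Fin 2) →₀ ℕ, qq p e = d ∧ cl p e = g := by
  refine ⟨p • d + lift p g, ?_, ?_⟩
  · have hp := Nat.pos_of_ne_zero (NeZero.ne p)
    ext ⟨i, j⟩
    show (p • d + lift p g) (i, j) / p = d (i, j)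
    rw [Finsupp.add_apply, Finsupp.smul_apply, smul_eq_mul, Nat.mul_add_div hp]
    have : lift p g (i, j) < p := by
      fin_cases j
      · show lift p g (i, 0) < p
        rw [lift_zero_apply]; exact ZMod.val_lt _
      · show lift p g (i, 1) < p
        rw [lift_one_apply]; exact ZMod.val_lt _
    rw [Nat.div_eq_of_lt this, add_zero]
  · rw [map_add, map_nsmul]
    funext i
    rw [Pi.add_apply, Pi.smul_apply]
    apply Prod.ext
    · simp [cl]
    · simp [cl]

theorem pow_eq_pow_of_cast {a b : ℕ} (hω : ω ^ p = 1) (h : (a : ZMod p) = b) :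
    ω ^ a = ω ^ b := by
  rw [ZMod.natCast_eq_natCast_iff'] at h
  rw [← Nat.div_add_mod a p, ← Nat.div_add_mod b p, pow_add, pow_mul, hω, one_pow, one_mul,
    pow_add, pow_mul, hω, one_pow, one_mul, h]

omit [NeZero p] in
theorem cc_cast (e f : (Fin m × Fin 2) →₀ ℕ) :
    ((cc e f : ℕ) : ZMod p) = ∑ i, (cl p e i).2 * (cl p f i).1 := by
  unfold cc
  push_cast
  rfl

theorem N_comm (hω : ω ^ p = 1) (g : Fin m → ZMod p × ZMod p) (a c : ZMod p)
    (e f : (Fin m × Fin 2) →₀ ℕ) (he : cl p e = a • g) (hf : cl p f = c • g) :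
    N p ω α β e * N p ω α β f = N p ω α β f * N p ω α β e := by
  rw [N_mul, N_mul, add_comm f e]
  congr 1
  apply pow_eq_pow_of_cast p ω hω
  rw [cc_cast, cc_cast, he, hf]
  apply Finset.sum_congr rfl
  intro i _
  simp only [Pi.smul_apply, Prod.smul_fst, Prod.smul_snd, smul_eq_mul]
  ring

theorem B_mul (hω : ω ^ p = 1) (g h : Fin m → ZMod p × ZMod p) :
    ∃ c : F, B p ω α β hω g * B p ω α β hω h = c • B p ω α β hω (g + h) := by
  rw [B_apply, B_apply, N_mul, N_eq p ω α β hω]
  have : cl p (lift p g + lift p h) = g + h := by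
    rw [map_add]
    congr 1
    · funext i
      apply Prod.ext
      · show ((lift p g (i, 0) : ℕ) : ZMod p) = _
        simp
      · show ((lift p g (i, 1) : ℕ) : ZMod p) = _
        simp
    · funext i
      apply Prod.ext
      · show ((lift p h (i, 0) : ℕ) : ZMod p) = _
        simp
      · show ((lift p h (i, 1) : ℕ) : ZMod p) = _
        simp
  rw [this, smul_smul]
  exact ⟨_, rfl⟩

/-- The commutation character. -/
noncomputable def chi (h g : Fin m → ZMod p × ZMod p) : F :=
  ω ^ cc (lift p h) (lift p g) * (ω ^ cc (lift p g) (lift p h))⁻¹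

theorem B_mul_comm (hω : ω ^ p = 1) (h g : Fin m → ZMod p × ZMod p) :
    B p ω α β hω h * B p ω α β hω g
      = chi p ω h g • (B p ω α β hω g * B p ω α β hω h) := by
  have hω0 : ω ≠ 0 := by
    rintro rfl
    rw [zero_pow (NeZero.ne p)] at hω
    exact zero_ne_one hω
  rw [B_apply, B_apply, N_mul, N_mul, smul_smul, add_comm (lift p g), chi, mul_assoc,
    inv_mul_cancel₀ (pow_ne_zero _ hω0), mul_one]

theorem chi_separates (hω : IsPrimitiveRoot ω p) (hp : 2 ≤ p) (g g' : Fin m → ZMod p × ZMod p)
    (hne : g ≠ g') : ∃ h, chi p ω h g ≠ chi p ω h g' := by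
  classical
  haveI : Fact (1 < p) := ⟨by omega⟩
  obtain ⟨i, hi⟩ := Function.ne_iff.1 hne
  by_cases h1 : (g i).1 = (g' i).1
  · -- use `x_i`
    have h2 : (g i).2 ≠ (g' i).2 := fun h => hi (Prod.ext h1 h)
    let h : Fin m → ZMod p × ZMod p := Pi.single i (1, 0)
    refine ⟨h, ?_⟩
    have hc1 : ∀ g'' : Fin m → ZMod p × ZMod p, cc (lift p h) (lift p g'') = 0 := by
      intro g''
      unfold cc
      apply Finset.sum_eq_zero
      intro j _
      rw [lift_one_apply]
      have : (h j).2 = 0 := by
        by_cases hj : j = i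
        · subst hj; simp [h]
        · simp [h, Pi.single_eq_of_ne hj]
      rw [this, ZMod.val_zero, zero_mul]
    have hc2 : ∀ g'' : Fin m → ZMod p × ZMod p, cc (lift p g'') (lift p h) = (g'' i).2.val := by
      intro g''
      unfold cc
      rw [Finset.sum_eq_single i]
      · rw [lift_one_apply, lift_zero_apply]
        have : (h i).1 = 1 := by simp [h]
        rw [this, ZMod.val_one, mul_one]
      · intro j _ hj
        rw [lift_zero_apply]
        have : (h j).1 = 0 := by simp [h, Pi.single_eq_of_ne hj]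
        rw [this, ZMod.val_zero, mul_zero]
      · intro hh; exact absurd (Finset.mem_univ _) hh
    intro heq
    unfold chi at heq
    rw [hc1, hc1, hc2, hc2, pow_zero, one_mul, one_mul, inv_inj] at heq
    have h3 := hω.pow_inj (ZMod.val_lt _) (ZMod.val_lt _) heq
    exact h2 (ZMod.val_injective p h3)
  · -- use `y_i`
    let h : Fin m → ZMod p × ZMod p := Pi.single i (0, 1)
    refine ⟨h, ?_⟩
    have hc1 : ∀ g'' : Fin m → ZMod p × ZMod p, cc (lift p g'') (lift p h) = 0 := by
      intro g''
      unfold cc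
      apply Finset.sum_eq_zero
      intro j _
      rw [lift_zero_apply]
      have : (h j).1 = 0 := by
        by_cases hj : j = i
        · subst hj; simp [h]
        · simp [h, Pi.single_eq_of_ne hj]
      rw [this, ZMod.val_zero, mul_zero]
    have hc2 : ∀ g'' : Fin m → ZMod p × ZMod p, cc (lift p h) (lift p g'') = (g'' i).1.val := by
      intro g''
      unfold cc
      rw [Finset.sum_eq_single i]
      · rw [lift_one_apply, lift_zero_apply]
        have : (h i).2 = 1 := by simp [h]
        rw [this, ZMod.val_one, one_mul]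
      · intro j _ hj
        rw [lift_one_apply]
        have : (h j).2 = 0 := by simp [h, Pi.single_eq_of_ne hj]
        rw [this, ZMod.val_zero, zero_mul]
      · intro hh; exact absurd (Finset.mem_univ _) hh
    intro heq
    unfold chi at heq
    rw [hc1, hc1, hc2, hc2, pow_zero, inv_one, mul_one, mul_one] at heq
    have h3 := hω.pow_inj (ZMod.val_lt _) (ZMod.val_lt _) heq
    exact h1 (ZMod.val_injective p h3)

end Basis

end RawTensor

/-- The tensor product of symbol algebras, with sealed instances. -/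
def ITensor (F : Type u) [Field F] (p m : ℕ) (ω : F) (α β : Fin m → F) : Type u :=
  ⨂[F] i : Fin m, RawSymbol F p ω (α i) (β i)

noncomputable instance (F : Type u) [Field F] (p m : ℕ) (ω : F) (α β : Fin m → F) :
    Ring (ITensor F p m ω α β) :=
  inferInstanceAs (Ring (⨂[F] i : Fin m, RawSymbol F p ω (α i) (β i)))

noncomputable instance (F : Type u) [Field F] (p m : ℕ) (ω : F) (α β : Fin m → F) :
    Algebra F (ITensor F p m ω α β) :=
  inferInstanceAs (Algebra F (⨂[F] i : Fin m, RawSymbol F p ω (α i) (β i)))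

namespace ITensor

variable {F : Type u} [Field F] (p : ℕ) {m : ℕ} (ω : F) (α β : Fin m → F)

/-- The monomial with exponent `e`. -/
noncomputable def N (e : (Fin m × Fin 2) →₀ ℕ) : ITensor F p m ω α β :=
  RawTensor.N p ω α β e

theorem N_zero : N p ω α β 0 = 1 := RawTensor.N_zero p ω α β

theorem N_mul (e f : (Fin m × Fin 2) →₀ ℕ) :
    N p ω α β e * N p ω α β f = ω ^ RawTensor.cc e f • N p ω α β (e + f) :=
  RawTensor.N_mul p ω α β e f

variable [NeZero p]

/-- The monomial basis of the tensor product. -/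
noncomputable def B (hω : ω ^ p = 1) :
    Module.Basis (Fin m → ZMod p × ZMod p) F (ITensor F p m ω α β) :=
  RawTensor.B p ω α β hω

theorem B_zero (hω : ω ^ p = 1) : B p ω α β hω 0 = 1 := RawTensor.B_zero p ω α β hω

theorem N_eq (hω : ω ^ p = 1) (e : (Fin m × Fin 2) →₀ ℕ) :
    N p ω α β e = (∏ i, (α i ^ (RawTensor.qq p e (i, 0)) * β i ^ (RawTensor.qq p e (i, 1))))
      • B p ω α β hω (RawTensor.cl p e) := RawTensor.N_eq p ω α β hω e

theorem N_comm (hω : ω ^ p = 1) (g : Fin m → ZMod p × ZMod p) (a c : ZMod p)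
    (e f : (Fin m × Fin 2) →₀ ℕ) (he : RawTensor.cl p e = a • g) (hf : RawTensor.cl p f = c • g) :
    N p ω α β e * N p ω α β f = N p ω α β f * N p ω α β e :=
  RawTensor.N_comm p ω α β hω g a c e f he hf

theorem B_mul (hω : ω ^ p = 1) (g h : Fin m → ZMod p × ZMod p) :
    ∃ c : F, B p ω α β hω g * B p ω α β hω h = c • B p ω α β hω (g + h) :=
  RawTensor.B_mul p ω α β hω g h

theorem B_mul_comm (hω : ω ^ p = 1) (h g : Fin m → ZMod p × ZMod p) :
    B p ω α β hω h * B p ω α β hω g
      = RawTensor.chi p ω h g • (B p ω α β hω g * B p ω α β hω h) :=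
  RawTensor.B_mul_comm p ω α β hω h g

end ITensor

/-! ### Simplicity and centrality of algebras with a commuting-up-to-scalars basis of units -/

section Simple

variable {L C G : Type*} [Field L] [Ring C] [Algebra L C] [Finite G]

theorem isSimpleRing_of_basis [Nontrivial C] (b : Module.Basis G L C) (hu : ∀ g, IsUnit (b g))
    (χ : G → G → L) (hχ : ∀ h g, b h * b g = χ h g • (b g * b h))
    (hsep : ∀ g g', g ≠ g' → ∃ h, χ h g ≠ χ h g') : IsSimpleRing C := by
  classical
  haveI := Fintype.ofFinite G
  have key : ∀ I : TwoSidedIdeal C, ∀ d : ℕ, ∀ z ∈ I, z ≠ 0 → (b.repr z).support.card ≤ d →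
      (1 : C) ∈ I := by
    intro I d
    induction d with
    | zero =>
      intro z _ hz0 hcard
      exfalso
      apply hz0
      have : (b.repr z).support = ∅ := Finset.card_eq_zero.1 (Nat.le_zero.1 hcard)
      rw [Finsupp.support_eq_empty] at this
      simpa using this
    | succ d ih =>
      intro z hz hz0 hcard
      by_cases h1 : ∃ g ∈ (b.repr z).support, ∃ g' ∈ (b.repr z).support, g ≠ g'
      · obtain ⟨g, hg, g', hg', hne⟩ := h1
        obtain ⟨h, hh⟩ := hsep g g' hne
        obtain ⟨v, hv⟩ := hu h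
        -- conjugation by `b h`
        have hconj : ∀ g'', b h * b g'' * ↑v⁻¹ = χ h g'' • b g'' := by
          intro g''
          rw [hχ, smul_mul_assoc, ← hv, mul_assoc, Units.mul_inv, mul_one]
        let z' := b h * z * ↑v⁻¹ - χ h g • z
        have hz' : z' ∈ I := by
          apply I.sub_mem
          · exact I.mul_mem_right _ _ (I.mul_mem_left _ _ hz)
          · rw [Algebra.smul_def]
            exact I.mul_mem_left _ _ hz
        have hrepr : ∀ g'', b.repr z' g'' = (χ h g'' - χ h g) * b.repr z g'' := by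
          intro g''
          have h2 : b h * z * ↑v⁻¹ = ∑ g₁, (χ h g₁ * b.repr z g₁) • b g₁ := by
            conv_lhs => rw [← b.sum_repr z]
            rw [Finset.mul_sum, Finset.sum_mul]
            apply Finset.sum_congr rfl
            intro g₁ _
            rw [mul_smul_comm, smul_mul_assoc, hconj, smul_smul, mul_comm]
          have h3 : b.repr (b h * z * ↑v⁻¹) g'' = χ h g'' * b.repr z g'' := by
            rw [h2, b.repr_sum_self]
          show b.repr (b h * z * ↑v⁻¹ - χ h g • z) g'' = _
          rw [map_sub, map_smul, Finsupp.sub_apply, Finsupp.smul_apply, smul_eq_mul, h3]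
          ring
        apply ih z' hz'
        · intro h0
          have h2 := hrepr g'
          rw [h0, map_zero, Finsupp.zero_apply] at h2
          rcases mul_eq_zero.1 h2.symm with h3 | h3
          · exact hh (sub_eq_zero.1 h3).symm
          · exact (Finsupp.mem_support_iff.1 hg') h3
        · have h2 : (b.repr z').support ⊆ (b.repr z).support.erase g := by
            intro g'' hg''
            rw [Finsupp.mem_support_iff, hrepr] at hg''
            rw [Finset.mem_erase, Finsupp.mem_support_iff]
            constructor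
            · rintro rfl
              apply hg''
              rw [sub_self, zero_mul]
            · intro h3; apply hg''; rw [h3, mul_zero]
          have h3 := Finset.card_le_card h2
          rw [Finset.card_erase_of_mem hg] at h3
          omega
      · push Not at h1
        -- the support is a singleton
        have hne : (b.repr z).support.Nonempty := by
          rw [Finset.nonempty_iff_ne_empty]
          intro h2
          rw [Finsupp.support_eq_empty] at h2
          apply hz0
          simpa using h2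
        obtain ⟨g, hg⟩ := hne
        have h2 : z = b.repr z g • b g := by
          conv_lhs => rw [← b.sum_repr z]
          rw [Finset.sum_eq_single g]
          · intro g' _ hg'
            by_cases h3 : g' ∈ (b.repr z).support
            · exact absurd (h1 g hg g' h3).symm hg'
            · rw [Finsupp.notMem_support_iff.1 h3, zero_smul]
          · intro h3; exact absurd (Finset.mem_univ _) h3
        have hz1 : IsUnit z := by
          rw [h2, Algebra.smul_def]
          apply IsUnit.mul _ (hu g)
          exact (isUnit_iff_ne_zero.2 (Finsupp.mem_support_iff.1 hg)).map (algebraMap L C)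
        obtain ⟨w, hw⟩ := hz1
        have : (1 : C) = ↑w⁻¹ * z := by rw [← hw, Units.inv_mul]
        rw [this]
        exact I.mul_mem_left _ _ hz
  refine ⟨⟨fun I => ?_⟩⟩
  by_cases hI : I = ⊥
  · exact Or.inl hI
  · right
    have : ∃ z ∈ I, z ≠ 0 := by
      by_contra hcon
      push Not at hcon
      apply hI
      ext z
      constructor
      · intro hz
        rw [hcon z hz]
        exact zero_mem _
      · intro hz
        have hz2 : z = 0 := by
          simpa using hz
        rw [hz2]
        exact zero_mem _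
    obtain ⟨z, hz, hz0⟩ := this
    have h1 := key I _ z hz hz0 le_rfl
    exact (TwoSidedIdeal.one_mem_iff _).1 h1

theorem center_of_basis [Zero G] (b : Module.Basis G L C) (hb0 : b 0 = 1)
    (hu : ∀ g, IsUnit (b g))
    (χ : G → G → L) (hχ : ∀ h g, b h * b g = χ h g • (b g * b h))
    (hsep : ∀ g g', g ≠ g' → ∃ h, χ h g ≠ χ h g') : Algebra.IsCentral L C := by
  classical
  haveI := Fintype.ofFinite G
  constructor
  intro z hz
  rw [Subalgebra.mem_center_iff] at hz
  have hχ0 : ∀ h, χ h 0 = 1 := by
    intro h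
    have h1 := hχ h 0
    rw [hb0, mul_one, one_mul] at h1
    have h2 : (1 - χ h 0) • b h = 0 := by rw [sub_smul, one_smul, ← h1, sub_self]
    rcases smul_eq_zero.1 h2 with h3 | h3
    · exact (sub_eq_zero.1 h3).symm
    · exact absurd h3 (b.ne_zero h)
  have hcoef : ∀ g, g ≠ 0 → b.repr z g = 0 := by
    intro g hg
    obtain ⟨h, hh⟩ := hsep g 0 hg
    obtain ⟨v, hv⟩ := hu h
    have hconj : ∀ g'', b h * b g'' * ↑v⁻¹ = χ h g'' • b g'' := by
      intro g''
      rw [hχ, smul_mul_assoc, ← hv, mul_assoc, Units.mul_inv, mul_one]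
    have h1 : b h * z * ↑v⁻¹ = z := by
      rw [hz (b h), ← hv, mul_assoc, Units.mul_inv, mul_one]
    have h2 : b h * z * ↑v⁻¹ = ∑ g₁, (χ h g₁ * b.repr z g₁) • b g₁ := by
      conv_lhs => rw [← b.sum_repr z]
      rw [Finset.mul_sum, Finset.sum_mul]
      apply Finset.sum_congr rfl
      intro g₁ _
      rw [mul_smul_comm, smul_mul_assoc, hconj, smul_smul, mul_comm]
    have h3 : b.repr z g = χ h g * b.repr z g := by
      conv_lhs => rw [← h1, h2, b.repr_sum_self]
    have h4 : (1 - χ h g) * b.repr z g = 0 := by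
      rw [sub_mul, one_mul, ← h3, sub_self]
    rcases mul_eq_zero.1 h4 with h5 | h5
    · exfalso
      apply hh
      rw [hχ0]
      exact (sub_eq_zero.1 h5).symm
    · exact h5
  rw [Algebra.mem_bot]
  refine ⟨b.repr z 0, ?_⟩
  conv_rhs => rw [← b.sum_repr z]
  rw [Finset.sum_eq_single 0]
  · rw [hb0, Algebra.algebraMap_eq_smul_one]
  · intro g _ hg
    rw [hcoef g hg, zero_smul]
  · intro h; exact absurd (Finset.mem_univ _) h

omit [Finite G] in
/-- A trace functional vanishes on the nontrivial basis elements. -/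
theorem trace_eq_zero_of_basis [Zero G] (b : Module.Basis G L C) (hb0 : b 0 = 1)
    (hu : ∀ g, IsUnit (b g))
    (χ : G → G → L) (hχ : ∀ h g, b h * b g = χ h g • (b g * b h))
    (hsep : ∀ g g', g ≠ g' → ∃ h, χ h g ≠ χ h g')
    {M : Type*} [AddCommGroup M] [Module L M] (T : C →ₗ[L] M) (hT : ∀ a c, T (a * c) = T (c * a))
    (g : G) (hg : g ≠ 0) : T (b g) = 0 := by
  have hχ0 : ∀ h, χ h 0 = 1 := by
    intro h
    have h1 := hχ h 0
    rw [hb0, mul_one, one_mul] at h1
    have h2 : (1 - χ h 0) • b h = 0 := by rw [sub_smul, one_smul, ← h1, sub_self]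
    haveI : Nontrivial C := ⟨⟨b h, 0, ?_⟩⟩
    · rcases smul_eq_zero.1 h2 with h3 | h3
      · exact (sub_eq_zero.1 h3).symm
      · exact absurd h3 (b.ne_zero h)
    · exact b.ne_zero h
  obtain ⟨h, hh⟩ := hsep g 0 hg
  obtain ⟨v, hv⟩ := hu h
  have hconj : b h * b g * ↑v⁻¹ = χ h g • b g := by
    rw [hχ, smul_mul_assoc, ← hv, mul_assoc, Units.mul_inv, mul_one]
  have h1 : T (b h * b g * ↑v⁻¹) = T (b g) := by
    rw [hT, ← mul_assoc, ← hv, Units.inv_mul, one_mul]
  rw [hconj, map_smul] at h1
  have h2 : (χ h g - 1) • T (b g) = 0 := by rw [sub_smul, one_smul, h1, sub_self]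
  rcases smul_eq_zero.1 h2 with h3 | h3
  · exfalso
    apply hh
    rw [hχ0]
    exact sub_eq_zero.1 h3
  · exact h3

end Simple

end Pool.Agent.Helper47
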