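import Mathlib

set_option autoImplicit false

namespace Pool.Agent.Helper47

open Finset

/-- Inclusion-exclusion over the finite sets containing a given one. -/
theorem sum_superset_neg_one (r : ℕ) (I : Finset (Fin r)) :
    (∑ s ∈ (univ : Finset (Finset (Fin r))).filter (fun s => I ⊆ s), (-1 : ℤ) ^ s.card)
      = if I = univ then (-1) ^ r else 0 := by
  classical
  have h : (∑ s ∈ (univ : Finset (Finset (Fin r))).filter (fun s => I ⊆ s), (-1 : ℤ) ^ s.card)
      = ∑ t ∈ (Iᶜ).powerset, (-1 : ℤ) ^ I.card * (-1 : ℤ) ^ t.card := by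
    refine Finset.sum_nbij' (fun s => s \ I) (fun t => I ∪ t) ?_ ?_ ?_ ?_ ?_
    · intro s hs
      simp only [mem_filter, mem_univ, true_and] at hs
      simp only [mem_powerset]
      intro x hx
      simp only [mem_sdiff, mem_compl] at hx ⊢
      exact hx.2
    · intro t ht
      simp
    · intro s hs
      simp only [mem_filter, mem_univ, true_and] at hs
      exact Finset.union_sdiff_of_subset hs
    · intro t ht
      simp only [mem_powerset] at ht
      ext x
      simp only [mem_sdiff, mem_union]
      constructor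
      · rintro ⟨h1 | h1, h2⟩
        · exact absurd h1 h2
        · exact h1
      · intro hx
        exact ⟨Or.inr hx, by simpa using ht hx⟩
    · intro s hs
      simp only [mem_filter, mem_univ, true_and] at hs
      rw [← pow_add]
      congr 1
      rw [Finset.card_sdiff_of_subset hs]
      have := Finset.card_le_card hs
      omega
  rw [h, ← Finset.mul_sum, Finset.sum_powerset_neg_one_pow_card]
  by_cases hI : I = univ
  · subst hI
    simp
  · have : Iᶜ ≠ ∅ := by
      intro h; apply hI
      rwa [Finset.compl_eq_empty_iff] at h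
    simp [this, hI]

/-- Polarization of a trace of powers in a noncommutative ring. -/
theorem polar {A M : Type*} [Ring A] [AddCommGroup M] (T : A →+ M) (r : ℕ) (v : Fin r → A)
    (h : ∀ s : Finset (Fin r), T ((∑ i ∈ s, v i) ^ r) = 0) :
    ∑ σ : Equiv.Perm (Fin r), T ((List.ofFn (fun i => v (σ i))).prod) = 0 := by
  classical
  have h1 : ∀ s : Finset (Fin r), (∑ i ∈ s, v i) ^ r
      = ∑ f ∈ Fintype.piFinset (fun _ : Fin r => s), (List.ofFn (fun i => v (f i))).prod := by
    intro s
    have := (MultilinearMap.mkPiAlgebraFin ℤ r A).map_sum_finset (fun _ j => v j)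
      (fun _ : Fin r => s)
    simpa [MultilinearMap.mkPiAlgebraFin_apply] using this
  have h2 : ∑ s : Finset (Fin r), ((-1 : ℤ) ^ s.card) • T ((∑ i ∈ s, v i) ^ r) = 0 :=
    Finset.sum_eq_zero (fun s _ => by rw [h s, smul_zero])
  have h3 : ∑ s : Finset (Fin r), ((-1 : ℤ) ^ s.card) • T ((∑ i ∈ s, v i) ^ r)
      = ∑ f : Fin r → Fin r,
        (∑ s ∈ (univ : Finset (Finset (Fin r))).filter (fun s => univ.image f ⊆ s),
          (-1 : ℤ) ^ s.card) • T ((List.ofFn (fun i => v (f i))).prod) := by
    have h4 : ∀ s : Finset (Fin r), ((-1 : ℤ) ^ s.card) • T ((∑ i ∈ s, v i) ^ r)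
        = ∑ f : Fin r → Fin r, if univ.image f ⊆ s then
          ((-1 : ℤ) ^ s.card) • T ((List.ofFn (fun i => v (f i))).prod) else 0 := by
      intro s
      rw [h1, map_sum, Finset.smul_sum, ← Finset.sum_filter]
      apply Finset.sum_congr
      · ext f
        simp [Fintype.mem_piFinset, Finset.image_subset_iff]
      · intros; rfl
    simp_rw [h4]
    rw [Finset.sum_comm]
    apply Finset.sum_congr rfl
    intro f _
    rw [← Finset.sum_filter, Finset.sum_smul]
  rw [h3] at h2
  simp_rw [sum_superset_neg_one] at h2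
  have h5 : ∑ f : Fin r → Fin r,
      (if univ.image f = univ then (-1 : ℤ) ^ r else 0) • T ((List.ofFn (fun i => v (f i))).prod)
      = (-1 : ℤ) ^ r • ∑ σ : Equiv.Perm (Fin r), T ((List.ofFn (fun i => v (σ i))).prod) := by
    simp_rw [ite_smul, zero_smul]
    rw [← Finset.sum_filter, Finset.smul_sum]
    symm
    refine Finset.sum_bij (fun σ _ => (σ : Fin r → Fin r)) ?_ ?_ ?_ ?_
    · intro σ _
      simp only [mem_filter, mem_univ, true_and]
      exact Finset.image_univ_of_surjective σ.surjective
    · intro σ _ τ _ hst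
      exact Equiv.coe_fn_injective hst
    · intro f hf
      simp only [mem_filter, mem_univ, true_and] at hf
      have hs : Function.Surjective f := by
        intro y
        have : y ∈ univ.image f := by rw [hf]; exact mem_univ _
        simpa using this
      exact ⟨Equiv.ofBijective f ⟨Finite.injective_iff_surjective.2 hs, hs⟩, mem_univ _, rfl⟩
    · intro σ _
      rfl
  rw [h5] at h2
  rcases neg_one_pow_eq_or ℤ r with h6 | h6
  · rwa [h6, one_smul] at h2
  · rw [h6, neg_smul, one_smul, neg_eq_zero] at h2
    exact h2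

end Pool.Agent.Helper47
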