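import Mathlib
import Pool.Agent.Helper47.Polar

set_option autoImplicit false

namespace Pool.Agent.Helper47

open Finset

/-! Leading terms in a twisted monomial algebra. -/

section Lead

variable {k A Γ E : Type*} [Field k] [Ring A] [Algebra k A] [AddCommMonoid E]
  [AddCommMonoid Γ] [LinearOrder Γ] [IsOrderedCancelAddMonoid Γ]

/-- The span of the monomials whose exponent is smaller than `e`. -/
def Below (k : Type*) {A Γ E : Type*} [Field k] [Ring A] [Algebra k A] [AddCommMonoid E]
    [AddCommMonoid Γ] [LinearOrder Γ] (key : E →+ Γ) (N : E → A) (e : E) : Submodule k A :=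
  Submodule.span k (N '' {f | key f < key e})

/-- `n` is the leading monomial term of `u`, of exponent `e`. -/
def Lead (k : Type*) {A Γ E : Type*} [Field k] [Ring A] [Algebra k A] [AddCommMonoid E]
    [AddCommMonoid Γ] [LinearOrder Γ] (key : E →+ Γ) (N : E → A) (u : A) (e : E) (n : A) : Prop :=
  (∃ c : k, c ≠ 0 ∧ n = c • N e) ∧ u - n ∈ Below k key N e

variable {key : E →+ Γ} {N : E → A}

theorem below_mul_below (hmul : ∀ e f, ∃ c : k, c ≠ 0 ∧ N e * N f = c • N (e + f))
    {e f : E} {u v : A} (hu : u ∈ Below k key N e) (hv : v ∈ Below k key N f) :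
    u * v ∈ Below k key N (e + f) := by
  have h1 : u * v ∈ Below k key N e * Below k key N f := Submodule.mul_mem_mul hu hv
  refine Submodule.mul_le.2 ?_ h1 |> fun h => h
  intro m hm n hn
  unfold Below at hm hn
  induction hm using Submodule.span_induction with
  | zero => simp
  | add x y _ _ hx hy => rw [add_mul]; exact add_mem hx hy
  | smul c x _ hx => rw [smul_mul_assoc]; exact Submodule.smul_mem _ _ hx
  | mem x hx =>
    induction hn using Submodule.span_induction with
    | zero => simp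
    | add x y _ _ hx hy => rw [mul_add]; exact add_mem hx hy
    | smul c x _ hx => rw [mul_smul_comm]; exact Submodule.smul_mem _ _ hx
    | mem y hy =>
      obtain ⟨a, ha, rfl⟩ := hx
      obtain ⟨b, hb, rfl⟩ := hy
      obtain ⟨c, _, hc⟩ := hmul a b
      rw [hc]
      refine Submodule.smul_mem _ _ (Submodule.subset_span ⟨a + b, ?_, rfl⟩)
      simp only [Set.mem_ofPred_eq, map_add] at ha hb ⊢
      exact add_lt_add ha hb

theorem below_mul_mono (hmul : ∀ e f, ∃ c : k, c ≠ 0 ∧ N e * N f = c • N (e + f))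
    {e f : E} {u : A} (hu : u ∈ Below k key N e) :
    u * N f ∈ Below k key N (e + f) := by
  unfold Below at hu
  induction hu using Submodule.span_induction with
  | zero => simp
  | add x y _ _ hx hy => rw [add_mul]; exact add_mem hx hy
  | smul c x _ hx => rw [smul_mul_assoc]; exact Submodule.smul_mem _ _ hx
  | mem x hx =>
    obtain ⟨a, ha, rfl⟩ := hx
    obtain ⟨c, _, hc⟩ := hmul a f
    rw [hc]
    refine Submodule.smul_mem _ _ (Submodule.subset_span ⟨a + f, ?_, rfl⟩)
    simp only [Set.mem_ofPred_eq, map_add] at ha ⊢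
    exact add_lt_add_left ha _

theorem mono_mul_below (hmul : ∀ e f, ∃ c : k, c ≠ 0 ∧ N e * N f = c • N (e + f))
    {e f : E} {u : A} (hu : u ∈ Below k key N f) :
    N e * u ∈ Below k key N (e + f) := by
  unfold Below at hu
  induction hu using Submodule.span_induction with
  | zero => simp
  | add x y _ _ hx hy => rw [mul_add]; exact add_mem hx hy
  | smul c x _ hx => rw [mul_smul_comm]; exact Submodule.smul_mem _ _ hx
  | mem x hx =>
    obtain ⟨a, ha, rfl⟩ := hx
    obtain ⟨c, _, hc⟩ := hmul e a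
    rw [hc]
    refine Submodule.smul_mem _ _ (Submodule.subset_span ⟨e + a, ?_, rfl⟩)
    simp only [Set.mem_ofPred_eq, map_add] at ha ⊢
    exact add_lt_add_right ha _

theorem Lead.mul (hmul : ∀ e f, ∃ c : k, c ≠ 0 ∧ N e * N f = c • N (e + f))
    {u v : A} {e f : E} {n n' : A} (hu : Lead k key N u e n) (hv : Lead k key N v f n') :
    Lead k key N (u * v) (e + f) (n * n') := by
  obtain ⟨⟨c, hc, rfl⟩, hu2⟩ := hu
  obtain ⟨⟨d, hd, rfl⟩, hv2⟩ := hv
  constructor
  · obtain ⟨a, ha, h⟩ := hmul e f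
    refine ⟨c * d * a, mul_ne_zero (mul_ne_zero hc hd) ha, ?_⟩
    rw [smul_mul_smul_comm, h, smul_smul]
  · have : u * v - c • N e * d • N f = (u - c • N e) * (v - d • N f)
        + d • ((u - c • N e) * N f) + c • (N e * (v - d • N f)) := by
      simp only [mul_sub, sub_mul, smul_sub, smul_mul_assoc, mul_smul_comm]
      rw [smul_comm d c]
      abel
    rw [this]
    refine add_mem (add_mem (below_mul_below hmul hu2 hv2) ?_) ?_
    · exact Submodule.smul_mem _ _ (below_mul_mono hmul hu2)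
    · exact Submodule.smul_mem _ _ (mono_mul_below hmul hv2)

theorem Lead.list_prod (hmul : ∀ e f, ∃ c : k, c ≠ 0 ∧ N e * N f = c • N (e + f))
    (h1 : N 0 = 1) {r : ℕ} (v : Fin r → A) (e : Fin r → E) (n : Fin r → A)
    (h : ∀ i, Lead k key N (v i) (e i) (n i)) :
    Lead k key N (List.ofFn v).prod (∑ i, e i) (List.ofFn n).prod := by
  induction r with
  | zero =>
    simp only [List.ofFn_zero, List.prod_nil, univ_eq_empty, sum_empty]
    exact ⟨⟨1, one_ne_zero, by rw [h1, one_smul]⟩, by rw [sub_self]; exact zero_mem _⟩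
  | succ r ih =>
    rw [List.ofFn_succ, List.prod_cons, List.ofFn_succ, List.prod_cons, Fin.sum_univ_succ]
    exact (h 0).mul hmul (ih _ _ _ (fun i => h i.succ))

theorem Lead.list_prod_perm (hmul : ∀ e f, ∃ c : k, c ≠ 0 ∧ N e * N f = c • N (e + f))
    (h1 : N 0 = 1) {r : ℕ} (v : Fin r → A) (e : Fin r → E) (n : Fin r → A)
    (h : ∀ i, Lead k key N (v i) (e i) (n i))
    (hc : ∀ i j, N (e i) * N (e j) = N (e j) * N (e i)) (σ : Equiv.Perm (Fin r)) :
    Lead k key N (List.ofFn (fun i => v (σ i))).prod (∑ i, e i) (List.ofFn n).prod := by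
  have h2 := Lead.list_prod (k := k) (key := key) hmul h1 (fun i => v (σ i)) (fun i => e (σ i))
    (fun i => n (σ i)) (fun i => h (σ i))
  rw [Equiv.sum_comp σ e] at h2
  have h3 : (List.ofFn (fun i => n (σ i))).prod = (List.ofFn n).prod := by
    apply List.Perm.prod_eq' (Equiv.Perm.ofFn_comp_perm σ n)
    rw [List.pairwise_ofFn]
    intro i j _
    obtain ⟨⟨c, _, hc1⟩, _⟩ := h (σ i)
    obtain ⟨⟨d, _, hd1⟩, _⟩ := h (σ j)
    show Commute (n (σ i)) (n (σ j))
    rw [hc1, hd1]
    have := hc (σ i) (σ j)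
    show (c • N (e (σ i))) * (d • N (e (σ j))) = (d • N (e (σ j))) * (c • N (e (σ i)))
    rw [smul_mul_smul_comm, smul_mul_smul_comm, this, mul_comm c d]
  rwa [h3] at h2

omit [IsOrderedCancelAddMonoid Γ] in
theorem Lead.sum {ι : Type*} (s : Finset ι) (u : ι → A) (e : E) (n : A)
    (h : ∀ i ∈ s, Lead k key N (u i) e n) (hs : ((s.card : ℕ) : k) ≠ 0) :
    Lead k key N (∑ i ∈ s, u i) e (((s.card : ℕ) : k) • n) := by
  have hne : s.Nonempty := by
    rw [Finset.nonempty_iff_ne_empty]
    rintro rfl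
    simp at hs
  obtain ⟨i0, hi0⟩ := hne
  obtain ⟨⟨c, hc, hn⟩, _⟩ := h i0 hi0
  refine ⟨⟨(s.card : k) * c, mul_ne_zero hs hc, by rw [hn, smul_smul]⟩, ?_⟩
  have : ∑ i ∈ s, u i - ((s.card : ℕ) : k) • n = ∑ i ∈ s, (u i - n) := by
    rw [Finset.sum_sub_distrib, Finset.sum_const, Nat.cast_smul_eq_nsmul]
  rw [this]
  exact sum_mem (fun i hi => (h i hi).2)

end Lead

end Pool.Agent.Helper47
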