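import Mathlib
import Pool.Agent.Helper47.Lead
import Pool.Agent.Helper47.Count

set_option autoImplicit false

namespace Pool.Agent.Helper47

open Finset MvPolynomial

section Twisted

variable {k F A σ Γ G : Type*} [Field k] [Field F] [Ring A] [Algebra k F] [Algebra F A]
  [Algebra k A] [IsScalarTower k F A]
  [AddCommMonoid Γ] [LinearOrder Γ] [IsOrderedCancelAddMonoid Γ]
  [Algebra (MvPolynomial σ k) F] [IsScalarTower k (MvPolynomial σ k) F]
  [IsFractionRing (MvPolynomial σ k) F]
  [AddCommGroup G]
  {key : (σ →₀ ℕ) →+ Γ} {N : (σ →₀ ℕ) → A} {b : Module.Basis G F A}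
  {q : (σ →₀ ℕ) → (σ →₀ ℕ)} {cl : (σ →₀ ℕ) →+ G}

theorem monomials_linearIndependent (k F : Type*) {σ : Type*} [Field k] [Field F] [Algebra k F]
    [Algebra (MvPolynomial σ k) F] [IsScalarTower k (MvPolynomial σ k) F]
    [IsFractionRing (MvPolynomial σ k) F] :
    LinearIndependent k (fun d : σ →₀ ℕ => algebraMap (MvPolynomial σ k) F (monomial d 1)) := by
  have h := (MvPolynomial.basisMonomials σ k).linearIndependent
  have h2 := h.map' (IsScalarTower.toAlgHom k (MvPolynomial σ k) F).toLinearMap (by
    rw [LinearMap.ker_eq_bot]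
    exact IsFractionRing.injective (MvPolynomial σ k) F)
  have h3 : (fun d : σ →₀ ℕ => algebraMap (MvPolynomial σ k) F (monomial d 1))
      = (IsScalarTower.toAlgHom k (MvPolynomial σ k) F).toLinearMap ∘
        (MvPolynomial.basisMonomials σ k) := by
    funext d
    simp
  rw [h3]
  exact h2

omit [IsOrderedCancelAddMonoid Γ] in
/-- The coordinate of `u` at the class of its leading exponent is nonzero. -/
theorem Lead.coord_ne_zero
    (hN : ∀ e, N e = algebraMap (MvPolynomial σ k) F (monomial (q e) 1) • b (cl e))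
    (hq : Function.Injective (fun e => (q e, cl e)))
    {u : A} {e : σ →₀ ℕ} {n : A} (h : Lead k key N u e n) : b.repr u (cl e) ≠ 0 := by
  classical
  obtain ⟨⟨c, hc, rfl⟩, h2⟩ := h
  intro h0
  have hcoord : ∀ f, b.repr (N f) (cl e) =
      if cl f = cl e then algebraMap (MvPolynomial σ k) F (monomial (q f) 1) else 0 := by
    intro f
    rw [hN f, map_smul, Module.Basis.repr_self, Finsupp.smul_apply, Finsupp.single_apply]
    split_ifs <;> simp
  -- the coordinates of the lower part
  have h3 : b.repr (u - c • N e) (cl e) ∈ Submodule.span k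
      ((fun d : σ →₀ ℕ => algebraMap (MvPolynomial σ k) F (monomial d 1)) '' {d | d ≠ q e}) := by
    unfold Below at h2
    generalize u - c • N e = w at h2
    induction h2 using Submodule.span_induction with
    | zero => simp
    | add x y _ _ hx hy => rw [map_add, Finsupp.add_apply]; exact add_mem hx hy
    | smul a x _ hx =>
      have : b.repr (a • x) (cl e) = a • b.repr x (cl e) := by
        rw [← algebraMap_smul F a x, map_smul, Finsupp.smul_apply, smul_eq_mul, Algebra.smul_def]
      rw [this]
      exact Submodule.smul_mem _ _ hx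
    | mem x hx =>
      obtain ⟨f, hf, rfl⟩ := hx
      rw [hcoord]
      split_ifs with hcl
      · apply Submodule.subset_span
        refine ⟨q f, ?_, rfl⟩
        intro hqf
        have : f = e := hq (Prod.ext hqf hcl)
        subst this
        exact lt_irrefl _ hf
      · exact zero_mem _
  have h4 : b.repr (u - c • N e) (cl e)
      = - (c • algebraMap (MvPolynomial σ k) F (monomial (q e) 1)) := by
    have h5 : b.repr (c • N e) (cl e) = c • algebraMap (MvPolynomial σ k) F (monomial (q e) 1) := by
      rw [← algebraMap_smul F c (N e), map_smul, Finsupp.smul_apply, smul_eq_mul, Algebra.smul_def,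
        hcoord, if_pos rfl]
    rw [map_sub, Finsupp.sub_apply, h0, h5, zero_sub]
  rw [h4] at h3
  have h5 : algebraMap (MvPolynomial σ k) F (monomial (q e) 1) ∈ Submodule.span k
      ((fun d : σ →₀ ℕ => algebraMap (MvPolynomial σ k) F (monomial d 1)) '' {d | d ≠ q e}) := by
    have h6 := Submodule.smul_mem _ (-c⁻¹) h3
    rw [neg_smul, smul_neg, neg_neg, smul_smul, inv_mul_cancel₀ hc, one_smul] at h6
    exact h6
  exact (monomials_linearIndependent k F).notMem_span_image (s := {d | d ≠ q e})
    (x := q e) (by simp) h5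

omit [IsOrderedCancelAddMonoid Γ] in
theorem Lead.ne_zero
    (hN : ∀ e, N e = algebraMap (MvPolynomial σ k) F (monomial (q e) 1) • b (cl e))
    (hq : Function.Injective (fun e => (q e, cl e)))
    {u : A} {e : σ →₀ ℕ} {n : A} (h : Lead k key N u e n) : u ≠ 0 := by
  rintro rfl
  exact h.coord_ne_zero hN hq (by simp)

omit [IsOrderedCancelAddMonoid Γ] in
theorem exists_lead_of_mem_span (hkey : Function.Injective key) {u : A}
    (hu : u ∈ Submodule.span k (Set.range N)) (h0 : u ≠ 0) : ∃ e n, Lead k key N u e n := by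
  classical
  rw [Finsupp.mem_span_range_iff_exists_finsupp] at hu
  obtain ⟨c, hc⟩ := hu
  have hne : c.support.Nonempty := by
    rw [Finset.nonempty_iff_ne_empty]
    intro h
    rw [Finsupp.support_eq_empty] at h
    rw [h] at hc
    simp at hc
    exact h0 hc.symm
  obtain ⟨e, he, hmax⟩ := Finset.exists_max_image c.support key hne
  refine ⟨e, c e • N e, ⟨c e, Finsupp.mem_support_iff.1 he, rfl⟩, ?_⟩
  rw [← hc, Finsupp.sum, ← Finset.sum_erase_add _ _ he, add_sub_cancel_right]
  refine sum_mem (fun f hf => Submodule.smul_mem _ _ (Submodule.subset_span ⟨f, ?_, rfl⟩))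
  rw [Finset.mem_erase] at hf
  exact lt_of_le_of_ne (hmax f hf.2) (fun h => hf.1 (hkey h))

omit [IsOrderedCancelAddMonoid Γ] in
/-- Every nonzero element has a nonzero multiple by a scalar with a leading term. -/
theorem exists_smul_lead (hkey : Function.Injective key) [Finite G]
    (hN : ∀ e, N e = algebraMap (MvPolynomial σ k) F (monomial (q e) 1) • b (cl e))
    (hqs : ∀ d g, ∃ e, q e = d ∧ cl e = g) {v : A} (h0 : v ≠ 0) :
    ∃ r : F, r ≠ 0 ∧ ∃ e n, Lead k key N (r • v) e n := by
  classical
  haveI := Fintype.ofFinite G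
  obtain ⟨s, hs⟩ := IsLocalization.exist_integer_multiples_of_finite
    (nonZeroDivisors (MvPolynomial σ k)) (fun g : G => b.repr v g)
  have hs0 : algebraMap (MvPolynomial σ k) F s ≠ 0 := by
    rw [Ne, IsFractionRing.to_map_eq_zero_iff]
    exact nonZeroDivisors.ne_zero s.2
  refine ⟨algebraMap (MvPolynomial σ k) F s, hs0, ?_⟩
  apply exists_lead_of_mem_span hkey _ (smul_ne_zero hs0 h0)
  rw [← b.sum_repr v, Finset.smul_sum]
  refine sum_mem (fun g _ => ?_)
  obtain ⟨P, hP⟩ := hs g
  rw [Algebra.smul_def] at hP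
  rw [smul_smul, ← hP]
  -- expand the polynomial
  rw [← MvPolynomial.support_sum_monomial_coeff P, map_sum, Finset.sum_smul]
  refine sum_mem (fun d _ => ?_)
  obtain ⟨e, he1, he2⟩ := hqs d g
  have h3 : (algebraMap (MvPolynomial σ k) F) (monomial d (coeff d P)) • b g
      = coeff d P • N e := by
    rw [hN e, he1, he2]
    have h4 : (algebraMap (MvPolynomial σ k) F) (monomial d (coeff d P))
        = algebraMap k F (coeff d P) * (algebraMap (MvPolynomial σ k) F) (monomial d 1) := by
      have h5 : (monomial d (coeff d P) : MvPolynomial σ k)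
          = algebraMap k (MvPolynomial σ k) (coeff d P) * monomial d 1 := by
        rw [MvPolynomial.algebraMap_eq, MvPolynomial.C_mul_monomial, mul_one]
      rw [h5, map_mul, ← IsScalarTower.algebraMap_apply]
    rw [h4, ← algebraMap_smul F (coeff d P) (_ • b g), smul_smul]
  rw [h3]
  exact Submodule.smul_mem _ _ (Submodule.subset_span ⟨e, rfl⟩)

/-- Products of nonzero elements are nonzero. -/
theorem twisted_mul_ne_zero (hkey : Function.Injective key) [Finite G]
    (hmul : ∀ e f, ∃ c : k, c ≠ 0 ∧ N e * N f = c • N (e + f))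
    (hN : ∀ e, N e = algebraMap (MvPolynomial σ k) F (monomial (q e) 1) • b (cl e))
    (hq : Function.Injective (fun e => (q e, cl e)))
    (hqs : ∀ d g, ∃ e, q e = d ∧ cl e = g) {u v : A} (hu : u ≠ 0) (hv : v ≠ 0) :
    u * v ≠ 0 := by
  obtain ⟨r, hr, e, n, h1⟩ := exists_smul_lead (k := k) (key := key) hkey hN hqs hu
  obtain ⟨s, hs, f, n', h2⟩ := exists_smul_lead (k := k) (key := key) hkey hN hqs hv
  have h3 := (h1.mul hmul h2).ne_zero hN hq
  intro h0
  apply h3
  rw [smul_mul_smul_comm, h0, smul_zero]

/-- The upper bound on the dimension of trace-vanishing subspaces. -/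
theorem finrank_mul_le {p r : ℕ} [Fact p.Prime] [Fintype G] [Module (ZMod p) G]
    (hr : 1 ≤ r) (hd : r ∣ p - 1) (hfac : ((r.factorial : ℕ) : k) ≠ 0)
    (hkey : Function.Injective key)
    (hmul : ∀ e f, ∃ c : k, c ≠ 0 ∧ N e * N f = c • N (e + f)) (h1 : N 0 = 1)
    (hcomm : ∀ (g : G) (a c : ZMod p) e f, cl e = a • g → cl f = c • g → N e * N f = N f * N e)
    (hN : ∀ e, N e = algebraMap (MvPolynomial σ k) F (monomial (q e) 1) • b (cl e))
    (hq : Function.Injective (fun e => (q e, cl e)))
    (hqs : ∀ d g, ∃ e, q e = d ∧ cl e = g)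
    (T : A →ₗ[F] F) (hT : ∀ g, g ≠ 0 → T (b g) = 0) (hT0 : T (b 0) ≠ 0)
    (V : Submodule F A) (hV : ∀ v ∈ V, T (v ^ r) = 0) :
    Module.finrank F V * r ≤ Fintype.card G - 1 := by
  classical
  have hTa : ∀ a : A, T a = b.repr a 0 * T (b 0) := by
    intro a
    conv_lhs => rw [← b.sum_repr a]
    rw [map_sum, Finset.sum_eq_single 0]
    · rw [map_smul, smul_eq_mul]
    · intro g _ hg
      rw [map_smul, hT g hg, smul_zero]
    · intro h; exact absurd (mem_univ _) h
  set S : Finset G := univ.filter (fun g => ∃ v ∈ V, ∃ e n, Lead k key N v e n ∧ cl e = g)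
    with hS
  have hc1 : Module.finrank F V ≤ S.card := by
    let φ : V →ₗ[F] (S → F) := LinearMap.pi (fun g => (b.coord g).comp V.subtype)
    have hφ : Function.Injective φ := by
      rw [injective_iff_map_eq_zero]
      intro x hx
      by_contra hx0
      have hx1 : (x : A) ≠ 0 := fun h => hx0 (Subtype.ext h)
      obtain ⟨s, hs, e, n, h2⟩ := exists_smul_lead (k := k) (key := key) hkey hN hqs hx1
      have h3 : cl e ∈ S := by
        rw [hS, mem_filter]
        exact ⟨mem_univ _, s • (x : A), V.smul_mem s x.2, e, n, h2, rfl⟩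
      have h4 := h2.coord_ne_zero hN hq
      apply h4
      rw [map_smul, Finsupp.smul_apply]
      have h5 := congrFun hx ⟨cl e, h3⟩
      have h6 : b.repr (x : A) (cl e) = 0 := h5
      rw [h6, smul_zero]
    have h2 := LinearMap.finrank_le_finrank_of_injective hφ
    rwa [Module.finrank_fintype_fun_eq_card, Fintype.card_coe] at h2
  have hc2 : S.card * r ≤ Fintype.card G - 1 := by
    apply card_mul_le (p := p) hr hd
    intro g c hc hsum
    simp only [hS, mem_filter, mem_univ, true_and] at hc
    choose v hv e n hl hcl using hc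
    have hpol := polar T.toAddMonoidHom r v (fun s => by
      show T _ = 0
      exact hV _ (sum_mem (fun i _ => hv i)))
    have hlead : ∀ τ : Equiv.Perm (Fin r), Lead k key N (List.ofFn (fun i => v (τ i))).prod
        (∑ i, e i) (List.ofFn n).prod := fun τ =>
      Lead.list_prod_perm hmul h1 v e n hl (fun i j => hcomm g _ _ _ _ (hcl i) (hcl j)) τ
    have hlead2 := Lead.sum (univ : Finset (Equiv.Perm (Fin r)))
      (fun τ => (List.ofFn (fun i => v (τ i))).prod) (∑ i, e i) (List.ofFn n).prod
      (fun τ _ => hlead τ) (by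
        rw [Finset.card_univ, Fintype.card_perm, Fintype.card_fin]; exact hfac)
    have h3 := hlead2.coord_ne_zero hN hq
    have h4 : cl (∑ i, e i) = 0 := by
      rw [map_sum]
      simp_rw [hcl]
      rw [← Finset.sum_smul, hsum, zero_smul]
    rw [h4] at h3
    have h5 : T (∑ τ : Equiv.Perm (Fin r), (List.ofFn (fun i => v (τ i))).prod) = 0 := by
      rw [map_sum]; exact hpol
    rw [hTa] at h5
    exact mul_ne_zero h3 hT0 h5
  exact le_trans (Nat.mul_le_mul_right _ hc1) hc2

end Twisted

end Pool.Agent.Helper47
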