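import Mathlib
import Pool.Agent.Helper47.Twisted
import Pool.Agent.Helper47.Large
import Pool.Agent.Helper47.Tensor

set_option autoImplicit false

namespace Pool.Agent.Helper47

open Finset
open scoped TensorProduct

universe u

/-- The generic tensor product over an arbitrary model `F` of the rational function field. -/
abbrev GTensor (k F : Type u) [Field k] [Field F] (p m : ℕ) [Algebra k F]
    [Algebra (MvPolynomial (Fin m × Fin 2) k) F] (ω : k) : Type u :=
  ITensor F p m (algebraMap k F ω)
    (fun i => algebraMap (MvPolynomial (Fin m × Fin 2) k) F (MvPolynomial.X (i, 0)))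
    (fun i => algebraMap (MvPolynomial (Fin m × Fin 2) k) F (MvPolynomial.X (i, 1)))

namespace Generic

theorem omega_pow (k F : Type u) [Field k] [Field F] [Algebra k F] (p : ℕ) (ω : k)
    (hω : ω ^ p = 1) : (algebraMap k F ω) ^ p = 1 := by
  rw [← map_pow, hω, map_one]

variable (k F : Type u) [Field k] [Field F] (p m : ℕ) [Algebra k F]
  [Algebra (MvPolynomial (Fin m × Fin 2) k) F] (ω : k)

/-- The monomial order used for leading terms. -/
noncomputable def key : ((Fin m × Fin 2) →₀ ℕ) →+ Lex ((Fin m ×ₗ Fin 2) →₀ ℕ) :=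
  (toLexAddEquiv _).toAddMonoidHom.comp
    (Finsupp.domCongr (toLex : Fin m × Fin 2 ≃ Fin m ×ₗ Fin 2)).toAddMonoidHom

theorem key_injective : Function.Injective (key m) := by
  intro a b h
  have h1 : toLexAddEquiv _ (Finsupp.domCongr (toLex : Fin m × Fin 2 ≃ Fin m ×ₗ Fin 2) a)
      = toLexAddEquiv _ (Finsupp.domCongr (toLex : Fin m × Fin 2 ≃ Fin m ×ₗ Fin 2) b) := h
  exact (Finsupp.domCongr (toLex : Fin m × Fin 2 ≃ Fin m ×ₗ Fin 2)).injective
    ((toLexAddEquiv _).injective h1)

/-- The indeterminates `α`. -/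
noncomputable def al (i : Fin m) : F :=
  algebraMap (MvPolynomial (Fin m × Fin 2) k) F (MvPolynomial.X (i, 0))

/-- The indeterminates `β`. -/
noncomputable def be (i : Fin m) : F :=
  algebraMap (MvPolynomial (Fin m × Fin 2) k) F (MvPolynomial.X (i, 1))

/-- The monomials of the generic algebra. -/
noncomputable def gN (e : (Fin m × Fin 2) →₀ ℕ) : GTensor k F p m ω :=
  ITensor.N p (algebraMap k F ω) (al k F m) (be k F m) e

variable [NeZero p]

/-- The basis of the generic algebra. -/
noncomputable def gB (hω : ω ^ p = 1) :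
    Module.Basis (Fin m → ZMod p × ZMod p) F (GTensor k F p m ω) :=
  ITensor.B p (algebraMap k F ω) (al k F m) (be k F m) (omega_pow k F p ω hω)

theorem gN_eq (hω : ω ^ p = 1) (e : (Fin m × Fin 2) →₀ ℕ) :
    gN k F p m ω e = algebraMap (MvPolynomial (Fin m × Fin 2) k) F
      (MvPolynomial.monomial (RawTensor.qq p e) 1) • gB k F p m ω hω (RawTensor.cl p e) := by
  unfold gN gB
  rw [ITensor.N_eq p _ _ _ (omega_pow k F p ω hω)]
  congr 1
  rw [MvPolynomial.monomial_eq, map_one, one_mul, Finsupp.prod_fintype _ _ (fun _ => pow_zero _),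
    Fintype.prod_prod_type, map_prod]
  apply Finset.prod_congr rfl
  intro i _
  rw [Fin.prod_univ_two, map_mul, map_pow, map_pow]
  rfl

theorem gN_zero : gN k F p m ω 0 = 1 := ITensor.N_zero _ _ _ _

theorem gB_zero (hω : ω ^ p = 1) : gB k F p m ω hω 0 = 1 := ITensor.B_zero _ _ _ _ _

theorem omega_ne_zero (hω : ω ^ p = 1) : ω ≠ 0 := by
  rintro rfl
  rw [zero_pow (NeZero.ne p)] at hω
  exact zero_ne_one hω

/-- The action of the constants. -/
@[reducible] noncomputable def algK : Algebra k (GTensor k F p m ω) :=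
  Algebra.compHom _ (algebraMap k F)

theorem tower : letI := algK k F p m ω
    IsScalarTower k F (GTensor k F p m ω) := by
  letI := algK k F p m ω
  exact IsScalarTower.of_algebraMap_eq (fun _ => rfl)

theorem gN_mul (hω : ω ^ p = 1) : letI := algK k F p m ω
    ∀ e f, ∃ c : k, c ≠ 0 ∧ gN k F p m ω e * gN k F p m ω f = c • gN k F p m ω (e + f) := by
  letI := algK k F p m ω
  haveI := tower k F p m ω
  intro e f
  refine ⟨ω ^ RawTensor.cc e f, pow_ne_zero _ (omega_ne_zero k p ω hω), ?_⟩
  rw [← algebraMap_smul F (ω ^ RawTensor.cc e f) (gN k F p m ω (e + f)), map_pow]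
  exact ITensor.N_mul _ _ _ _ _ _

variable [IsScalarTower k (MvPolynomial (Fin m × Fin 2) k) F]
  [IsFractionRing (MvPolynomial (Fin m × Fin 2) k) F]

theorem mul_ne_zero' (hω : ω ^ p = 1) {u v : GTensor k F p m ω} (hu : u ≠ 0)
    (hv : v ≠ 0) : u * v ≠ 0 := by
  letI := algK k F p m ω
  haveI := tower k F p m ω
  exact twisted_mul_ne_zero (k := k) (F := F) (key := key m)
    (N := gN k F p m ω) (b := gB k F p m ω hω)
    (q := RawTensor.qq p) (cl := RawTensor.cl p) (key_injective m)
    (gN_mul k F p m ω hω) (gN_eq k F p m ω hω) (RawTensor.qq_cl_injective p)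
    (RawTensor.qq_cl_surjective p) hu hv

theorem one_ne_zero' (hω : ω ^ p = 1) : (1 : GTensor k F p m ω) ≠ 0 := by
  rw [← gB_zero k F p m ω hω]
  exact (gB k F p m ω hω).ne_zero 0

theorem isDomain (hω : ω ^ p = 1) : IsDomain (GTensor k F p m ω) := by
  haveI : Nontrivial (GTensor k F p m ω) := ⟨1, 0, one_ne_zero' k F p m ω hω⟩
  haveI : NoZeroDivisors (GTensor k F p m ω) := ⟨fun {a b} hab => by
    by_contra hcon
    push Not at hcon
    exact mul_ne_zero' k F p m ω hω hcon.1 hcon.2 hab⟩
  exact NoZeroDivisors.to_isDomain _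

theorem isUnit' (hω : ω ^ p = 1) {a : GTensor k F p m ω} (ha : a ≠ 0) : IsUnit a := by
  haveI := isDomain k F p m ω hω
  haveI : FiniteDimensional F (GTensor k F p m ω) :=
    Module.Finite.of_basis (gB k F p m ω hω)
  exact FiniteDimensional.isUnit F ha

theorem gB_isUnit (hω : ω ^ p = 1) (g : Fin m → ZMod p × ZMod p) :
    IsUnit (gB k F p m ω hω g) := isUnit' k F p m ω hω ((gB k F p m ω hω).ne_zero g)

theorem finrank_eq (hω : ω ^ p = 1) :
    Module.finrank F (GTensor k F p m ω) = p ^ (2 * m) := by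
  rw [Module.finrank_eq_card_basis (gB k F p m ω hω), Fintype.card_fun, Fintype.card_prod,
    ZMod.card, Fintype.card_fin, pow_mul, pow_two]

/-- The commutation character. -/
noncomputable def gchi (h g : Fin m → ZMod p × ZMod p) : F :=
  RawTensor.chi p (algebraMap k F ω) h g

theorem gB_mul_comm (hω : ω ^ p = 1) (h g : Fin m → ZMod p × ZMod p) :
    gB k F p m ω hω h * gB k F p m ω hω g
      = gchi k F p m ω h g • (gB k F p m ω hω g * gB k F p m ω hω h) :=
  ITensor.B_mul_comm _ _ _ _ _ _ _

theorem gchi_separates (hω : IsPrimitiveRoot ω p) (hp : 2 ≤ p)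
    (g g' : Fin m → ZMod p × ZMod p) (hne : g ≠ g') :
    ∃ h, gchi k F p m ω h g ≠ gchi k F p m ω h g' :=
  RawTensor.chi_separates p _ (hω.map_of_injective
    (algebraMap k F).injective) hp g g' hne

theorem isCentral (hω : IsPrimitiveRoot ω p) (hp : 2 ≤ p) :
    Algebra.IsCentral F (GTensor k F p m ω) :=
  center_of_basis (gB k F p m ω hω.pow_eq_one) (gB_zero k F p m ω _) (gB_isUnit k F p m ω _)
    (gchi k F p m ω) (gB_mul_comm k F p m ω _) (gchi_separates k F p m ω hω hp)

/-- The coordinate at the identity, times the degree. -/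
noncomputable def rtr (hω : ω ^ p = 1) :
    GTensor k F p m ω →ₗ[F] F :=
  ((p ^ m : ℕ) : F) • (gB k F p m ω hω).coord 0

theorem rtr_of_splitting (hω : IsPrimitiveRoot ω p) (hp : 2 ≤ p)
    (K : Type u) [Field K] [Algebra F K] (n : ℕ)
    (φ : (K ⊗[F] GTensor k F p m ω) ≃ₐ[K] Matrix (Fin n) (Fin n) K)
    (a : GTensor k F p m ω) :
    algebraMap F K (rtr k F p m ω hω.pow_eq_one a)
      = Matrix.trace (φ ((1 : K) ⊗ₜ[F] a)) := by
  classical
  have hω1 := hω.pow_eq_one
  let b := gB k F p m ω hω1
  let bK := Algebra.TensorProduct.basis K b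
  have hbK : ∀ g, bK g = (1 : K) ⊗ₜ[F] b g := by
    intro g
    exact Algebra.TensorProduct.basis_apply b g
  -- the size of the matrices
  have hn : n = p ^ m := by
    have h1 := LinearEquiv.finrank_eq φ.toLinearEquiv
    rw [Module.finrank_eq_card_basis bK, Module.finrank_matrix, Fintype.card_fun,
      Fintype.card_prod, ZMod.card, Fintype.card_fin, Fintype.card_fin, Module.finrank_self,
      mul_one] at h1
    have h2 : (p ^ m) ^ 2 = n ^ 2 := by
      rw [pow_two n, ← h1, pow_two, ← mul_pow]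
    exact (Nat.pow_left_injective (n := 2) (by norm_num) h2).symm
  -- both sides are linear over the base field
  let R : (K ⊗[F] GTensor k F p m ω) →ₗ[K] K :=
    (Matrix.traceLinearMap (Fin n) K K).comp φ.toLinearMap
  have hR : ∀ x, R x = Matrix.trace (φ x) := fun _ => rfl
  have hRcyc : ∀ x y, R (x * y) = R (y * x) := by
    intro x y
    rw [hR, hR, map_mul, map_mul, Matrix.trace_mul_comm]
  have hzero : ∀ g, g ≠ 0 → R (bK g) = 0 := by
    intro g hg
    refine trace_eq_zero_of_basis bK ?_ ?_ (fun h g => algebraMap F K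
      (gchi k F p m ω h g)) ?_ ?_ R hRcyc g hg
    · rw [hbK, gB_zero]
      rfl
    · intro g
      rw [hbK]
      exact (gB_isUnit k F p m ω hω1 g).map (Algebra.TensorProduct.includeRight :
        GTensor k F p m ω →ₐ[F]
          K ⊗[F] GTensor k F p m ω)
    · intro h g
      rw [hbK, hbK, Algebra.TensorProduct.tmul_mul_tmul, Algebra.TensorProduct.tmul_mul_tmul,
        gB_mul_comm, mul_one, TensorProduct.tmul_smul, algebraMap_smul]
    · intro g g' hne
      obtain ⟨h, hh⟩ := gchi_separates k F p m ω hω hp g g' hne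
      exact ⟨h, fun heq => hh ((algebraMap F K).injective heq)⟩
  have h0 : R (bK 0) = ((p ^ m : ℕ) : K) := by
    rw [hR, hbK, gB_zero]
    have : ((1 : K) ⊗ₜ[F] (1 : GTensor k F p m ω)) = 1 := rfl
    rw [this, map_one, Matrix.trace_one, Fintype.card_fin, hn]
  rw [← hR]
  conv_rhs => rw [← b.sum_repr a]
  rw [TensorProduct.tmul_sum, map_sum, Finset.sum_eq_single 0]
  · rw [TensorProduct.tmul_smul, ← algebraMap_smul K (b.repr a 0), map_smul, ← hbK, h0, rtr,
      LinearMap.smul_apply, Module.Basis.coord_apply, smul_eq_mul, smul_eq_mul, map_mul,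
      map_natCast, mul_comm]
  · intro g _ hg
    rw [TensorProduct.tmul_smul, ← algebraMap_smul K (b.repr a g), map_smul, ← hbK, hzero g hg,
      smul_zero]
  · intro h; exact absurd (Finset.mem_univ _) h

theorem isReducedTrace_iff (hω : IsPrimitiveRoot ω p) (hp : 2 ≤ p)
    (T : GTensor k F p m ω →ₗ[F] F) :
    IsReducedTrace T ↔ T = rtr k F p m ω hω.pow_eq_one := by
  have hω1 := hω.pow_eq_one
  constructor
  · rintro ⟨K, _, _, n, φ, hφ⟩
    ext a
    apply (algebraMap F K).injective
    rw [hφ a, rtr_of_splitting k F p m ω hω hp K n φ a]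
  · rintro rfl
    let K := AlgebraicClosure F
    let b := gB k F p m ω hω1
    let bK := Algebra.TensorProduct.basis K b
    have hbK : ∀ g, bK g = (1 : K) ⊗ₜ[F] b g := by
      intro g
      exact Algebra.TensorProduct.basis_apply b g
    haveI : Nontrivial (K ⊗[F] GTensor k F p m ω) :=
      ⟨bK 0, 0, bK.ne_zero 0⟩
    haveI : IsSimpleRing (K ⊗[F] GTensor k F p m ω) := by
      refine isSimpleRing_of_basis bK ?_ (fun h g => algebraMap F K
        (gchi k F p m ω h g)) ?_ ?_
      · intro g
        rw [hbK]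
        exact (gB_isUnit k F p m ω hω1 g).map (Algebra.TensorProduct.includeRight :
          GTensor k F p m ω →ₐ[F]
            K ⊗[F] GTensor k F p m ω)
      · intro h g
        rw [hbK, hbK, Algebra.TensorProduct.tmul_mul_tmul, Algebra.TensorProduct.tmul_mul_tmul,
          gB_mul_comm, mul_one, TensorProduct.tmul_smul, algebraMap_smul]
      · intro g g' hne
        obtain ⟨h, hh⟩ := gchi_separates k F p m ω hω hp g g' hne
        exact ⟨h, fun heq => hh ((algebraMap F K).injective heq)⟩
    haveI : FiniteDimensional K (K ⊗[F] GTensor k F p m ω) :=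
      Module.Finite.of_basis bK
    obtain ⟨n, _, ⟨φ⟩⟩ := IsSimpleRing.exists_algEquiv_matrix_of_isAlgClosed K
      (K ⊗[F] GTensor k F p m ω)
    exact ⟨K, inferInstance, inferInstance, n, φ,
      fun a => rtr_of_splitting k F p m ω hω hp K n φ a⟩

theorem rtr_basis (hω : ω ^ p = 1) (g : Fin m → ZMod p × ZMod p) (hg : g ≠ 0) :
    rtr k F p m ω hω (gB k F p m ω hω g) = 0 := by
  rw [rtr, LinearMap.smul_apply, Module.Basis.coord_apply, Module.Basis.repr_self,
    Finsupp.single_apply, if_neg hg, smul_zero]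

theorem rtr_basis_zero (hω : IsPrimitiveRoot ω p) :
    rtr k F p m ω hω.pow_eq_one (gB k F p m ω hω.pow_eq_one 0) ≠ 0 := by
  rw [rtr, LinearMap.smul_apply, Module.Basis.coord_apply, Module.Basis.repr_self,
    Finsupp.single_apply, if_pos rfl, smul_eq_mul, mul_one]
  haveI := hω.neZero'
  have h1 : ((p : ℕ) : k) ≠ 0 := NeZero.ne _
  rw [Nat.cast_pow]
  apply pow_ne_zero
  rw [← map_natCast (algebraMap k F)]
  exact fun h => h1 ((map_eq_zero (algebraMap k F)).1 h)

end Generic

/-- The bound holds when `r ∣ p - 1`. -/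
theorem generic_bound (k F : Type u) [Field k] [Field F] [Algebra k F] {p m r : ℕ}
    [Algebra (MvPolynomial (Fin m × Fin 2) k) F]
    [IsScalarTower k (MvPolynomial (Fin m × Fin 2) k) F]
    [IsFractionRing (MvPolynomial (Fin m × Fin 2) k) F] (hp : p.Prime) {ω : k}
    (hω : IsPrimitiveRoot ω p) (hk : ringChar k = 0 ∨ p ≤ ringChar k) (hr : 2 ≤ r)
    (hrp : r ≤ p - 1) (hd : r ∣ p - 1)
    (T : GTensor k F p m ω →ₗ[F] F)
    (hT : IsReducedTrace T)
    (V : Submodule F (GTensor k F p m ω))
    (hV : ∀ v ∈ V, T (v ^ r) = 0) :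
    Module.finrank F V ≤ (p ^ (2 * m) - 1) / r := by
  haveI : Fact p.Prime := ⟨hp⟩
  haveI : NeZero p := ⟨hp.ne_zero⟩
  have hp2 := hp.two_le
  have hω1 := hω.pow_eq_one
  rw [Generic.isReducedTrace_iff k F p m ω hω hp2] at hT
  subst hT
  letI := Generic.algK k F p m ω
  haveI := Generic.tower k F p m ω
  have hfac : ((r.factorial : ℕ) : k) ≠ 0 := by
    intro h
    rw [ringChar.spec] at h
    rcases hk with h0 | h0
    · rw [h0, zero_dvd_iff] at h
      exact Nat.factorial_ne_zero r h
    · have hprime : (ringChar k).Prime := by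
        rcases CharP.char_is_prime_or_zero k (ringChar k) with h1 | h1
        · exact h1
        · rw [h1] at h0; omega
      rw [hprime.dvd_factorial] at h
      omega
  rw [Nat.le_div_iff_mul_le (by omega)]
  have h1 := finrank_mul_le (k := k) (F := F) (key := Generic.key m)
    (N := Generic.gN k F p m ω) (b := Generic.gB k F p m ω hω1)
    (q := RawTensor.qq p) (cl := RawTensor.cl p) (p := p) (r := r) (by omega) hd hfac
    (Generic.key_injective m) (Generic.gN_mul k F p m ω hω1) (Generic.gN_zero k F p m ω)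
    (fun g a c e f he hf => ITensor.N_comm p _ _ _ (Generic.omega_pow k F p ω hω1)
      g a c e f he hf)
    (Generic.gN_eq k F p m ω hω1) (RawTensor.qq_cl_injective p)
    (RawTensor.qq_cl_surjective p) (Generic.rtr k F p m ω hω1)
    (Generic.rtr_basis k F p m ω hω1) (Generic.rtr_basis_zero k F p m ω hω) V hV
  rw [Fintype.card_fun, Fintype.card_prod, ZMod.card, Fintype.card_fin, ← pow_two, ← pow_mul] at h1
  exact h1

/-- The bound fails when `r` does not divide `p - 1`. -/
theorem generic_large (k F : Type u) [Field k] [Field F] [Algebra k F] {p m r : ℕ}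
    [Algebra (MvPolynomial (Fin m × Fin 2) k) F]
    [IsScalarTower k (MvPolynomial (Fin m × Fin 2) k) F]
    [IsFractionRing (MvPolynomial (Fin m × Fin 2) k) F] (hp : p.Prime) (hm : 1 ≤ m) {ω : k}
    (hω : IsPrimitiveRoot ω p) (hr : 2 ≤ r) (hrp : r ≤ p - 1) (hd : ¬ r ∣ p - 1)
    (T : GTensor k F p m ω →ₗ[F] F)
    (hT : IsReducedTrace T) :
    ∃ V : Submodule F (GTensor k F p m ω),
      (∀ v ∈ V, T (v ^ r) = 0) ∧
      (p ^ (2 * m) - 1) / r < Module.finrank F V := by
  haveI : Fact p.Prime := ⟨hp⟩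
  haveI : NeZero p := ⟨hp.ne_zero⟩
  have hp2 := hp.two_le
  have hω1 := hω.pow_eq_one
  rw [Generic.isReducedTrace_iff k F p m ω hω hp2] at hT
  subst hT
  let π : (Fin m → ZMod p × ZMod p) →+ ZMod p :=
    (AddMonoidHom.fst _ _).comp (Pi.evalAddMonoidHom _ ⟨0, hm⟩)
  have hπ : Function.Surjective π := by
    intro t
    exact ⟨fun _ => (t, 0), rfl⟩
  obtain ⟨V, hV, hdim⟩ := exists_large π hπ (Generic.gB k F p m ω hω1)
    (ITensor.B_mul p _ _ _ (Generic.omega_pow k F p ω hω1)) (Generic.gB_zero k F p m ω hω1)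
    (Generic.rtr k F p m ω hω1) (Generic.rtr_basis k F p m ω hω1) hr hrp hd
  refine ⟨V, hV, ?_⟩
  rw [Fintype.card_fun, Fintype.card_prod, ZMod.card, Fintype.card_fin, ← pow_two,
    ← pow_mul] at hdim
  exact (Nat.div_lt_iff_lt_mul (by omega)).2 hdim

/-! ### Transfer to the concrete rational function field -/

section Concrete

variable (k : Type u) [Field k] (m : ℕ)

instance GenericField.isFractionRing :
    IsFractionRing (MvPolynomial (Fin m × Fin 2) k) (GenericField k m) :=
  inferInstanceAs (IsFractionRing (MvPolynomial (Fin m × Fin 2) k)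
    (FractionRing (MvPolynomial (Fin m × Fin 2) k)))

instance GenericField.tower :
    IsScalarTower k (MvPolynomial (Fin m × Fin 2) k) (GenericField k m) :=
  IsScalarTower.of_algebraMap_eq (fun _ => rfl)

end Concrete

/-- The reduced trace of the generic algebra exists and is unique. -/
theorem existsUnique_reducedTrace (k : Type u) [Field k] {p : ℕ} (m : ℕ) (hp : p.Prime) {ω : k}
    (hω : IsPrimitiveRoot ω p) :
    ∃! T : GenericSymbolTensor k p m ω →ₗ[GenericField k m] GenericField k m,
      IsReducedTrace T := by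
  haveI : NeZero p := ⟨hp.ne_zero⟩
  refine ⟨Generic.rtr k (GenericField k m) p m ω hω.pow_eq_one, ?_, ?_⟩
  · exact (Generic.isReducedTrace_iff k (GenericField k m) p m ω hω hp.two_le _).2 rfl
  · intro T hT
    exact (Generic.isReducedTrace_iff k (GenericField k m) p m ω hω hp.two_le T).1 hT

/-- The bound holds for the generic algebra exactly when `r ∣ p - 1`. -/
theorem generic_bound_iff (k : Type u) [Field k] {p m r : ℕ} (hp : p.Prime) (hm : 1 ≤ m) {ω : k}
    (hω : IsPrimitiveRoot ω p) (hk : ringChar k = 0 ∨ p ≤ ringChar k) (hr : 2 ≤ r)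
    (hrp : r ≤ p - 1)
    (T : GenericSymbolTensor k p m ω →ₗ[GenericField k m] GenericField k m)
    (hT : IsReducedTrace T) :
    (∀ V : Submodule (GenericField k m) (GenericSymbolTensor k p m ω),
      IsTraceVanishing r T V →
        Module.finrank (GenericField k m) V ≤ (p ^ (2 * m) - 1) / r) ↔ r ∣ p - 1 := by
  haveI : NeZero p := ⟨hp.ne_zero⟩
  constructor
  · intro h
    by_contra hd
    obtain ⟨V, hV, hdim⟩ := generic_large k (GenericField k m) hp hm hω hr hrp hd T hT
    exact absurd (h V hV) (not_le.2 hdim)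
  · intro hd V hV
    exact generic_bound k (GenericField k m) hp hω hk hr hrp hd T hT V hV

end Pool.Agent.Helper47
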