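import Pool.Agent.Helper47.RevDefs

open scoped ContDiff Topology
open Filter Set

namespace RevLine

/-- shorthand for the group of diffeomorphisms -/
abbrev D := ↥DiffeoPlus

instance : CoeFun D (fun _ => ℝ → ℝ) := ⟨fun f => ((f : Equiv.Perm ℝ) : ℝ → ℝ)⟩

theorem mul_app (f g : D) (x : ℝ) : (f * g) x = f (g x) := rfl

theorem one_app (x : ℝ) : (1 : D) x = x := rfl

@[simp] theorem inv_app_self (f : D) (x : ℝ) : f⁻¹ (f x) = x :=
  (f : Equiv.Perm ℝ).symm_apply_apply x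

@[simp] theorem app_inv_self (f : D) (x : ℝ) : f (f⁻¹ x) = x :=
  (f : Equiv.Perm ℝ).apply_symm_apply x

theorem smooth (f : D) : ContDiff ℝ ∞ (f : ℝ → ℝ) := f.2.1

theorem smono (f : D) : StrictMono (f : ℝ → ℝ) := f.2.2.2

theorem cont (f : D) : Continuous (f : ℝ → ℝ) := (smooth f).continuous

theorem lt_iff (f : D) {x y : ℝ} : f x < f y ↔ x < y := (smono f).lt_iff_lt

theorem le_iff (f : D) {x y : ℝ} : f x ≤ f y ↔ x ≤ y := (smono f).le_iff_le

theorem ext_app {f g : D} (h : ∀ x, f x = g x) : f = g :=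
  Subtype.ext (Equiv.ext h)

theorem inj (f : D) {x y : ℝ} : f x = f y ↔ x = y := (smono f).injective.eq_iff

theorem diffble (f : D) : Differentiable ℝ (f : ℝ → ℝ) :=
  (smooth f).differentiable (by simp)

theorem deriv_pos (f : D) (x : ℝ) : 0 < deriv (f : ℝ → ℝ) x := by
  have h0 : 0 ≤ deriv (f : ℝ → ℝ) x := (smono f).monotone.deriv_nonneg
  have h1 : deriv (f : ℝ → ℝ) x ≠ 0 := by
    intro h
    have h2 : HasDerivAt (f : ℝ → ℝ) 0 x := by
      rw [← h]; exact (diffble f x).hasDerivAt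
    have h3 : HasDerivAt (f⁻¹ : D) (deriv (f⁻¹ : D) (f x)) (f x) :=
      (diffble f⁻¹ (f x)).hasDerivAt
    have h4 := h3.comp x h2
    have h5 : ((f⁻¹ : D) : ℝ → ℝ) ∘ (f : ℝ → ℝ) = id := by
      funext y; exact inv_app_self f y
    rw [h5] at h4
    have h6 := h4.unique (hasDerivAt_id x)
    simp at h6
  exact lt_of_le_of_ne h0 (Ne.symm h1)

theorem tendsto_top (f : D) : Tendsto (f : ℝ → ℝ) atTop atTop :=
  (smono f).monotone.tendsto_atTop_atTop fun b => ⟨f⁻¹ b, (app_inv_self f b).ge⟩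

theorem tendsto_bot (f : D) : Tendsto (f : ℝ → ℝ) atBot atBot :=
  (smono f).monotone.tendsto_atBot_atBot fun b => ⟨f⁻¹ b, (app_inv_self f b).le⟩

theorem exists_mk (g : ℝ → ℝ) (hs : ContDiff ℝ ∞ g) (hd : ∀ x, 0 < deriv g x)
    (ht : Tendsto g atTop atTop) (hb : Tendsto g atBot atBot) : ∃ G : D, ∀ x, G x = g x := by
  have hm : StrictMono g := strictMono_of_deriv_pos hd
  have hsurj : Function.Surjective g := hs.continuous.surjective ht hb
  let e : ℝ ≃o ℝ := StrictMono.orderIsoOfSurjective g hm hsurj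
  have he : ∀ x, e x = g x := fun x => rfl
  let H : ℝ ≃ₜ ℝ := e.toHomeomorph
  have hH : (H : ℝ → ℝ) = g := by funext x; exact he x
  have hinv : ContDiff ℝ ∞ (H.symm : ℝ → ℝ) := by
    refine H.contDiff_symm_deriv (f' := deriv g) (fun x => (hd x).ne') ?_ ?_
    · intro x; rw [hH]; exact ((hs.differentiable (by simp)) x).hasDerivAt
    · rw [hH]; exact hs
  exact ⟨⟨H.toEquiv, hs, hinv, hm⟩, fun x => rfl⟩

theorem exists_of_local (g : ℝ → ℝ) (hloc : ∀ x, ∃ G : D, g =ᶠ[𝓝 x] G)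
    (ht : Tendsto g atTop atTop) (hb : Tendsto g atBot atBot) : ∃ G : D, ∀ x, G x = g x := by
  refine exists_mk g ?_ ?_ ht hb
  · rw [contDiff_iff_contDiffAt]
    intro x
    obtain ⟨G, hG⟩ := hloc x
    exact (smooth G).contDiffAt.congr_of_eventuallyEq hG
  · intro x
    obtain ⟨G, hG⟩ := hloc x
    rw [hG.deriv_eq]
    exact deriv_pos G x

/-- Gluing two diffeomorphisms which agree near a point. -/
theorem glue (G₁ G₂ : D) (t : ℝ) (h : ∀ᶠ x in 𝓝 t, G₁ x = G₂ x) :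
    ∃ G : D, (∀ x ≤ t, G x = G₁ x) ∧ (∀ x, t ≤ x → G x = G₂ x) := by
  classical
  have h0 : G₁ t = G₂ t := h.self_of_nhds
  obtain ⟨G, hG⟩ := exists_of_local (fun x => if x ≤ t then G₁ x else G₂ x) (by
    intro x
    rcases lt_trichotomy x t with hx | hx | hx
    · refine ⟨G₁, ?_⟩
      filter_upwards [Iio_mem_nhds hx] with y hy
      rw [if_pos (le_of_lt hy)]
    · subst hx
      refine ⟨G₁, ?_⟩
      filter_upwards [h] with y hy
      split_ifs
      · rfl
      · exact hy.symm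
    · refine ⟨G₂, ?_⟩
      filter_upwards [Ioi_mem_nhds hx] with y hy
      rw [if_neg (not_le.2 hy)]) (by
    refine (tendsto_top G₂).congr' ?_
    filter_upwards [eventually_gt_atTop t] with y hy
    rw [if_neg (not_le.2 hy)]) (by
    refine (tendsto_bot G₁).congr' ?_
    filter_upwards [eventually_lt_atBot t] with y hy
    rw [if_pos (le_of_lt hy)])
  refine ⟨G, fun x hx => ?_, fun x hx => ?_⟩
  · rw [hG, if_pos hx]
  · rcases eq_or_lt_of_le hx with h1 | h1
    · subst h1; rw [hG, if_pos le_rfl, h0]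
    · rw [hG, if_neg (not_le.2 h1)]

/-- Convex combination of two diffeomorphisms. -/
theorem convex (G₁ G₂ : D) (x₁ x₂ : ℝ) (hx : x₁ < x₂)
    (h : ∀ x, x₁ ≤ x → x ≤ x₂ → G₁ x ≤ G₂ x) :
    ∃ G : D, (∀ x ≤ x₁, G x = G₁ x) ∧ (∀ x, x₂ ≤ x → G x = G₂ x) := by
  set c : ℝ → ℝ := fun x => Real.smoothTransition ((x - x₁) / (x₂ - x₁)) with hc
  have hpos : 0 < x₂ - x₁ := sub_pos.2 hx
  have hcs : ContDiff ℝ ∞ c := by
    have : ContDiff ℝ ∞ Real.smoothTransition := Real.smoothTransition.contDiff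
    exact this.comp ((contDiff_id.sub contDiff_const).div_const _)
  have hc0 : ∀ x ≤ x₁, c x = 0 := fun x hx' =>
    Real.smoothTransition.zero_of_nonpos (div_nonpos_of_nonpos_of_nonneg (by linarith) hpos.le)
  have hc1 : ∀ x, x₂ ≤ x → c x = 1 := fun x hx' =>
    Real.smoothTransition.one_of_one_le ((one_le_div hpos).2 (by linarith))
  have hcm : Monotone c := by
    intro x y hxy
    apply Real.smoothTransition.monotone
    exact div_le_div_of_nonneg_right (by linarith) hpos.le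
  have hcle : ∀ x, c x ≤ 1 := fun x => Real.smoothTransition.le_one _
  have hcnn : ∀ x, 0 ≤ c x := fun x => Real.smoothTransition.nonneg _
  set g : ℝ → ℝ := fun x => G₁ x + c x * (G₂ x - G₁ x) with hg
  have hgs : ContDiff ℝ ∞ g := (smooth G₁).add (hcs.mul ((smooth G₂).sub (smooth G₁)))
  obtain ⟨G, hG⟩ := exists_mk g hgs (by
    intro x
    have d1 : HasDerivAt (G₁ : ℝ → ℝ) (deriv (G₁ : ℝ → ℝ) x) x := (diffble G₁ x).hasDerivAt
    have d2 : HasDerivAt (G₂ : ℝ → ℝ) (deriv (G₂ : ℝ → ℝ) x) x := (diffble G₂ x).hasDerivAt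
    have dc : HasDerivAt c (deriv c x) x := ((hcs.differentiable (by simp)) x).hasDerivAt
    have dg : HasDerivAt g (deriv (G₁ : ℝ → ℝ) x + (deriv c x * (G₂ x - G₁ x) +
        c x * (deriv (G₂ : ℝ → ℝ) x - deriv (G₁ : ℝ → ℝ) x))) x :=
      d1.add (dc.mul (d2.sub d1))
    rw [dg.deriv]
    have p1 := deriv_pos G₁ x
    have p2 := deriv_pos G₂ x
    have q : 0 ≤ deriv c x * (G₂ x - G₁ x) := by
      rcases lt_or_ge x x₁ with hx1 | hx1
      · have : c =ᶠ[𝓝 x] fun _ => (0 : ℝ) := by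
          filter_upwards [Iio_mem_nhds hx1] with y hy
          exact hc0 y (le_of_lt hy)
        rw [this.deriv_eq]; simp
      · rcases lt_or_ge x₂ x with hx2 | hx2
        · have : c =ᶠ[𝓝 x] fun _ => (1 : ℝ) := by
            filter_upwards [Ioi_mem_nhds hx2] with y hy
            exact hc1 y (le_of_lt hy)
          rw [this.deriv_eq]; simp
        · exact mul_nonneg hcm.deriv_nonneg (sub_nonneg.2 (h x hx1 hx2))
    have h1 := hcle x
    have h0 := hcnn x
    rcases eq_or_lt_of_le h0 with h0' | h0'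
    · rw [← h0']; nlinarith
    · nlinarith [mul_pos h0' p2, mul_nonneg (sub_nonneg.2 h1) p1.le]) (by
    refine (tendsto_top G₂).congr' ?_
    filter_upwards [eventually_ge_atTop x₂] with y hy
    simp only [hg]
    rw [hc1 y hy]; ring) (by
    refine (tendsto_bot G₁).congr' ?_
    filter_upwards [eventually_le_atBot x₁] with y hy
    simp only [hg]
    rw [hc0 y hy]; ring)
  refine ⟨G, fun x hx => ?_, fun x hx => ?_⟩
  · rw [hG]; simp only [hg]; rw [hc0 x hx]; ring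
  · rw [hG]; simp only [hg]; rw [hc1 x hx]; ring

/-- affine maps with positive slope -/
theorem exists_affine (m b : ℝ) (hm : 0 < m) : ∃ G : D, ∀ x, G x = m * x + b := by
  refine exists_mk (fun x => m * x + b) ?_ ?_ ?_ ?_
  · exact (contDiff_const.mul contDiff_id).add contDiff_const
  · intro x
    have : HasDerivAt (fun x : ℝ => m * x + b) (m * 1) x :=
      ((hasDerivAt_id x).const_mul m).add_const b
    rw [this.deriv]; simpa using hm
  · exact tendsto_atTop_add_const_right _ _ (tendsto_id.const_mul_atTop hm)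
  · exact tendsto_atBot_add_const_right _ _ (tendsto_id.const_mul_atBot hm)

/-- A diffeomorphism through two given points. -/
theorem exists_line (x₁ x₂ y₁ y₂ : ℝ) (hx : x₁ < x₂) (hy : y₁ < y₂) :
    ∃ G : D, G x₁ = y₁ ∧ G x₂ = y₂ := by
  have h1 : 0 < x₂ - x₁ := sub_pos.2 hx
  obtain ⟨G, hG⟩ := exists_affine ((y₂ - y₁) / (x₂ - x₁))
    (y₁ - (y₂ - y₁) / (x₂ - x₁) * x₁) (div_pos (sub_pos.2 hy) h1)
  refine ⟨G, ?_, ?_⟩
  · rw [hG]; ring
  · rw [hG]; field_simp; ring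

theorem exists_trans (b : ℝ) : ∃ G : D, ∀ x, G x = x + b := by
  obtain ⟨G, hG⟩ := exists_affine 1 b one_pos
  exact ⟨G, fun x => by rw [hG, one_mul]⟩

/-- Interpolation. -/
theorem interp (G₁ G₂ : D) (x₁ x₂ : ℝ) (hx : x₁ < x₂) (h : G₁ x₁ < G₂ x₂) :
    ∃ G : D, (∀ x ≤ x₁, G x = G₁ x) ∧ (∀ x, x₂ ≤ x → G x = G₂ x) := by
  obtain ⟨m, hm1, hm2⟩ := exists_line x₁ x₂ (G₁ x₁ + (G₂ x₂ - G₁ x₁) / 3)
    (G₂ x₂ - (G₂ x₂ - G₁ x₁) / 3) hx (by linarith)
  have e1 : ∀ᶠ x in 𝓝 x₁, G₁ x < m x := by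
    have c1 : ContinuousAt (G₁ : ℝ → ℝ) x₁ := (cont G₁).continuousAt
    have c2 : ContinuousAt (m : ℝ → ℝ) x₁ := (cont m).continuousAt
    exact c1.eventually_lt c2 (by rw [hm1]; linarith)
  have e2 : ∀ᶠ x in 𝓝 x₂, m x < G₂ x := by
    have c1 : ContinuousAt (G₂ : ℝ → ℝ) x₂ := (cont G₂).continuousAt
    have c2 : ContinuousAt (m : ℝ → ℝ) x₂ := (cont m).continuousAt
    exact c2.eventually_lt c1 (by rw [hm2]; linarith)
  obtain ⟨d1, hd1, hd1'⟩ := Metric.eventually_nhds_iff.1 e1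
  obtain ⟨d2, hd2, hd2'⟩ := Metric.eventually_nhds_iff.1 e2
  set r : ℝ := min (min (d1 / 2) (d2 / 2)) ((x₂ - x₁) / 3) with hr
  have hrpos : 0 < r := by
    rw [hr]; exact lt_min (lt_min (by linarith) (by linarith)) (by linarith)
  have hr1 : r ≤ d1 / 2 := le_trans (min_le_left _ _) (min_le_left _ _)
  have hr2 : r ≤ d2 / 2 := le_trans (min_le_left _ _) (min_le_right _ _)
  have hr3 : r ≤ (x₂ - x₁) / 3 := min_le_right _ _
  obtain ⟨A, hA1, hA2⟩ := convex G₁ m x₁ (x₁ + r) (by linarith) (by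
    intro x h1 h2
    refine (hd1' ?_).le
    rw [Real.dist_eq, abs_lt]; constructor <;> linarith)
  obtain ⟨B, hB1, hB2⟩ := convex A G₂ (x₂ - r) x₂ (by linarith) (by
    intro x h1 h2
    rw [hA2 x (by linarith)]
    refine (hd2' ?_).le
    rw [Real.dist_eq, abs_lt]; constructor <;> linarith)
  exact ⟨B, fun x hx => by rw [hB1 x (by linarith), hA1 x hx], hB2⟩

/-- Interpolation through a prescribed point. -/
theorem interp3 (G₁ G₂ : D) (x₁ x₂ x₃ q : ℝ) (h12 : x₁ < x₂) (h23 : x₂ < x₃)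
    (hq1 : G₁ x₁ < q) (hq3 : q < G₂ x₃) :
    ∃ G : D, (∀ x ≤ x₁, G x = G₁ x) ∧ G x₂ = q ∧ (∀ x, x₃ ≤ x → G x = G₂ x) := by
  obtain ⟨m, hm⟩ := exists_trans (q - x₂)
  have hm2 : m x₂ = q := by rw [hm]; ring
  obtain ⟨A, hA1, hA2⟩ := interp G₁ m x₁ x₂ h12 (by rw [hm2]; exact hq1)
  obtain ⟨B, hB1, hB2⟩ := interp A G₂ x₂ x₃ h23 (by rw [hA2 _ le_rfl, hm2]; exact hq3)
  exact ⟨B, fun x hx => by rw [hB1 x (by linarith), hA1 x hx],
    by rw [hB1 _ le_rfl, hA2 _ le_rfl, hm2], hB2⟩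

/-- The limit of a sequence of diffeomorphisms which stabilises on left rays. -/
theorem limit (g : ℕ → D) (t : ℕ → ℝ) (ht : Monotone t) (htop : Tendsto t atTop atTop)
    (hg : ∀ k, ∀ x ≤ t k, g (k + 1) x = g k x)
    (hgt : Tendsto (fun k => g k (t k)) atTop atTop) :
    ∃ G : D, ∀ k, ∀ x ≤ t k, G x = g k x := by
  classical
  have hex : ∀ x : ℝ, ∃ k, x ≤ t k := fun x =>
    (htop.eventually_ge_atTop x).exists
  have key : ∀ k j, ∀ x ≤ t k, g (k + j) x = g k x := by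
    intro k j
    induction j with
    | zero => intro x _; rfl
    | succ j ih =>
      intro x hx
      rw [← add_assoc, hg (k + j) x (hx.trans (ht (Nat.le_add_right k j))), ih x hx]
  set G : ℝ → ℝ := fun x => g (Nat.find (hex x)) x with hG
  have hGk : ∀ k, ∀ x ≤ t k, G x = g k x := by
    intro k x hx
    have h1 : Nat.find (hex x) ≤ k := Nat.find_min' _ hx
    have h2 : x ≤ t (Nat.find (hex x)) := Nat.find_spec (hex x)
    obtain ⟨j, hj⟩ := Nat.exists_eq_add_of_le h1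
    simp only [hG]
    rw [← key _ j x h2, ← hj]
  have hloc : ∀ x, ∃ H : D, G =ᶠ[𝓝 x] H := by
    intro x
    obtain ⟨k, hk⟩ := hex (x + 1)
    refine ⟨g k, ?_⟩
    filter_upwards [Iio_mem_nhds (show x < t k by linarith)] with y hy
    exact hGk k y (le_of_lt hy)
  have hmono : Monotone G := by
    intro x y hxy
    obtain ⟨k, hk⟩ := hex y
    rw [hGk k y hk, hGk k x (hxy.trans hk)]
    exact (smono (g k)).monotone hxy
  obtain ⟨H, hH⟩ := exists_of_local G hloc (by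
    refine hmono.tendsto_atTop_atTop fun b => ?_
    obtain ⟨k, hk⟩ := (hgt.eventually_ge_atTop b).exists
    exact ⟨t k, by rw [hGk k _ le_rfl]; exact hk⟩) (by
    refine (tendsto_bot (g 0)).congr' ?_
    filter_upwards [eventually_le_atBot (t 0)] with y hy
    exact (hGk 0 y hy).symm)
  exact ⟨H, fun k x hx => by rw [hH, hGk k x hx]⟩

end RevLine
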