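import Pool.Agent.Helper47.RevSteps

open scoped ContDiff Topology
open Filter Set

namespace RevLine

theorem Seg.congr {R v v' Q : D} {c d : ℝ} (h : Seg R v Q c d)
    (hv : ∀ x, c ≤ x → x ≤ d → v' x = v x) : Seg R v' Q c d :=
  ⟨h.gc, h.gd, fun x h1 h2 => by rw [hv x h1 h2]; exact h.rel x h1 h2⟩

/-- `Q` conjugates `v` to `S` on `[c, d]`, which corresponds to `[0, 2]`. -/
structure Seg2 (S v Q : D) (c d : ℝ) : Prop where
  gc : ∀ᶠ x in 𝓝 c, Q x = x - c
  gd : ∀ᶠ x in 𝓝 d, Q x = x - d + 2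
  rel : ∀ x, c ≤ x → x ≤ d → Q (v x) = S (Q x)

theorem seg_join {S : D} (hS : IsS S) (v Q₁ Q₂ : D) (c m d : ℝ) (hcm : c < m) (hmd : m < d)
    (hv : v m = m) (h1 : Seg S v Q₁ c m) (h2 : Seg S⁻¹ v Q₂ m d) :
    ∃ Q, Seg2 S v Q c d := by
  obtain ⟨T, hT⟩ := exists_trans 1
  have hTapp : ∀ x, (T * Q₂) x = Q₂ x + 1 := fun x => by rw [mul_app, hT]
  obtain ⟨Q, hQ1, hQ2⟩ := glue Q₁ (T * Q₂) m (by
    filter_upwards [h1.gd, h2.gc] with x h3 h4
    rw [hTapp, h3, h4])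
  refine ⟨Q, ?_, ?_, ?_⟩
  · filter_upwards [h1.gc, Iio_mem_nhds hcm] with x h3 h4
    rw [hQ1 x (le_of_lt h4), h3]
  · filter_upwards [h2.gd, Ioi_mem_nhds hmd] with x h3 h4
    rw [hQ2 x (le_of_lt h4), hTapp, h3]; ring
  · intro x hx1 hx2
    rcases le_total x m with h3 | h3
    · have h4 : v x ≤ m := by rw [← hv]; exact (le_iff v).2 h3
      rw [hQ1 x h3, hQ1 _ h4]; exact h1.rel x hx1 h3
    · have h4 : m ≤ v x := by rw [← hv]; exact (le_iff v).2 h3
      rw [hQ2 x h3, hQ2 _ h4, hTapp, hTapp, h2.rel x h3 hx2, hS.shift]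

theorem Up.fixa {S : D} (hS : IsS S) {f u : D} {a b p : ℝ} (h : Up S f u a b p) : u a = a := by
  rw [h.ga.self_of_nhds, sub_self, hS.zero, add_zero]

theorem Up.fixb {S : D} (hS : IsS S) {f u : D} {a b p : ℝ} (h : Up S f u a b p) :
    f (u b) = b := by
  rw [h.gb.self_of_nhds, sub_self, hS.zero, add_zero]

theorem Dn.fixa {S : D} (hS : IsS S) {f u : D} {a b p : ℝ} (h : Dn S f u a b p) : u a = a := by
  rw [h.ga.self_of_nhds, sub_self, hS.inv_zero, add_zero]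

theorem Dn.fixb {S : D} (hS : IsS S) {f u : D} {a b p : ℝ} (h : Dn S f u a b p) :
    f (u b) = b := by
  rw [h.gb.self_of_nhds, sub_self, hS.inv_zero, add_zero]

theorem twostep {S : D} (hS : IsS S) (f u : D) (a₀ b₀ p M : ℝ) (h : Up S f u a₀ b₀ p)
    (hf : ∃ᶠ x in atTop, f x < x) :
    ∃ u' : D, ∃ a b p' : ℝ, Up S f u' a b p' ∧ M ≤ p' ∧ p < a ∧ p < b ∧ p < p' ∧
      (∀ x ≤ p, u' x = u x) ∧
      (∃ Q, Seg2 S u' Q a₀ a) ∧ (∃ P, Seg2 S (f * u') P b₀ b) := by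
  obtain ⟨u₁, Q₁, P₁, a₁, b₁, p₁, hM1, hpa1, hpb1, hpp1, hu1, hDn, hSa, hSb⟩ :=
    dstep hS f u a₀ b₀ p 0 h hf
  obtain ⟨u₂, Q₂, P₂, a₂, b₂, p₂, hM2, hpa2, hpb2, hpp2, hu2, hUp, hSa2, hSb2⟩ :=
    ustep hS f u₁ a₁ b₁ p₁ M hDn hf
  have h1 := h.hap
  have h2 := h.hbp
  have h3 := hDn.hap
  have h4 := hDn.hbp
  refine ⟨u₂, a₂, b₂, p₂, hUp, hM2, by linarith, by linarith, by linarith, ?_, ?_, ?_⟩
  · intro x hx
    rw [hu2 x (by linarith), hu1 x hx]
  · refine seg_join hS u₂ Q₁ Q₂ a₀ a₁ a₂ (by linarith) (by linarith) ?_ ?_ hSa2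
    · rw [hu2 a₁ h3.le, hDn.fixa hS]
    · exact hSa.congr fun x _ hx => hu2 x (by linarith)
  · refine seg_join hS (f * u₂) P₁ P₂ b₀ b₁ b₂ (by linarith) (by linarith) ?_ ?_ hSb2
    · rw [mul_app, hu2 b₁ h4.le, hDn.fixb hS]
    · exact hSb.congr fun x _ hx => by rw [mul_app, mul_app, hu2 x (by linarith)]

theorem IsS.shift_two {S : D} (hS : IsS S) (x : ℝ) : S (x + 2) = S x + 2 := by
  have : x + 2 = (x + 1) + 1 := by ring
  rw [this, hS.shift, hS.inv_shift]; ring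

theorem IsS.shift_nat {S : D} (hS : IsS S) (k : ℕ) (x : ℝ) :
    S (x + 2 * k) = S x + 2 * k := by
  induction k with
  | zero => simp
  | succ k ih =>
    push_cast
    have : x + 2 * ((k : ℝ) + 1) = (x + 2 * k) + 2 := by ring
    rw [this, hS.shift_two, ih]; ring

theorem seg_chain {S : D} (hS : IsS S) (v : D) (c : ℕ → ℝ) (hc : StrictMono c)
    (hctop : Tendsto c atTop atTop) (hv : ∀ k, v (c k) = c k)
    (h : ∀ k, ∃ Q, Seg2 S v Q (c k) (c (k + 1))) :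
    ∃ Q : D, (∀ x ≤ c 0, Q x = x - c 0) ∧ (∀ᶠ x in 𝓝 (c 0), Q x = x - c 0) ∧
      (∀ x, c 0 ≤ x → Q (v x) = S (Q x)) := by
  choose Qs hQs using h
  have step : ∀ (k : ℕ) (R : D), ∃ R' : D,
      (∀ᶠ x in 𝓝 (c k), R x = x - c k + 2 * k) →
      ((∀ x ≤ c k, R' x = R x) ∧ (∀ x, c k ≤ x → R' x = Qs k x + 2 * k)) := by
    intro k R
    by_cases hR : ∀ᶠ x in 𝓝 (c k), R x = x - c k + 2 * k
    · obtain ⟨T, hT⟩ := exists_trans (2 * k)
      obtain ⟨R', h1, h2⟩ := glue R (T * Qs k) (c k) (by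
        filter_upwards [hR, (hQs k).gc] with x h3 h4
        rw [mul_app, hT, h3, h4])
      exact ⟨R', fun _ => ⟨h1, fun x hx => by rw [h2 x hx, mul_app, hT]⟩⟩
    · exact ⟨R, fun h' => absurd h' hR⟩
  choose next hnext using step
  obtain ⟨T₀, hT₀⟩ := exists_trans (-(c 0))
  set R : ℕ → D := fun n => Nat.rec T₀ (fun k r => next k r) n with hR
  have R0 : R 0 = T₀ := rfl
  have Rs : ∀ k, R (k + 1) = next k (R k) := fun k => rfl
  have hprop : ∀ k : ℕ, ∀ᶠ x in 𝓝 (c k), R k x = x - c k + 2 * k := by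
    intro k
    induction k with
    | zero =>
      refine Eventually.of_forall fun x => ?_
      rw [R0, hT₀]; push_cast; ring
    | succ k ih =>
      have h2 := (hnext k (R k) ih).2
      filter_upwards [(hQs k).gd, Ioi_mem_nhds (hc (Nat.lt_succ_self k))] with x h3 h4
      have h5 : c k < x := h4
      rw [Rs, h2 x h5.le, h3]; push_cast; ring
  have hA : ∀ k : ℕ, ∀ x ≤ c k, R (k + 1) x = R k x := fun k => (hnext k (R k) (hprop k)).1
  have hB : ∀ k : ℕ, ∀ x, c k ≤ x → R (k + 1) x = Qs k x + 2 * k :=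
    fun k => (hnext k (R k) (hprop k)).2
  have hRc : ∀ k : ℕ, R k (c k) = 2 * k := by
    intro k; rw [(hprop k).self_of_nhds]; ring
  obtain ⟨Q, hQ⟩ := limit R c hc.monotone hctop hA (by
    simp only [hRc]
    exact tendsto_natCast_atTop_atTop.const_mul_atTop (by norm_num))
  refine ⟨Q, ?_, ?_, ?_⟩
  · intro x hx
    rw [hQ 0 x hx, R0, hT₀]; ring
  · filter_upwards [(hQs 0).gc, Iio_mem_nhds (hc Nat.zero_lt_one)] with x h1 h2
    rcases le_total x (c 0) with h3 | h3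
    · rw [hQ 0 x h3, R0, hT₀]; ring
    · have h5 := hB 0 x h3
      rw [zero_add] at h5
      rw [hQ 1 x (le_of_lt h2), h5, h1]; simp
  · intro x hx
    obtain ⟨k, hk1, hk2⟩ : ∃ k, c k ≤ x ∧ x ≤ c (k + 1) := by
      classical
      have hex : ∃ n, x ≤ c (n + 1) := by
        obtain ⟨n, hn⟩ := (hctop.eventually_ge_atTop x).exists
        exact ⟨n, hn.trans (hc (Nat.lt_succ_self n)).le⟩
      refine ⟨Nat.find hex, ?_, Nat.find_spec hex⟩
      rcases Nat.eq_zero_or_pos (Nat.find hex) with h0 | h0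
      · rw [h0]; exact hx
      · have h1 := Nat.find_min hex (Nat.sub_lt h0 Nat.one_pos)
        rw [Nat.sub_add_cancel h0] at h1
        exact (not_le.1 h1).le
    have h3 : c k ≤ v x := by rw [← hv k]; exact (le_iff v).2 hk1
    have h4 : v x ≤ c (k + 1) := by rw [← hv (k + 1)]; exact (le_iff v).2 hk2
    rw [hQ (k + 1) x hk2, hQ (k + 1) (v x) h4, hB k x hk1, hB k _ h3, (hQs k).rel x hk1 hk2,
      hS.shift_nat]

/-- `Q` conjugates `v` to `S` on `[c, ∞)`, and is a translation on `(-∞, c]`. -/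
structure RT (S v Q : D) (c : ℝ) : Prop where
  left : ∀ x ≤ c, Q x = x - c
  near : ∀ᶠ x in 𝓝 c, Q x = x - c
  rel : ∀ x, c ≤ x → Q (v x) = S (Q x)

/-- `Q` conjugates `v` to `S` on `(-∞, c]`, and is a translation on `[c, ∞)`. -/
structure LT (S v Q : D) (c : ℝ) : Prop where
  right : ∀ x, c ≤ x → Q x = x - c
  near : ∀ᶠ x in 𝓝 c, Q x = x - c
  rel : ∀ x ≤ c, Q (v x) = S (Q x)

theorem right_chain {S : D} (hS : IsS S) (f u : D) (a b p : ℝ) (h : Up S f u a b p)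
    (hf : ∃ᶠ x in atTop, f x < x) :
    ∃ u' Q P : D, (∀ x ≤ p, u' x = u x) ∧ RT S u' Q a ∧ RT S (f * u') P b := by
  let Node := {s : D × ℝ × ℝ × ℝ // Up S f s.1 s.2.1 s.2.2.1 s.2.2.2}
  have step : ∀ (k : ℕ) (s : Node), ∃ s' : Node, (k : ℝ) ≤ s'.1.2.2.2 ∧
      s.1.2.2.2 < s'.1.2.1 ∧ s.1.2.2.2 < s'.1.2.2.1 ∧ s.1.2.2.2 < s'.1.2.2.2 ∧
      (∀ x ≤ s.1.2.2.2, s'.1.1 x = s.1.1 x) ∧
      (∃ Q, Seg2 S s'.1.1 Q s.1.2.1 s'.1.2.1) ∧
      (∃ P, Seg2 S (f * s'.1.1) P s.1.2.2.1 s'.1.2.2.1) := by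
    rintro k ⟨⟨u, a, b, p⟩, hs⟩
    obtain ⟨u', a', b', p', h1, h2⟩ := twostep hS f u a b p k hs hf
    exact ⟨⟨⟨u', a', b', p'⟩, h1⟩, h2⟩
  choose next hnext using step
  set s : ℕ → Node := fun n => Nat.rec ⟨⟨u, a, b, p⟩, h⟩ (fun k r => next k r) n with hs
  have s0 : (s 0).1 = (u, a, b, p) := rfl
  have ss : ∀ k, s (k + 1) = next k (s k) := fun k => rfl
  have hk : ∀ k : ℕ, (k : ℝ) ≤ (s (k + 1)).1.2.2.2 ∧
      (s k).1.2.2.2 < (s (k + 1)).1.2.1 ∧ (s k).1.2.2.2 < (s (k + 1)).1.2.2.1 ∧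
      (s k).1.2.2.2 < (s (k + 1)).1.2.2.2 ∧
      (∀ x ≤ (s k).1.2.2.2, (s (k + 1)).1.1 x = (s k).1.1 x) ∧
      (∃ Q, Seg2 S (s (k + 1)).1.1 Q (s k).1.2.1 (s (k + 1)).1.2.1) ∧
      (∃ P, Seg2 S (f * (s (k + 1)).1.1) P (s k).1.2.2.1 (s (k + 1)).1.2.2.1) :=
    fun k => hnext k (s k)
  set t : ℕ → ℝ := fun k => (s k).1.2.2.2 with ht
  have htm : Monotone t := monotone_nat_of_le_succ fun k => (hk k).2.2.2.1.le
  have httop : Tendsto t atTop atTop := by
    have h1 : Tendsto (fun k => t (k + 1)) atTop atTop :=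
      tendsto_atTop_mono (fun k => (hk k).1) tendsto_natCast_atTop_atTop
    exact (tendsto_add_atTop_iff_nat (f := t) 1).1 h1
  obtain ⟨U, hU⟩ := limit (fun k => (s k).1.1) t htm httop (fun k => (hk k).2.2.2.2.1)
    (tendsto_atTop_mono (fun k => ((s k).2.ua _ (s k).2.hap le_rfl).le) httop)
  have hAm : StrictMono fun k => (s k).1.2.1 := strictMono_nat_of_lt_succ fun k =>
    ((s k).2.hap).trans (hk k).2.1
  have hBm : StrictMono fun k => (s k).1.2.2.1 := strictMono_nat_of_lt_succ fun k =>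
    ((s k).2.hbp).trans (hk k).2.2.1
  have hAtop : Tendsto (fun k => (s k).1.2.1) atTop atTop := by
    refine (tendsto_add_atTop_iff_nat (f := fun k => (s k).1.2.1) 1).1 ?_
    exact tendsto_atTop_mono (fun k => (hk k).2.1.le) httop
  have hBtop : Tendsto (fun k => (s k).1.2.2.1) atTop atTop := by
    refine (tendsto_add_atTop_iff_nat (f := fun k => (s k).1.2.2.1) 1).1 ?_
    exact tendsto_atTop_mono (fun k => (hk k).2.2.1.le) httop
  obtain ⟨Q, Q1, Q2, Q3⟩ := seg_chain hS U (fun k => (s k).1.2.1) hAm hAtop (by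
    intro k
    rw [hU k _ (s k).2.hap.le]; exact (s k).2.fixa hS) (by
    intro k
    obtain ⟨Q, hQ⟩ := (hk k).2.2.2.2.2.1
    refine ⟨Q, hQ.gc, hQ.gd, fun x h1 h2 => ?_⟩
    rw [hU (k + 1) x (h2.trans (s (k + 1)).2.hap.le)]
    exact hQ.rel x h1 h2)
  obtain ⟨P, P1, P2, P3⟩ := seg_chain hS (f * U) (fun k => (s k).1.2.2.1) hBm hBtop (by
    intro k
    rw [mul_app, hU k _ (s k).2.hbp.le]; exact (s k).2.fixb hS) (by
    intro k
    obtain ⟨Q, hQ⟩ := (hk k).2.2.2.2.2.2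
    refine ⟨Q, hQ.gc, hQ.gd, fun x h1 h2 => ?_⟩
    rw [mul_app, hU (k + 1) x (h2.trans (s (k + 1)).2.hbp.le)]
    exact hQ.rel x h1 h2)
  exact ⟨U, Q, P, fun x hx => hU 0 x hx, ⟨Q1, Q2, Q3⟩, ⟨P1, P2, P3⟩⟩

theorem Up.swap {S f u : D} {a b p : ℝ} (h : Up S f u a b p) :
    Up S f⁻¹ (f * u) b a p := by
  have e : ∀ x, f⁻¹ ((f * u) x) = u x := fun x => by rw [mul_app, inv_app_self]
  refine ⟨h.hbp, h.hap, h.gb, ?_, h.wb, ?_⟩
  · filter_upwards [h.ga] with x hx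
    rw [e, hx]
  · intro x h1 h2
    rw [e]; exact h.ua x h1 h2

theorem right_chain' {S : D} (hS : IsS S) (f u : D) (a b p : ℝ) (h : Up S f u a b p)
    (hf : ∃ᶠ x in atTop, f x ≠ x) :
    ∃ u' Q P : D, (∀ x ≤ p, u' x = u x) ∧ RT S u' Q a ∧ RT S (f * u') P b := by
  have h1 : (∃ᶠ x in atTop, f x < x) ∨ (∃ᶠ x in atTop, x < f x) := by
    rw [← frequently_or_distrib]
    exact hf.mono fun x hx => lt_or_gt_of_ne hx
  rcases h1 with h1 | h1
  · exact right_chain hS f u a b p h h1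
  · have h2 : ∃ᶠ y in atTop, f⁻¹ y < y := by
      refine (tendsto_top f).frequently (h1.mono fun x hx => ?_)
      rw [inv_app_self]; exact hx
    obtain ⟨w, P, Q, h3, h4, h5⟩ := right_chain hS f⁻¹ (f * u) b a p h.swap h2
    refine ⟨f⁻¹ * w, Q, P, ?_, h5, ?_⟩
    · intro x hx
      rw [mul_app, h3 x hx, mul_app, inv_app_self]
    · rwa [mul_inv_cancel_left]

/-- Conjugation by `x ↦ -x`. -/
def mir (g : D) : D :=
  ⟨(Equiv.neg ℝ).trans ((g : Equiv.Perm ℝ).trans (Equiv.neg ℝ)),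
    contDiff_neg.comp (g.2.1.comp contDiff_neg), contDiff_neg.comp (g.2.2.1.comp contDiff_neg), by
      intro x y hxy
      show - (g : Equiv.Perm ℝ) (-x) < - (g : Equiv.Perm ℝ) (-y)
      exact neg_lt_neg (g.2.2.2 (neg_lt_neg hxy))⟩

theorem mir_app (g : D) (x : ℝ) : mir g x = - g (-x) := rfl

theorem mir_mir (g : D) : mir (mir g) = g := by
  apply ext_app; intro x; rw [mir_app, mir_app, neg_neg, neg_neg]

theorem mir_mul (g h : D) : mir (g * h) = mir g * mir h := by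
  apply ext_app; intro x
  rw [mul_app, mir_app, mir_app, mir_app, mul_app, neg_neg]

theorem eventually_neg {P : ℝ → Prop} {a : ℝ} (h : ∀ᶠ x in 𝓝 a, P x) :
    ∀ᶠ x in 𝓝 (-a), P (-x) := by
  have : Tendsto (fun x : ℝ => -x) (𝓝 (-a)) (𝓝 a) := by
    have := (continuous_neg (G := ℝ)).tendsto (-a)
    rwa [neg_neg] at this
  exact this.eventually h

/-- The mirror image of `Up`. -/
structure UpL (S f u : D) (a b p : ℝ) : Prop where
  hap : p < a
  hbp : p < b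
  ga : ∀ᶠ x in 𝓝 a, u x = a + S (x - a)
  gb : ∀ᶠ x in 𝓝 b, f (u x) = b + S (x - b)
  ua : ∀ x, p ≤ x → x < a → u x < x
  wb : ∀ x, p ≤ x → x < b → f (u x) < x

theorem UpL.mirror {S : D} (hS : IsS S) {f u : D} {a b p : ℝ} (h : UpL S f u a b p) :
    Up S (mir f) (mir u) (-a) (-b) (-p) := by
  refine ⟨neg_lt_neg h.hap, neg_lt_neg h.hbp, ?_, ?_, ?_, ?_⟩
  · filter_upwards [eventually_neg h.ga] with x hx
    rw [mir_app, hx]
    have : x - -a = -(-x - a) := by ring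
    rw [this, hS.odd]; ring
  · filter_upwards [eventually_neg h.gb] with x hx
    rw [mir_app, mir_app, neg_neg, hx]
    have : x - -b = -(-x - b) := by ring
    rw [this, hS.odd]; ring
  · intro x h1 h2
    rw [mir_app]
    have := h.ua (-x) (by linarith) (by linarith)
    linarith
  · intro x h1 h2
    rw [mir_app, mir_app, neg_neg]
    have := h.wb (-x) (by linarith) (by linarith)
    linarith

theorem left_chain' {S : D} (hS : IsS S) (f u : D) (a b p : ℝ) (h : UpL S f u a b p)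
    (hf : ∃ᶠ x in atBot, f x ≠ x) :
    ∃ u' Q P : D, (∀ x, p ≤ x → u' x = u x) ∧ LT S u' Q a ∧ LT S (f * u') P b := by
  have hf' : ∃ᶠ x in atTop, mir f x ≠ x := by
    have : Tendsto (fun x : ℝ => -x) atBot atTop := tendsto_neg_atBot_atTop
    refine this.frequently (hf.mono fun x hx => ?_)
    rw [mir_app, neg_neg]
    intro hc
    exact hx (neg_injective hc)
  obtain ⟨u', Q, P, h1, h2, h3⟩ := right_chain' hS (mir f) (mir u) (-a) (-b) (-p)
    (h.mirror hS) hf'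
  refine ⟨mir u', mir Q, mir P, ?_, ⟨?_, ?_, ?_⟩, ⟨?_, ?_, ?_⟩⟩
  · intro x hx
    rw [mir_app, h1 (-x) (by linarith), mir_app, neg_neg, neg_neg]
  · intro x hx
    rw [mir_app, h2.left (-x) (by linarith)]; ring
  · have := eventually_neg h2.near
    rw [neg_neg] at this
    filter_upwards [this] with x hx
    rw [mir_app, hx]; ring
  · intro x hx
    rw [mir_app, mir_app, mir_app, neg_neg, h2.rel (-x) (by linarith), hS.odd]
  · intro x hx
    rw [mir_app, h3.left (-x) (by linarith)]; ring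
  · have := eventually_neg h3.near
    rw [neg_neg] at this
    filter_upwards [this] with x hx
    rw [mir_app, hx]; ring
  · intro x hx
    have := h3.rel (-x) (by linarith)
    rw [mul_app, mir_app] at this
    rw [mul_app, mir_app, mir_app, mir_app, hS.odd, ← this]

theorem join {S : D} (v Q₁ Q₂ : D) (c : ℝ) (hv : v c = c)
    (n1 : ∀ᶠ x in 𝓝 c, Q₁ x = x - c) (n2 : ∀ᶠ x in 𝓝 c, Q₂ x = x - c)
    (r1 : ∀ x ≤ c, Q₁ (v x) = S (Q₁ x)) (r2 : ∀ x, c ≤ x → Q₂ (v x) = S (Q₂ x)) :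
    ∃ Q : D, ∀ x, Q (v x) = S (Q x) := by
  obtain ⟨Q, hQ1, hQ2⟩ := glue Q₁ Q₂ c (by
    filter_upwards [n1, n2] with x h1 h2
    rw [h1, h2])
  refine ⟨Q, fun x => ?_⟩
  rcases le_total x c with h | h
  · have : v x ≤ c := by rw [← hv]; exact (le_iff v).2 h
    rw [hQ1 x h, hQ1 _ this]; exact r1 x h
  · have : c ≤ v x := by rw [← hv]; exact (le_iff v).2 h
    rw [hQ2 x h, hQ2 _ this]; exact r2 x h

/-- The conclusion of the main theorem. -/
def Good (S f : D) : Prop :=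
  ∃ u Q P : D, (∀ x, Q (u x) = S (Q x)) ∧ (∀ x, P (f (u x)) = S (P x))

theorem Good.of_inv {S f : D} (h : Good S f⁻¹) : Good S f := by
  obtain ⟨u, Q, P, h1, h2⟩ := h
  refine ⟨f⁻¹ * u, P, Q, h2, fun x => ?_⟩
  rw [mul_app, app_inv_self]; exact h1 x

theorem Good.of_mir {S f : D} (hS : IsS S) (h : Good S (mir f)) : Good S f := by
  obtain ⟨u, Q, P, h1, h2⟩ := h
  refine ⟨mir u, mir Q, mir P, fun x => ?_, fun x => ?_⟩
  · rw [mir_app, mir_app, mir_app, neg_neg, h1, hS.odd]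
  · have := h2 (-x)
    rw [mir_app] at this
    rw [mir_app, mir_app, mir_app, hS.odd, ← this]

theorem good_one_sided {S : D} (hS : IsS S) (f : D) (htop : ∃ᶠ x in atTop, f x ≠ x)
    (hbot : ∀ᶠ x in atBot, f x = x) : Good S f := by
  obtain ⟨x₀, hx₀⟩ := eventually_atBot.1 hbot
  set a : ℝ := x₀ - 2 with ha
  obtain ⟨u₀, hu₀⟩ := exists_model S a
  have hle : ∀ x, x ≤ a + 1 → u₀ x ≤ a + 1 := by
    intro x hx
    rw [hu₀]
    have : S (x - a) ≤ S 1 := (le_iff S).2 (by linarith)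
    rw [hS.one] at this; linarith
  have hle' : ∀ x, x ≤ a → u₀ x ≤ a := by
    intro x hx
    rw [hu₀]
    have : S (x - a) ≤ S 0 := (le_iff S).2 (by linarith)
    rw [hS.zero] at this; linarith
  have hfu : ∀ x, x ≤ a + 1 → f (u₀ x) = u₀ x := by
    intro x hx
    exact hx₀ _ (by linarith [hle x hx])
  have hup : Up S f u₀ a a (a + 1 / 2) := by
    refine ⟨by linarith, by linarith, Eventually.of_forall hu₀, ?_, ?_, ?_⟩
    · filter_upwards [Iio_mem_nhds (show a < a + 1 by linarith)] with x hx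
      have hx' : x < a + 1 := hx
      rw [hfu x hx'.le, hu₀]
    · intro x h1 h2
      rw [hu₀]
      have := hS.up (x - a) (by linarith) (by linarith)
      linarith
    · intro x h1 h2
      rw [hfu x (by linarith), hu₀]
      have := hS.up (x - a) (by linarith) (by linarith)
      linarith
  obtain ⟨u', Q, P, h1, h2, h3⟩ := right_chain' hS f u₀ a a (a + 1 / 2) hup htop
  refine ⟨u', Q, P, fun x => ?_, fun x => ?_⟩
  · rcases le_total x a with hx | hx
    · have h4 := hle' x hx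
      rw [h1 x (by linarith), h2.left _ h4, h2.left _ hx, hu₀]; ring
    · exact h2.rel x hx
  · rcases le_total x a with hx | hx
    · have h4 := hle' x hx
      rw [h1 x (by linarith), hfu x (by linarith), h3.left _ h4, h3.left _ hx, hu₀]; ring
    · exact h3.rel x hx

theorem good_two_sided {S : D} (hS : IsS S) (f : D) (htop : ∃ᶠ x in atTop, f x ≠ x)
    (hbot : ∃ᶠ x in atBot, f x ≠ x) (a : ℝ) (hfa : f a < a) : Good S f := by
  obtain ⟨u₀, b, p', hab, hbp', hp'1, hu0a, hu0g, hu0u, hu0b, hu0w, hu0w'⟩ :=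
    init hS f a 1 hfa one_pos
  set m : ℝ := max (f a) (a - 1) with hm
  have hma : m < a := max_lt hfa (by linarith)
  have hm1 : f a ≤ m := le_max_left _ _
  have hm2 : a - 1 ≤ m := le_max_right _ _
  have hL : UpL S f u₀ a b ((m + a) / 2) := by
    refine ⟨by linarith, by linarith, hu0g, hu0b, ?_, ?_⟩
    · intro x h1 h2
      rw [hu0a x h2.le]
      have := hS.down (x := x - a) (by linarith) (by linarith)
      linarith
    · intro x h1 h2
      rcases le_or_gt a x with h3 | h3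
      · exact hu0w x h3 h2
      · have h4 : u₀ x < a := by
          have h5 := hS.down (x := x - a) (by linarith) (by linarith)
          rw [hu0a x h3.le]
          linarith
        have h6 : f (u₀ x) < f a := (lt_iff f).2 h4
        linarith
  obtain ⟨u₁, Q₁, P₁, e1, L1, L2⟩ := left_chain' hS f u₀ a b ((m + a) / 2) hL hbot
  have hU : Up S f u₁ a b p' := by
    refine ⟨by linarith, hbp', ?_, ?_, ?_, ?_⟩
    · filter_upwards [hu0g, Ioi_mem_nhds (show (m + a) / 2 < a by linarith)] with x h1 h2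
      rw [e1 x (le_of_lt h2), h1]
    · filter_upwards [hu0b, Ioi_mem_nhds (show (m + a) / 2 < b by linarith)] with x h1 h2
      rw [e1 x (le_of_lt h2), h1]
    · intro x h1 h2
      rw [e1 x (by linarith)]; exact hu0u x h1 h2
    · intro x h1 h2
      rw [e1 x (by linarith)]; exact hu0w' x h1 h2
  obtain ⟨u₂, Q₂, P₂, e2, R1, R2⟩ := right_chain' hS f u₁ a b p' hU htop
  have fa : u₂ a = a := by rw [e2 a hU.hap.le, hU.fixa hS]
  have fb : (f * u₂) b = b := by rw [mul_app, e2 b hU.hbp.le, hU.fixb hS]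
  obtain ⟨Q, hQ⟩ := join (S := S) u₂ Q₁ Q₂ a fa L1.near R1.near (fun x hx => by
    rw [e2 x (by linarith)]; exact L1.rel x hx) R1.rel
  obtain ⟨P, hP⟩ := join (S := S) (f * u₂) P₁ P₂ b fb L2.near R2.near (fun x hx => by
    rw [mul_app, e2 x (by linarith)]; exact L2.rel x hx) R2.rel
  exact ⟨u₂, Q, P, hQ, hP⟩

theorem inv_ne_iff (f : D) (x : ℝ) : f⁻¹ x ≠ x ↔ f x ≠ x := by
  rw [not_iff_not, ← inj f, app_inv_self, eq_comm]

/-- Every diffeomorphism with unbounded support is `w u⁻¹` with `u`, `w` conjugate to `S`. -/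
theorem good_of_unbounded {S : D} (hS : IsS S) (f : D)
    (h : (∃ᶠ x in atTop, f x ≠ x) ∨ (∃ᶠ x in atBot, f x ≠ x)) : Good S f := by
  have key : ∀ g : D, (∃ᶠ x in atTop, g x ≠ x) → Good S g := by
    intro g hg
    by_cases hb : ∀ᶠ x in atBot, g x = x
    · exact good_one_sided hS g hg hb
    · have hb' : ∃ᶠ x in atBot, g x ≠ x := not_eventually.1 hb
      obtain ⟨a, ha⟩ := hg.exists
      rcases lt_or_gt_of_ne ha with h1 | h1
      · exact good_two_sided hS g hg hb' a h1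
      · apply Good.of_inv
        refine good_two_sided hS g⁻¹ ?_ ?_ (g a) (by rw [inv_app_self]; exact h1)
        · exact hg.mono fun x hx => (inv_ne_iff g x).2 hx
        · exact hb'.mono fun x hx => (inv_ne_iff g x).2 hx
  rcases h with h | h
  · exact key f h
  · apply Good.of_mir hS
    apply key
    have : Tendsto (fun x : ℝ => -x) atBot atTop := tendsto_neg_atBot_atTop
    refine this.frequently (h.mono fun x hx => ?_)
    rw [mir_app, neg_neg]
    intro hc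
    exact hx (neg_injective hc)

/-- Being reversible. -/
def Rev (f : D) : Prop := ∃ h : D, h * f * h⁻¹ = f⁻¹

theorem IsS.rev {S : D} (hS : IsS S) : Rev S := by
  obtain ⟨T, hT⟩ := exists_trans 1
  refine ⟨T, ?_⟩
  rw [mul_inv_eq_iff_eq_mul]
  apply ext_app; intro x
  rw [mul_app, mul_app, hT, hT, hS.inv_shift]

theorem Rev.of_conj {S v Q : D} (hS : Rev S) (h : ∀ x, Q (v x) = S (Q x)) : Rev v := by
  obtain ⟨t, ht⟩ := hS
  have hv : v = Q⁻¹ * S * Q := by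
    apply ext_app; intro x
    rw [mul_app, mul_app, ← h, inv_app_self]
  refine ⟨Q⁻¹ * t * Q, ?_⟩
  rw [hv]
  have : S⁻¹ = t * S * t⁻¹ := ht.symm
  calc Q⁻¹ * t * Q * (Q⁻¹ * S * Q) * (Q⁻¹ * t * Q)⁻¹ = Q⁻¹ * (t * S * t⁻¹) * Q := by group
    _ = Q⁻¹ * S⁻¹ * Q := by rw [ht]
    _ = (Q⁻¹ * S * Q)⁻¹ := by group

theorem Rev.inv {v : D} (h : Rev v) : Rev v⁻¹ := by
  obtain ⟨t, ht⟩ := h
  refine ⟨t, ?_⟩
  calc t * v⁻¹ * t⁻¹ = (t * v * t⁻¹)⁻¹ := by group
    _ = (v⁻¹)⁻¹ := by rw [ht]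

theorem Rev.one : Rev 1 := ⟨1, by simp⟩

/-- A diffeomorphism with unbounded support is a product of two reversible ones. -/
theorem two_of_unbounded (f : D)
    (h : (∃ᶠ x in atTop, f x ≠ x) ∨ (∃ᶠ x in atBot, f x ≠ x)) :
    ∃ g₁ g₂ : D, Rev g₁ ∧ Rev g₂ ∧ f = g₁ * g₂ := by
  obtain ⟨S, hS⟩ := exists_S
  obtain ⟨u, Q, P, h1, h2⟩ := good_of_unbounded hS f h
  refine ⟨f * u, u⁻¹, hS.rev.of_conj h2, (hS.rev.of_conj h1).inv, ?_⟩
  rw [mul_inv_cancel_right]

/-- Every diffeomorphism is a product of three reversible ones. -/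
theorem three (f : D) : ∃ g₁ g₂ g₃ : D, Rev g₁ ∧ Rev g₂ ∧ Rev g₃ ∧ f = g₁ * g₂ * g₃ := by
  by_cases h : (∃ᶠ x in atTop, f x ≠ x)
  · obtain ⟨g₁, g₂, h1, h2, h3⟩ := two_of_unbounded f (Or.inl h)
    exact ⟨g₁, g₂, 1, h1, h2, Rev.one, by rw [mul_one]; exact h3⟩
  · obtain ⟨S, hS⟩ := exists_S
    have hev : ∀ᶠ x in atTop, f x = x := by
      have := not_frequently.1 h
      exact this.mono fun x hx => not_not.1 hx
    have hne : ∀ k : ℕ, S⁻¹ ((1 : ℝ) / 2 + 2 * k) ≠ 1 / 2 + 2 * k := by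
      intro k
      have h1 : S⁻¹ ((1 : ℝ) / 2 + 2 * k) = S⁻¹ (1 / 2) + 2 * k := by
        rw [← inj S, app_inv_self, hS.shift_nat, app_inv_self]
      have h2 := hS.inv_up (x := 1 / 2) (by norm_num) (by norm_num)
      rw [h1]
      intro h3
      linarith
    have hfr : ∃ᶠ x in atTop, (f * S⁻¹) x ≠ x := by
      have h1 : ∃ᶠ x in atTop, S⁻¹ x ≠ x := by
        rw [frequently_atTop]
        intro a
        obtain ⟨k, hk⟩ := exists_nat_gt a
        refine ⟨1 / 2 + 2 * k, ?_, hne k⟩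
        have : (0 : ℝ) ≤ k := Nat.cast_nonneg k
        linarith
      have h2 : ∀ᶠ x in atTop, f (S⁻¹ x) = S⁻¹ x := (tendsto_top S⁻¹).eventually hev
      refine (h1.and_eventually h2).mono fun x hx => ?_
      rw [mul_app, hx.2]; exact hx.1
    obtain ⟨g₁, g₂, h1, h2, h3⟩ := two_of_unbounded (f * S⁻¹) (Or.inl hfr)
    refine ⟨g₁, g₂, S, h1, h2, hS.rev, ?_⟩
    rw [← h3, inv_mul_cancel_right]

end RevLine
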