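import Pool.Agent.Helper47.RevBasic

open scoped ContDiff Topology
open Filter Set

namespace RevLine

/-- The properties of the model reversible diffeomorphism. -/
structure IsS (S : D) : Prop where
  shift : ∀ x, S (x + 1) = S⁻¹ x + 1
  odd : ∀ x, S (-x) = - S x
  up : ∀ x, 0 < x → x < 1 → x < S x

theorem exists_S : ∃ S : D, IsS S := by
  have hk : ∀ c : ℝ, |c| = 1 / 4 → ∃ k : D, ∀ x, k x = x + c * Real.sin (Real.pi * x) := by
    intro c hc
    have hc' := abs_le.1 hc.le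
    refine exists_mk (fun x => x + c * Real.sin (Real.pi * x)) ?_ ?_ ?_ ?_
    · exact contDiff_id.add (contDiff_const.mul
        (Real.contDiff_sin.comp (contDiff_const.mul contDiff_id)))
    · intro x
      have h1 : HasDerivAt (fun x : ℝ => x + c * Real.sin (Real.pi * x))
          (1 + c * (Real.cos (Real.pi * x) * (Real.pi * 1))) x :=
        (hasDerivAt_id x).add ((((hasDerivAt_id x).const_mul Real.pi).sin).const_mul c)
      rw [h1.deriv]
      have h2 : |c * (Real.cos (Real.pi * x) * (Real.pi * 1))| < 1 := by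
        rw [abs_mul, abs_mul, hc, mul_one, abs_of_pos Real.pi_pos]
        have h3 := Real.abs_cos_le_one (Real.pi * x)
        have h4 : Real.pi < 3.15 := Real.pi_lt_d2
        have h5 : |Real.cos (Real.pi * x)| * Real.pi ≤ 1 * Real.pi :=
          mul_le_mul_of_nonneg_right h3 Real.pi_pos.le
        linarith
      have := (abs_lt.1 h2).1
      linarith
    · refine tendsto_atTop_mono (f := fun x : ℝ => x + (-1)) ?_
        (tendsto_atTop_add_const_right _ _ tendsto_id)
      intro x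
      have h2 : |c * Real.sin (Real.pi * x)| ≤ 1 := by
        rw [abs_mul, hc]
        have h3 := Real.abs_sin_le_one (Real.pi * x)
        linarith
      have := (abs_le.1 h2).1
      show x + (-1) ≤ x + c * Real.sin (Real.pi * x)
      linarith
    · have hb : Tendsto (fun x : ℝ => x + 1) atBot atBot :=
        tendsto_atBot_add_const_right _ _ tendsto_id
      refine tendsto_atBot_mono ?_ hb
      intro x
      have h2 : |c * Real.sin (Real.pi * x)| ≤ 1 := by
        rw [abs_mul, hc]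
        have h3 := Real.abs_sin_le_one (Real.pi * x)
        linarith
      have := (abs_le.1 h2).2
      show x + c * Real.sin (Real.pi * x) ≤ x + 1
      linarith
  obtain ⟨k, hk1⟩ := hk (1 / 4) (by norm_num)
  obtain ⟨l, hl1⟩ := hk (-(1 / 4)) (by norm_num)
  have hsin : ∀ x : ℝ, Real.sin (Real.pi * (x + 1)) = - Real.sin (Real.pi * x) := by
    intro x; rw [mul_add, mul_one, Real.sin_add_pi]
  have hkl : ∀ x, k (x + 1) = l x + 1 := by
    intro x; rw [hk1, hl1, hsin]; ring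
  have hlk : ∀ x, l (x + 1) = k x + 1 := by
    intro x; rw [hk1, hl1, hsin]; ring
  have hko : ∀ x, k (-x) = - k x := by
    intro x; rw [hk1, hk1, mul_neg, Real.sin_neg]; ring
  have hlo : ∀ x, l (-x) = - l x := by
    intro x; rw [hl1, hl1, mul_neg, Real.sin_neg]; ring
  have hkey : ∀ y, (k * l⁻¹) (l y) = k y := by
    intro y; rw [mul_app, inv_app_self]
  refine ⟨k * l⁻¹, ?_, ?_, ?_⟩
  · intro x
    -- write x = k y
    obtain ⟨y, rfl⟩ : ∃ y, x = k y := ⟨k⁻¹ x, by rw [app_inv_self]⟩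
    rw [← hlk, hkey, hkl]
    have : (k * l⁻¹)⁻¹ (k y) = l y := by
      rw [mul_inv_rev, inv_inv, mul_app, inv_app_self]
    rw [this]
  · intro x
    obtain ⟨y, rfl⟩ : ∃ y, x = l y := ⟨l⁻¹ x, by rw [app_inv_self]⟩
    rw [← hlo, hkey, hkey, hko]
  · intro x h0 h1
    obtain ⟨y, rfl⟩ : ∃ y, x = l y := ⟨l⁻¹ x, by rw [app_inv_self]⟩
    rw [hkey]
    have l0 : l 0 = 0 := by rw [hl1]; simp
    have l1 : l 1 = 1 := by rw [hl1]; simp
    have hy0 : 0 < y := by rw [← l0] at h0; exact (lt_iff l).1 h0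
    have hy1 : y < 1 := by rw [← l1] at h1; exact (lt_iff l).1 (by rwa [l1] at h1 ⊢)
    have hs : 0 < Real.sin (Real.pi * y) := by
      apply Real.sin_pos_of_pos_of_lt_pi
      · exact mul_pos Real.pi_pos hy0
      · nlinarith [Real.pi_pos]
    rw [hk1, hl1]; linarith

namespace IsS

variable {S : D} (hS : IsS S)
include hS

theorem zero : S 0 = 0 := by
  have := hS.odd 0
  simp only [neg_zero] at this
  linarith

theorem one : S 1 = 1 := by
  have h := hS.shift 0
  have h0 : S⁻¹ 0 = 0 := by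
    rw [← inj S, app_inv_self, hS.zero]
  rw [zero_add, h0, zero_add] at h
  exact h

theorem inv_zero : S⁻¹ 0 = 0 := by
  rw [← inj S, app_inv_self, hS.zero]

theorem inv_one : S⁻¹ 1 = 1 := by
  rw [← inj S, app_inv_self, hS.one]

theorem inv_shift (x : ℝ) : S⁻¹ (x + 1) = S x + 1 := by
  rw [← inj S, app_inv_self, hS.shift, inv_app_self]

theorem inv_odd (x : ℝ) : S⁻¹ (-x) = - S⁻¹ x := by
  rw [← inj S, app_inv_self, hS.odd, app_inv_self]

theorem inv_up {x : ℝ} (h0 : 0 < x) (h1 : x < 1) : S⁻¹ x < x := by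
  rw [← lt_iff S, app_inv_self]; exact hS.up x h0 h1

theorem down {x : ℝ} (h0 : x < 0) (h1 : -1 < x) : S x < x := by
  have := hS.up (-x) (by linarith) (by linarith)
  rw [hS.odd] at this; linarith

theorem inv_down {x : ℝ} (h0 : x < 0) (h1 : -1 < x) : x < S⁻¹ x := by
  have := hS.inv_up (x := -x) (by linarith) (by linarith)
  rw [hS.inv_odd] at this; linarith

theorem pos {x : ℝ} (h0 : 0 < x) : 0 < S x := by
  rw [← hS.zero]; exact (lt_iff S).2 h0

theorem inv_pos {x : ℝ} (h0 : 0 < x) : 0 < S⁻¹ x := by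
  rw [← hS.inv_zero]; exact (lt_iff S⁻¹).2 h0

theorem lt_one {x : ℝ} (h0 : x < 1) : S x < 1 := by
  have h := (lt_iff S).2 h0
  rwa [hS.one] at h

theorem inv_lt_one {x : ℝ} (h0 : x < 1) : S⁻¹ x < 1 := by
  have h := (lt_iff S⁻¹).2 h0
  rwa [hS.inv_one] at h

end IsS

/-- Orbits move past any point of an interval on which the map is above the identity. -/
theorem orbit_exceeds (v : D) (x₀ y : ℝ) (h : ∀ x, x₀ ≤ x → x ≤ y → x < v x) :
    ∃ N : ℕ, y ≤ (v ^ N) x₀ := by
  by_contra hcon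
  push Not at hcon
  have hstep : ∀ n, (v ^ (n + 1)) x₀ = v ((v ^ n) x₀) := by
    intro n; rw [pow_succ', mul_app]
  have hge : ∀ n, x₀ ≤ (v ^ n) x₀ := by
    intro n
    induction n with
    | zero => rw [pow_zero, one_app]
    | succ n ih =>
      rw [hstep]
      exact ih.trans (h _ ih (hcon n).le).le
  have hmono : Monotone fun n => (v ^ n) x₀ := by
    refine monotone_nat_of_le_succ fun n => ?_
    simp only [hstep]
    exact (h _ (hge n) (hcon n).le).le
  have hb : BddAbove (range fun n => (v ^ n) x₀) := ⟨y, by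
    rintro _ ⟨n, rfl⟩; exact (hcon n).le⟩
  have hlim := tendsto_atTop_ciSup hmono hb
  set L := ⨆ n, (v ^ n) x₀ with hL
  have h1 : Tendsto (fun n => (v ^ (n + 1)) x₀) atTop (𝓝 L) :=
    (tendsto_add_atTop_iff_nat (f := fun n => (v ^ n) x₀) 1).2 hlim
  have h2 : Tendsto (fun n => (v ^ (n + 1)) x₀) atTop (𝓝 (v L)) := by
    simp only [hstep]
    exact ((cont v).tendsto L).comp hlim
  have h3 : L = v L := tendsto_nhds_unique h1 h2
  have h4 : x₀ ≤ L := ge_of_tendsto' hlim hge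
  have h5 : L ≤ y := le_of_tendsto' hlim fun n => (hcon n).le
  exact absurd (h L h4 h5) (by rw [← h3]; exact lt_irrefl _)

/-- The correction lemma (right-moving form). -/
theorem corr {S : D} (hS : IsS S) (v : D) (c d z : ℝ) (hcd : c < d) (hzd : z < d)
    (hc : ∀ᶠ x in 𝓝 c, v x = c + S (x - c)) (hd : ∀ᶠ x in 𝓝 d, v x = d + S⁻¹ (x - d))
    (hv : ∀ x, c < x → x < d → x < v x) :
    ∃ v' Q : D, (∀ x ≤ z, v' x = v x) ∧ (∀ x, d ≤ x → v' x = v x) ∧
      (∀ᶠ x in 𝓝 d, v' x = v x) ∧ (∀ x, c < x → x < d → x < v' x) ∧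
      (∀ᶠ x in 𝓝 c, Q x = x - c) ∧ (∀ᶠ x in 𝓝 d, Q x = x - d + 1) ∧
      (∀ x, c ≤ x → x ≤ d → Q (v' x) = S (Q x)) := by
  have vc : v c = c := by
    rw [hc.self_of_nhds, sub_self, hS.zero, add_zero]
  have vd : v d = d := by
    rw [hd.self_of_nhds, sub_self, hS.inv_zero, add_zero]
  -- a point c₁
  obtain ⟨δ, hδ, hδ'⟩ := Metric.eventually_nhds_iff.1 hc
  obtain ⟨c₁, hc₁, hc₁d, hc₁1, hc₁v⟩ : ∃ c₁, c < c₁ ∧ c₁ < d ∧ c₁ < c + 1 ∧
      ∀ x, c ≤ x → x ≤ c₁ → v x = c + S (x - c) := by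
    refine ⟨c + min (min (δ / 2) ((d - c) / 2)) (1 / 2), ?_, ?_, ?_, ?_⟩
    · have : 0 < min (min (δ / 2) ((d - c) / 2)) (1 / 2) :=
        lt_min (lt_min (by linarith) (by linarith)) (by norm_num)
      linarith
    · have : min (min (δ / 2) ((d - c) / 2)) (1 / 2) ≤ (d - c) / 2 :=
        le_trans (min_le_left _ _) (min_le_right _ _)
      linarith
    · have : min (min (δ / 2) ((d - c) / 2)) (1 / 2) ≤ 1 / 2 := min_le_right _ _
      linarith
    · intro x h1 h2
      have : min (min (δ / 2) ((d - c) / 2)) (1 / 2) ≤ δ / 2 :=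
        le_trans (min_le_left _ _) (min_le_left _ _)
      apply hδ'
      rw [Real.dist_eq, abs_lt]; constructor <;> linarith
  set t₁ : ℝ := max z c₁ with ht₁
  have ht₁d : t₁ < d := max_lt hzd hc₁d
  have hct₁ : c < t₁ := lt_of_lt_of_le hc₁ (le_max_right _ _)
  set z' : ℝ := (t₁ + d) / 2 with hz'
  have hz'1 : t₁ < z' := by rw [hz']; linarith
  have hz'd : z' < d := by rw [hz']; linarith
  have hcz' : c < z' := hct₁.trans hz'1
  have hvz' : z' < v z' := hv z' hcz' hz'd
  have hvz'd : v z' < d := by rw [← vd]; exact (lt_iff v).2 hz'd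
  obtain ⟨N, hN⟩ := orbit_exceeds v c₁ (v z') (by
    intro x h1 h2
    exact hv x (by linarith) (by linarith))
  obtain ⟨T, hT⟩ := exists_trans (-c)
  set Q₀ : D := S ^ N * T * (v ^ N)⁻¹ with hQ₀
  have hQ₀app : ∀ x, Q₀ x = (S ^ N) (T ((v ^ N)⁻¹ x)) := fun x => rfl
  have hvNc : ∀ n : ℕ, (v ^ n) c = c := by
    intro n
    induction n with
    | zero => rfl
    | succ n ih => rw [pow_succ', mul_app, ih, vc]
  have hvNc' : (v ^ N)⁻¹ c = c := by
    rw [← inj (v ^ N), app_inv_self, hvNc]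
  have hSN1 : ∀ n : ℕ, (S ^ n) 1 = 1 := by
    intro n
    induction n with
    | zero => rfl
    | succ n ih => rw [pow_succ', mul_app, ih, hS.one]
  -- the relation
  have hrel : ∀ x, c ≤ x → x ≤ v z' → Q₀ (v x) = S (Q₀ x) := by
    intro x h1 h2
    rw [hQ₀app, hQ₀app]
    have e1 : (v ^ N)⁻¹ (v x) = v ((v ^ N)⁻¹ x) := by
      have : (v ^ N)⁻¹ * v = v * (v ^ N)⁻¹ := by
        have hcomm : Commute (v ^ N) v := (Commute.refl v).pow_left N
        exact hcomm.inv_left.eq
      rw [← mul_app, this, mul_app]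
    have hy1 : c ≤ (v ^ N)⁻¹ x := by
      rw [← hvNc']; exact (le_iff _).2 h1
    have hy2 : (v ^ N)⁻¹ x ≤ c₁ := by
      rw [← le_iff (v ^ N), app_inv_self]; exact h2.trans hN
    rw [e1, hc₁v _ hy1 hy2]
    have e2 : T (c + S ((v ^ N)⁻¹ x - c)) = S (T ((v ^ N)⁻¹ x)) := by
      rw [hT, hT, ← sub_eq_add_neg, ← sub_eq_add_neg]; ring
    rw [e2]
    have e3 : S ^ N * S = S * S ^ N := by rw [← pow_succ, pow_succ']
    rw [← mul_app, e3, mul_app]
  have hQ₀lt : Q₀ (v z') < 1 := by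
    rw [hQ₀app]
    have h1 : (v ^ N)⁻¹ (v z') ≤ c₁ := by
      rw [← le_iff (v ^ N), app_inv_self]; exact hN
    have h2 : T ((v ^ N)⁻¹ (v z')) < 1 := by rw [hT]; linarith
    rw [← hSN1 N]
    exact (lt_iff _).2 h2
  -- near c
  have hnear : ∀ n : ℕ, ∀ᶠ y in 𝓝 c, (v ^ n) y = c + (S ^ n) (y - c) := by
    intro n
    induction n with
    | zero =>
      refine Eventually.of_forall fun y => ?_
      rw [pow_zero, pow_zero, one_app, one_app]; ring
    | succ n ih =>
      have htend : Tendsto (fun y => (v ^ n) y) (𝓝 c) (𝓝 c) := by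
        have := (cont (v ^ n)).tendsto c
        rwa [hvNc n] at this
      filter_upwards [ih, htend.eventually hc] with y h1 h2
      rw [pow_succ', mul_app, h2, h1, pow_succ', mul_app]
      congr 2; ring
  have hQ₀c : ∀ᶠ x in 𝓝 c, Q₀ x = x - c := by
    have htend : Tendsto (fun x => (v ^ N)⁻¹ x) (𝓝 c) (𝓝 c) := by
      have := (cont (v ^ N)⁻¹).tendsto c
      rwa [hvNc'] at this
    filter_upwards [htend.eventually (hnear N)] with x hx
    rw [app_inv_self] at hx
    rw [hQ₀app, hT, ← sub_eq_add_neg]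
    linarith
  -- the interpolation
  obtain ⟨T', hT'⟩ := exists_trans (1 - d)
  set ε : ℝ := min (d - v z') (1 - Q₀ (v z')) / 2 with hε
  have hε0 : 0 < ε := by
    rw [hε]; exact half_pos (lt_min (by linarith) (by linarith))
  have hε1 : ε < d - v z' := by
    have := min_le_left (d - v z') (1 - Q₀ (v z'))
    rw [hε] at hε0 ⊢; linarith
  have hε2 : ε < 1 - Q₀ (v z') := by
    have := min_le_right (d - v z') (1 - Q₀ (v z'))
    rw [hε] at hε0 ⊢; linarith
  obtain ⟨Q, hQ1, hQ2⟩ := interp Q₀ T' (v z') (d - ε) (by linarith) (by rw [hT']; linarith)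
  have hQd : ∀ᶠ x in 𝓝 d, Q x = x - d + 1 := by
    filter_upwards [Ioi_mem_nhds (show d - ε < d by linarith)] with x hx
    rw [hQ2 x (le_of_lt hx), hT']; ring
  have hQc : ∀ᶠ x in 𝓝 c, Q x = x - c := by
    filter_upwards [hQ₀c, Iio_mem_nhds (hcz'.trans hvz')] with x h1 h2
    rw [hQ1 x (le_of_lt h2), h1]
  have hQcc : Q c = 0 := by rw [hQc.self_of_nhds, sub_self]
  have hQdd : Q d = 1 := by rw [hQd.self_of_nhds, sub_self, zero_add]
  set v'' : D := Q⁻¹ * S * Q with hv''
  have hv''app : ∀ x, v'' x = Q⁻¹ (S (Q x)) := fun x => rfl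
  have hv''1 : ∀ x, c ≤ x → x ≤ z' → v'' x = v x := by
    intro x h1 h2
    rw [hv''app, ← inj Q, app_inv_self, hQ1 x (by linarith),
      hQ1 (v x) ((le_iff v).2 h2), hrel x h1 (by linarith)]
  have hv''2 : ∀ᶠ x in 𝓝 d, v'' x = v x := by
    have htend : Tendsto (fun x => v x) (𝓝 d) (𝓝 d) := by
      have := (cont v).tendsto d
      rwa [vd] at this
    filter_upwards [hd, hQd, htend.eventually hQd] with x h1 h2 h3
    rw [hv''app, ← inj Q, app_inv_self, h2, h3, hS.shift, h1]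
    ring
  obtain ⟨A, hA1, hA2⟩ := glue v v'' t₁ (by
    filter_upwards [Ioo_mem_nhds hct₁ hz'1] with x hx
    exact (hv''1 x hx.1.le hx.2.le).symm)
  obtain ⟨B, hB1, hB2⟩ := glue A v d (by
    filter_upwards [hv''2, Ioi_mem_nhds ht₁d] with x h1 h2
    rw [hA2 x (le_of_lt h2), h1])
  have hBv'' : ∀ x, c ≤ x → x ≤ d → B x = v'' x := by
    intro x h1 h2
    rw [hB1 x h2]
    rcases le_total x t₁ with h3 | h3
    · rw [hA1 x h3, hv''1 x h1 (by linarith)]
    · rw [hA2 x h3]
  refine ⟨B, Q, ?_, hB2, ?_, ?_, hQc, hQd, ?_⟩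
  · intro x hx
    have hx' : x ≤ t₁ := hx.trans (le_max_left _ _)
    rw [hB1 x (by linarith), hA1 x hx']
  · filter_upwards [hv''2, Ioi_mem_nhds ht₁d] with x h1 h2
    rcases le_total x d with h3 | h3
    · rw [hB1 x h3, hA2 x (le_of_lt h2), h1]
    · rw [hB2 x h3]
  · intro x h1 h2
    rw [hBv'' x h1.le h2.le, hv''app, ← lt_iff Q, app_inv_self]
    apply hS.up
    · rw [← hQcc]; exact (lt_iff Q).2 h1
    · rw [← hQdd]; exact (lt_iff Q).2 h2
  · intro x h1 h2
    rw [hBv'' x h1 h2, hv''app, app_inv_self]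

/-- The correction lemma (left-moving form). -/
theorem corr' {S : D} (hS : IsS S) (v : D) (c d z : ℝ) (hcd : c < d) (hzd : z < d)
    (hc : ∀ᶠ x in 𝓝 c, v x = c + S⁻¹ (x - c)) (hd : ∀ᶠ x in 𝓝 d, v x = d + S (x - d))
    (hv : ∀ x, c < x → x < d → v x < x) :
    ∃ v' Q : D, (∀ x ≤ z, v' x = v x) ∧ (∀ x, d ≤ x → v' x = v x) ∧
      (∀ᶠ x in 𝓝 d, v' x = v x) ∧ (∀ x, c < x → x < d → v' x < x) ∧
      (∀ᶠ x in 𝓝 c, Q x = x - c) ∧ (∀ᶠ x in 𝓝 d, Q x = x - d + 1) ∧
      (∀ x, c ≤ x → x ≤ d → Q (v' x) = S⁻¹ (Q x)) := by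
  have vc : v c = c := by
    rw [hc.self_of_nhds, sub_self, hS.inv_zero, add_zero]
  have vd : v d = d := by
    rw [hd.self_of_nhds, sub_self, hS.zero, add_zero]
  have vc' : v⁻¹ c = c := by rw [← inj v, app_inv_self, vc]
  have vd' : v⁻¹ d = d := by rw [← inj v, app_inv_self, vd]
  have hc' : ∀ᶠ x in 𝓝 c, v⁻¹ x = c + S (x - c) := by
    have htend : Tendsto (fun x => v⁻¹ x) (𝓝 c) (𝓝 c) := by
      have := (cont v⁻¹).tendsto c
      rwa [vc'] at this
    filter_upwards [htend.eventually hc] with x hx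
    rw [app_inv_self] at hx
    have h1 : x - c = S⁻¹ (v⁻¹ x - c) := by linarith
    rw [h1, app_inv_self]; ring
  have hd' : ∀ᶠ x in 𝓝 d, v⁻¹ x = d + S⁻¹ (x - d) := by
    have htend : Tendsto (fun x => v⁻¹ x) (𝓝 d) (𝓝 d) := by
      have := (cont v⁻¹).tendsto d
      rwa [vd'] at this
    filter_upwards [htend.eventually hd] with x hx
    rw [app_inv_self] at hx
    have h1 : x - d = S (v⁻¹ x - d) := by linarith
    rw [h1, inv_app_self]; ring
  obtain ⟨w, Q, h1, h2, h3, h4, h5, h6, h7⟩ := corr hS v⁻¹ c d (v z) hcd (by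
    rw [← vd]; exact (lt_iff v).2 hzd) hc' hd' (by
    intro x hx1 hx2
    have a1 : c < v⁻¹ x := by rw [← vc']; exact (lt_iff _).2 hx1
    have a2 : v⁻¹ x < d := by
      have := (lt_iff v⁻¹).2 hx2
      rwa [vd'] at this
    have := hv _ a1 a2
    rwa [app_inv_self] at this)
  have wc : w c = c := by
    by_cases hzc : c ≤ v z
    · rw [h1 c hzc, vc']
    · -- use the relation
      have := h7 c le_rfl hcd.le
      rw [h5.self_of_nhds, sub_self, hS.zero] at this
      have hQc : Q c = 0 := by rw [h5.self_of_nhds, sub_self]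
      rw [← hQc, inj Q] at this
      exact this
  have wd : w d = d := by rw [h2 d le_rfl, vd']
  have wd' : w⁻¹ d = d := by rw [← inj w, app_inv_self, wd]
  have wc' : w⁻¹ c = c := by rw [← inj w, app_inv_self, wc]
  refine ⟨w⁻¹, Q, ?_, ?_, ?_, ?_, h5, h6, ?_⟩
  · intro x hx
    rw [← inj w, app_inv_self, h1 _ ((le_iff v).2 hx), inv_app_self]
  · intro x hx
    have : d ≤ v x := by rw [← vd]; exact (le_iff v).2 hx
    rw [← inj w, app_inv_self, h2 _ this, inv_app_self]
  · have htend : Tendsto (fun x => v x) (𝓝 d) (𝓝 d) := by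
      have := (cont v).tendsto d
      rwa [vd] at this
    filter_upwards [htend.eventually h3] with x hx
    rw [← inj w, app_inv_self, hx, inv_app_self]
  · intro x hx1 hx2
    have a1 : c < w⁻¹ x := by rw [← wc']; exact (lt_iff _).2 hx1
    have a2 : w⁻¹ x < d := by
      have := (lt_iff w⁻¹).2 hx2
      rwa [wd'] at this
    have := h4 _ a1 a2
    rwa [app_inv_self] at this
  · intro x hx1 hx2
    have a1 : c ≤ w⁻¹ x := by rw [← wc']; exact (le_iff _).2 hx1
    have a2 : w⁻¹ x ≤ d := by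
      have := (le_iff w⁻¹).2 hx2
      rwa [wd'] at this
    have := h7 _ a1 a2
    rw [app_inv_self] at this
    rw [this, inv_app_self]

end RevLine
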