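import Mathlib

open scoped ContDiff

/-- The group `Diffeo⁺(ℝ)` of order-preserving `C^∞` diffeomorphisms of the real line, as a
subgroup of the group of all permutations of `ℝ` under composition. -/
def DiffeoPlus : Subgroup (Equiv.Perm ℝ) where
  carrier := {f | ContDiff ℝ ∞ (f : ℝ → ℝ) ∧ ContDiff ℝ ∞ (f.symm : ℝ → ℝ) ∧
    StrictMono (f : ℝ → ℝ)}
  mul_mem' := by
    rintro f g ⟨hf, hf', hfm⟩ ⟨hg, hg', hgm⟩
    exact ⟨hf.comp hg, hg'.comp hf', hfm.comp hgm⟩
  one_mem' := ⟨contDiff_id, contDiff_id, strictMono_id⟩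
  inv_mem' := by
    rintro f ⟨hf, hf', hfm⟩
    refine ⟨hf', hf, ?_⟩
    intro x y hxy
    by_contra h
    have h1 : f.symm y ≤ f.symm x := not_lt.1 h
    have h2 := hfm.monotone h1
    simp only [Equiv.apply_symm_apply] at h2
    exact absurd hxy (not_lt.2 h2)
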