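import Pool.Agent.Helper47.RevCorr

open scoped ContDiff Topology
open Filter Set

namespace RevLine

/-- The pair `u`, `w = f u` has left its last fixed points `a`, `b` upwards. -/
structure Up (S f u : D) (a b p : ℝ) : Prop where
  hap : a < p
  hbp : b < p
  ga : ∀ᶠ x in 𝓝 a, u x = a + S (x - a)
  gb : ∀ᶠ x in 𝓝 b, f (u x) = b + S (x - b)
  ua : ∀ x, a < x → x ≤ p → x < u x
  wb : ∀ x, b < x → x ≤ p → x < f (u x)

/-- The pair `u`, `w = f u` has left its last fixed points `a`, `b` downwards. -/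
structure Dn (S f u : D) (a b p : ℝ) : Prop where
  hap : a < p
  hbp : b < p
  ga : ∀ᶠ x in 𝓝 a, u x = a + S⁻¹ (x - a)
  gb : ∀ᶠ x in 𝓝 b, f (u x) = b + S⁻¹ (x - b)
  ua : ∀ x, a < x → x ≤ p → u x < x
  wb : ∀ x, b < x → x ≤ p → f (u x) < x

/-- `Q` conjugates `v` to `R` on `[c, d]` with standard germs at the ends. -/
structure Seg (R v Q : D) (c d : ℝ) : Prop where
  gc : ∀ᶠ x in 𝓝 c, Q x = x - c
  gd : ∀ᶠ x in 𝓝 d, Q x = x - d + 1
  rel : ∀ x, c ≤ x → x ≤ d → Q (v x) = R (Q x)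

theorem exists_model (g : D) (c : ℝ) : ∃ A : D, ∀ x, A x = c + g (x - c) := by
  obtain ⟨T, hT⟩ := exists_trans (-c)
  obtain ⟨T', hT'⟩ := exists_trans c
  refine ⟨T' * g * T, fun x => ?_⟩
  rw [mul_app, mul_app, hT', hT, ← sub_eq_add_neg, add_comm]

/-- Initial configuration near a point where `f` is below the identity. -/
theorem init {S : D} (hS : IsS S) (f : D) (a δ : ℝ) (hfa : f a < a) (hδ : 0 < δ) :
    ∃ u₀ : D, ∃ b p' : ℝ, a < b ∧ b < p' ∧ p' < a + δ ∧
      (∀ x ≤ a, u₀ x = a + S (x - a)) ∧ (∀ᶠ x in 𝓝 a, u₀ x = a + S (x - a)) ∧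
      (∀ x, a < x → x ≤ p' → x < u₀ x) ∧ (∀ᶠ x in 𝓝 b, f (u₀ x) = b + S (x - b)) ∧
      (∀ x, a ≤ x → x < b → f (u₀ x) < x) ∧ (∀ x, b < x → x ≤ p' → x < f (u₀ x)) := by
  have hFa : a < f⁻¹ a := by rw [← lt_iff f, app_inv_self]; exact hfa
  have cS : Continuous (S : ℝ → ℝ) := cont S
  have cF : Continuous (f⁻¹ : D) := cont f⁻¹
  have hev : ∀ᶠ ε in 𝓝 (0 : ℝ),
      a + ε + (ε + S ε) / 2 < f⁻¹ (a + ε + (ε + S ε) / 2 - S ε) ∧
      a + S ε < f⁻¹ (a + ε + (ε + S ε) / 2 - S ε) ∧ a + S ε < f⁻¹ a ∧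
      a + ε + (ε + S ε) / 2 < a + δ ∧ ε < 1 / 2 := by
    have c1 : Continuous fun ε : ℝ => a + ε + (ε + S ε) / 2 := by fun_prop
    have c2 : Continuous fun ε : ℝ => f⁻¹ (a + ε + (ε + S ε) / 2 - S ε) := by
      exact cF.comp (c1.sub cS)
    have c3 : Continuous fun ε : ℝ => a + S ε := by fun_prop
    refine (c1.continuousAt.eventually_lt c2.continuousAt ?_).and
      ((c3.continuousAt.eventually_lt c2.continuousAt ?_).and
      ((c3.continuousAt.eventually_lt continuousAt_const ?_).and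
      ((c1.continuousAt.eventually_lt continuousAt_const ?_).and
      (Iio_mem_nhds (by norm_num)))))
    · simp only [hS.zero]; simpa using hFa
    · simp only [hS.zero]; simpa using hFa
    · simp only [hS.zero]; simpa using hFa
    · simp only [hS.zero]; simpa using hδ
  obtain ⟨d, hd, hd'⟩ := Metric.eventually_nhds_iff.1 hev
  obtain ⟨h1, h2, h3, h4, h5⟩ := hd' (y := d / 2) (by
    rw [Real.dist_eq, abs_lt]; constructor <;> linarith)
  set ε : ℝ := d / 2 with hε
  have hε0 : 0 < ε := by rw [hε]; linarith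
  set b : ℝ := a + ε + (ε + S ε) / 2 with hb
  have hSε : ε < S ε := hS.up ε hε0 (by linarith)
  obtain ⟨α, hα⟩ := exists_model S a
  obtain ⟨β', hβ'⟩ := exists_model S b
  set β : D := f⁻¹ * β' with hβ
  have hβapp : ∀ x, β x = f⁻¹ (b + S (x - b)) := by
    intro x; rw [hβ, mul_app, hβ']
  have hαe : α (a + ε) = a + S ε := by rw [hα]; congr 2; ring
  have hβe : β (b - ε) = f⁻¹ (b - S ε) := by
    rw [hβapp]; congr 1
    have : b - ε - b = -ε := by ring
    rw [this, hS.odd]; ring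
  have hab : a + ε < b - ε := by rw [hb]; linarith
  obtain ⟨u₀, hu1, hu2⟩ := interp α β (a + ε) (b - ε) hab (by rw [hαe, hβe]; exact h2)
  set m : ℝ := min (min (b + 1) (f⁻¹ (b - S ε))) (a + δ) with hm
  have hbm : b < m := by
    rw [hm]; exact lt_min (lt_min (by linarith) h1) h4
  have hm1 : m ≤ b + 1 := (min_le_left _ _).trans (min_le_left _ _)
  have hm2 : m ≤ f⁻¹ (b - S ε) := (min_le_left _ _).trans (min_le_right _ _)
  have hm3 : m ≤ a + δ := min_le_right _ _
  refine ⟨u₀, b, (b + m) / 2, by linarith, by linarith, by linarith, ?_, ?_, ?_, ?_, ?_, ?_⟩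
  · intro x hx; rw [hu1 x (by linarith), hα]
  · filter_upwards [Iio_mem_nhds (show a < a + ε by linarith)] with x hx
    rw [hu1 x (le_of_lt hx), hα]
  · intro x hx1 hx2
    rcases le_total x (a + ε) with h6 | h6
    · rw [hu1 x h6, hα]
      have := hS.up (x - a) (by linarith) (by linarith)
      linarith
    · rcases le_total x (b - ε) with h7 | h7
      · have : α (a + ε) ≤ u₀ x := by
          rw [← hu1 (a + ε) le_rfl]; exact (le_iff u₀).2 h6
        rw [hαe] at this
        have h8 : b - ε < a + S ε := by rw [hb]; linarith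
        linarith
      · have : β (b - ε) ≤ u₀ x := by
          rw [← hu2 (b - ε) le_rfl]; exact (le_iff u₀).2 h7
        rw [hβe] at this
        linarith
  · filter_upwards [Ioi_mem_nhds (show b - ε < b by linarith)] with x hx
    rw [hu2 x (le_of_lt hx), hβapp, app_inv_self]
  · intro x hx1 hx2
    rcases le_total x (a + ε) with h6 | h6
    · have : u₀ x ≤ α (a + ε) := by
        rw [← hu1 (a + ε) le_rfl]; exact (le_iff u₀).2 h6
      rw [hαe] at this
      have h8 : f⁻¹ a ≤ f⁻¹ x := (le_iff _).2 hx1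
      have h9 : u₀ x < f⁻¹ x := by linarith
      rwa [← lt_iff f, app_inv_self] at h9
    · rcases le_total x (b - ε) with h7 | h7
      · have : u₀ x ≤ β (b - ε) := by
          rw [← hu2 (b - ε) le_rfl]; exact (le_iff u₀).2 h7
        rw [hβe] at this
        have h8 : f⁻¹ (b - S ε) < f⁻¹ x := (lt_iff _).2 (by rw [hb]; linarith)
        have h9 : u₀ x < f⁻¹ x := by linarith
        rwa [← lt_iff f, app_inv_self] at h9
      · rw [hu2 x h7, hβapp, app_inv_self]
        have := hS.down (x := x - b) (by linarith) (by linarith)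
        linarith
  · intro x hx1 hx2
    rw [hu2 x (by linarith), hβapp, app_inv_self]
    have := hS.up (x - b) (by linarith) (by linarith)
    linarith

theorem ustep {S : D} (hS : IsS S) (f u : D) (a₀ b₀ p M : ℝ) (h : Dn S f u a₀ b₀ p)
    (hf : ∃ᶠ x in atTop, f x < x) :
    ∃ u' Q P : D, ∃ a b p' : ℝ, M ≤ p' ∧ p < a ∧ p < b ∧ p < p' ∧ (∀ x ≤ p, u' x = u x) ∧
      Up S f u' a b p' ∧ Seg S⁻¹ u' Q a₀ a ∧ Seg S⁻¹ (f * u') P b₀ b := by
  obtain ⟨a, hfa, haB⟩ := (hf.and_eventually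
    (eventually_gt_atTop (f⁻¹ (max (p + 1) M)))).exists
  have hfaB : max (p + 1) M < f a := by
    rw [← lt_iff f, app_inv_self] at haB; exact haB
  have hfap : p + 1 < f a := (le_max_left _ _).trans_lt hfaB
  have hfaM : M < f a := (le_max_right _ _).trans_lt hfaB
  obtain ⟨u₀, b, p', hab, hbp', hp'1, hu0a, hu0g, hu0u, hu0b, hu0w, hu0w'⟩ :=
    init hS f a 1 hfa one_pos
  have hFa : a < f⁻¹ a := by rw [← lt_iff f, app_inv_self]; exact hfa
  have hFev : ∀ᶠ x in 𝓝 a, x < f⁻¹ x :=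
    continuousAt_id.eventually_lt (cont f⁻¹).continuousAt hFa
  obtain ⟨δ₁, hδ₁, hδ₁'⟩ := Metric.eventually_nhds_iff.1 hFev
  have hev : ∀ᶠ ε in 𝓝 (0 : ℝ), S ε < min δ₁ (min (a - p) (a - f a)) := by
    refine (cont S).continuousAt.eventually_lt continuousAt_const ?_
    rw [hS.zero]
    exact lt_min hδ₁ (lt_min (by linarith) (by linarith))
  obtain ⟨d, hd, hd'⟩ := Metric.eventually_nhds_iff.1 hev
  set ε : ℝ := min (d / 2) (1 / 2) with hε
  have hε0 : 0 < ε := lt_min (by linarith) (by norm_num)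
  have hεd : ε ≤ d / 2 := min_le_left _ _
  have hε1 : ε ≤ 1 / 2 := min_le_right _ _
  have hSmin : S ε < min δ₁ (min (a - p) (a - f a)) := hd' (by
    rw [Real.dist_eq, abs_lt]; constructor <;> linarith)
  have hSδ : S ε < δ₁ := hSmin.trans_le (min_le_left _ _)
  have hSp : S ε < a - p := hSmin.trans_le ((min_le_right _ _).trans (min_le_left _ _))
  have hSf : S ε < a - f a := hSmin.trans_le ((min_le_right _ _).trans (min_le_right _ _))
  have hεS : ε < S ε := hS.up ε hε0 (by linarith)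
  have hFbig : ∀ x, a - S ε ≤ x → x ≤ a → x < f⁻¹ x := by
    intro x h1 h2
    apply hδ₁'
    rw [Real.dist_eq, abs_lt]; constructor <;> linarith
  have hup : u p < p := h.ua p h.hap le_rfl
  have hupF : u p < f⁻¹ p := by
    rw [← lt_iff f, app_inv_self]; exact h.wb p h.hbp le_rfl
  set q : ℝ := (u p + min p (f⁻¹ p)) / 2 with hq
  have hqmin : u p < min p (f⁻¹ p) := lt_min hup hupF
  have hq1 : u p < q := by rw [hq]; linarith
  have hqp : q < p := by
    have := min_le_left p (f⁻¹ p)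
    rw [hq]; linarith
  have hqF : q < f⁻¹ p := by
    have := min_le_right p (f⁻¹ p)
    rw [hq]; linarith
  have hu0e : u₀ (a - ε) = a - S ε := by
    rw [hu0a _ (by linarith)]
    have : a - ε - a = -ε := by ring
    rw [this, hS.odd]; ring
  obtain ⟨u₁, hu1, hu1q, hu1'⟩ := interp3 u u₀ p (a - (ε + S ε) / 2) (a - ε) q
    (by linarith) (by linarith) hq1 (by rw [hu0e]; linarith)
  set r : ℝ := a - (ε + S ε) / 2 with hr
  -- properties on `(p, a]`
  have P1 : ∀ x, p < x → x < a → u₁ x < x := by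
    intro x h1 h2
    rcases le_total x r with h3 | h3
    · have : u₁ x ≤ u₁ r := (le_iff u₁).2 h3
      rw [hu1q] at this; linarith
    · rcases le_total x (a - ε) with h4 | h4
      · have : u₁ x ≤ u₁ (a - ε) := (le_iff u₁).2 h4
        rw [hu1' _ le_rfl, hu0e] at this
        linarith
      · rw [hu1' x h4, hu0a x h2.le]
        have := hS.down (x := x - a) (by linarith) (by linarith)
        linarith
  have P2 : ∀ x, p < x → x ≤ a → f (u₁ x) < x := by
    intro x h1 h2
    rw [← lt_iff f⁻¹, inv_app_self]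
    rcases le_total x r with h3 | h3
    · have : u₁ x ≤ u₁ r := (le_iff u₁).2 h3
      rw [hu1q] at this
      have h5 : f⁻¹ p < f⁻¹ x := (lt_iff _).2 h1
      linarith
    · have h6 := hFbig x (by linarith) h2
      rcases eq_or_lt_of_le h2 with h7 | h7
      · have h8 : u₁ x = x := by
          rw [hu1' x (by linarith), h7, hu0a a le_rfl, sub_self, hS.zero, add_zero]
        rw [h8]; exact h6
      · have := P1 x h1 h7; linarith
  have P3 : ∀ x, a ≤ x → u₁ x = u₀ x := fun x hx => hu1' x (by linarith)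
  have P3' : ∀ᶠ x in 𝓝 a, u₁ x = u₀ x := by
    filter_upwards [Ioi_mem_nhds (show a - ε < a by linarith)] with x hx
    exact hu1' x (le_of_lt hx)
  -- first correction
  have hap0 : a₀ < p := h.hap
  have hbp0 : b₀ < p := h.hbp
  obtain ⟨u₂, Q, A1, A2, A3, A4, A5, A6, A7⟩ := corr' hS u₁ a₀ a (a - ε) (by linarith)
    (by linarith) (by
      filter_upwards [h.ga, Iio_mem_nhds hap0] with x h1 h2
      rw [hu1 x (le_of_lt h2), h1]) (by
      filter_upwards [P3', hu0g] with x h1 h2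
      rw [h1, h2]) (by
      intro x h1 h2
      rcases le_or_gt x p with h3 | h3
      · rw [hu1 x h3]; exact h.ua x h1 h3
      · exact P1 x h3 h2)
  have hu₂a : u₂ a = a := by
    rw [A2 a le_rfl, P3 a le_rfl, hu0a a le_rfl, sub_self, hS.zero, add_zero]
  have w2lt : ∀ x, b₀ < x → x < b → f (u₂ x) < x := by
    intro x h1 h2
    rcases le_or_gt x (a - ε) with h3 | h3
    · rw [A1 x h3]
      rcases le_or_gt x p with h4 | h4
      · rw [hu1 x h4]; exact h.wb x h1 h4
      · exact P2 x h4 (by linarith)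
    · rcases lt_or_ge x a with h4 | h4
      · have h5 : u₂ x < a := by rw [← hu₂a]; exact (lt_iff u₂).2 h4
        have h6 : f (u₂ x) < f a := (lt_iff f).2 h5
        linarith
      · rw [A2 x h4, P3 x h4]; exact hu0w x h4 h2
  have hu₂b : b < u₂ b := by
    rw [A2 b hab.le, P3 b hab.le]; exact hu0u b hab hbp'.le
  have hzb : ∀ᶠ x in 𝓝 b, b < u₂ x :=
    continuousAt_const.eventually_lt (cont u₂).continuousAt hu₂b
  obtain ⟨z, hz1, hz2, hz3⟩ : ∃ z, a < z ∧ z < b ∧ b < u₂ z := by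
    obtain ⟨d₂, hd₂, hd₂'⟩ := Metric.eventually_nhds_iff.1 hzb
    refine ⟨b - min (d₂ / 2) ((b - a) / 2), ?_, ?_, ?_⟩
    · have := min_le_right (d₂ / 2) ((b - a) / 2)
      linarith
    · have : 0 < min (d₂ / 2) ((b - a) / 2) := lt_min (by linarith) (by linarith)
      linarith
    · apply hd₂'
      have h1 : 0 < min (d₂ / 2) ((b - a) / 2) := lt_min (by linarith) (by linarith)
      have h2 := min_le_left (d₂ / 2) ((b - a) / 2)
      rw [Real.dist_eq, abs_lt]; constructor <;> linarith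
  -- second correction
  obtain ⟨w₃, P, B1, B2, B3, B4, B5, B6, B7⟩ := corr' hS (f * u₂) b₀ b z (by linarith)
    hz2 (by
      filter_upwards [h.gb, Iio_mem_nhds hbp0] with x h1 h2
      have h3 : x < p := h2
      rw [mul_app, A1 x (by linarith), hu1 x h3.le, h1]) (by
      filter_upwards [hu0b, Ioi_mem_nhds hab] with x h1 h2
      have h3 : a < x := h2
      rw [mul_app, A2 x h3.le, P3 x h3.le, h1]) (by
      intro x h1 h2
      rw [mul_app]; exact w2lt x h1 h2)
  have hfu3 : ∀ x, f ((f⁻¹ * w₃) x) = w₃ x := fun x => by rw [mul_app, app_inv_self]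
  have E1 : ∀ x ≤ z, (f⁻¹ * w₃) x = u₂ x := by
    intro x hx; rw [mul_app, B1 x hx, mul_app, inv_app_self]
  have E2 : ∀ x, b ≤ x → (f⁻¹ * w₃) x = u₂ x := by
    intro x hx; rw [mul_app, B2 x hx, mul_app, inv_app_self]
  refine ⟨f⁻¹ * w₃, Q, P, a, b, p', by linarith, by linarith, by linarith, by linarith,
    ?_, ⟨by linarith, hbp', ?_, ?_, ?_, ?_⟩, ⟨A5, A6, ?_⟩, ⟨B5, B6, ?_⟩⟩
  · intro x hx
    rw [E1 x (by linarith), A1 x (by linarith), hu1 x hx]
  · filter_upwards [A3, P3', hu0g, Iio_mem_nhds hz1] with x h1 h2 h3 h4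
    rw [E1 x (le_of_lt h4), h1, h2, h3]
  · filter_upwards [B3, hu0b, Ioi_mem_nhds hab] with x h1 h2 h3
    have h4 : a < x := h3
    rw [hfu3, h1, mul_app, A2 x h4.le, P3 x h4.le, h2]
  · intro x h1 h2
    rcases le_or_gt x z with h3 | h3
    · rw [E1 x h3, A2 x h1.le, P3 x h1.le]; exact hu0u x h1 h2
    · rcases lt_or_ge x b with h4 | h4
      · have h5 : (f⁻¹ * w₃) z < (f⁻¹ * w₃) x := (lt_iff _).2 h3
        rw [E1 z le_rfl] at h5
        linarith
      · rw [E2 x h4, A2 x h1.le, P3 x h1.le]; exact hu0u x h1 h2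
  · intro x h1 h2
    rw [E2 x h1.le, A2 x (by linarith), P3 x (by linarith)]
    exact hu0w' x h1 h2
  · intro x h1 h2
    rw [E1 x (by linarith)]; exact A7 x h1 h2
  · intro x h1 h2
    rw [mul_app, hfu3]; exact B7 x h1 h2

theorem dstep {S : D} (hS : IsS S) (f u : D) (a₀ b₀ p M : ℝ) (h : Up S f u a₀ b₀ p)
    (hf : ∃ᶠ x in atTop, f x < x) :
    ∃ u' Q P : D, ∃ a b p' : ℝ, M ≤ p' ∧ p < a ∧ p < b ∧ p < p' ∧ (∀ x ≤ p, u' x = u x) ∧
      Dn S f u' a b p' ∧ Seg S u' Q a₀ a ∧ Seg S (f * u') P b₀ b := by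
  obtain ⟨a, hfa, haB⟩ := (hf.and_eventually
    (eventually_gt_atTop (f⁻¹ (f⁻¹ (max (max (p + 1) (u p)) M))))).exists
  have hffa : max (max (p + 1) (u p)) M < f (f a) := by
    rw [← lt_iff f, app_inv_self, ← lt_iff f, app_inv_self] at haB; exact haB
  have hff1 : p + 1 < f (f a) :=
    ((le_max_left _ _).trans (le_max_left _ _)).trans_lt hffa
  have hff2 : u p < f (f a) :=
    ((le_max_right _ _).trans (le_max_left _ _)).trans_lt hffa
  have hff3 : M < f (f a) := (le_max_right _ _).trans_lt hffa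
  have hap0 : a₀ < p := h.hap
  have hbp0 : b₀ < p := h.hbp
  set e : ℝ := min (1 / 2) ((a - f a) / 2) with he
  have he0 : 0 < e := lt_min (by norm_num) (by linarith)
  have he1 : e ≤ 1 / 2 := min_le_left _ _
  have he2 : e ≤ (a - f a) / 2 := min_le_right _ _
  set s : ℝ := S⁻¹ e with hs
  have hs0 : 0 < s := hS.inv_pos he0
  have hse : s < e := hS.inv_up he0 (by linarith)
  set r : ℝ := (s + e) / 2 with hr
  set b : ℝ := f (a - r) with hb
  have hFb : f⁻¹ b = a - r := by rw [hb, inv_app_self]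
  have hbfa : b < f a := (lt_iff f).2 (by linarith)
  have hffb : f (f a) < b := (lt_iff f).2 (by linarith)
  have hbF : b < f⁻¹ b := by rw [hFb]; linarith
  -- the choice of ε
  have hev : ∀ᶠ x in 𝓝 b, b < f⁻¹ x :=
    continuousAt_const.eventually_lt (cont f⁻¹).continuousAt hbF
  obtain ⟨d₁, hd₁, hd₁'⟩ := Metric.eventually_nhds_iff.1 hev
  set ε : ℝ := min (d₁ / 2) (1 / 4) with hε
  have hε0 : 0 < ε := lt_min (by linarith) (by norm_num)
  have hε1 : ε ≤ 1 / 4 := min_le_right _ _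
  have hεF : b < f⁻¹ (b - ε) := by
    apply hd₁'
    have := min_le_left (d₁ / 2) (1 / 4)
    rw [Real.dist_eq, abs_lt]; constructor <;> linarith
  -- the choice of η
  have hup : p < u p := h.ua p h.hap le_rfl
  have hupF : f⁻¹ p < u p := by
    rw [← lt_iff f, app_inv_self]; exact h.wb p h.hbp le_rfl
  have hev2 : ∀ᶠ x in 𝓝 p, x < u p ∧ f⁻¹ x < u p :=
    (continuousAt_id.eventually_lt continuousAt_const hup).and
      ((cont f⁻¹).continuousAt.eventually_lt continuousAt_const hupF)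
  obtain ⟨d₂, hd₂, hd₂'⟩ := Metric.eventually_nhds_iff.1 hev2
  set η : ℝ := min (d₂ / 2) (1 / 4) with hη
  have hη0 : 0 < η := lt_min (by linarith) (by norm_num)
  have hη1 : η ≤ 1 / 4 := min_le_right _ _
  obtain ⟨hηp, hηF⟩ : p + η < u p ∧ f⁻¹ (p + η) < u p := by
    apply hd₂'
    have := min_le_left (d₂ / 2) (1 / 4)
    rw [Real.dist_eq, abs_lt]; constructor <;> linarith
  -- the models
  obtain ⟨α, hα⟩ := exists_model S⁻¹ a
  obtain ⟨β', hβ'⟩ := exists_model S⁻¹ b
  set β : D := f⁻¹ * β' with hβ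
  have hβapp : ∀ x, β x = f⁻¹ (b + S⁻¹ (x - b)) := by
    intro x; rw [hβ, mul_app, hβ']
  have hαe : α (a - e) = a - s := by
    rw [hα]
    have : a - e - a = -e := by ring
    rw [this, hS.inv_odd]; ring
  have hαa : α a = a := by rw [hα, sub_self, hS.inv_zero, add_zero]
  have hβe : β (b - ε) = f⁻¹ (b - S⁻¹ ε) := by
    rw [hβapp]; congr 1
    have : b - ε - b = -ε := by ring
    rw [this, hS.inv_odd]; ring
  have hβe' : f⁻¹ (b - ε) < β (b - ε) := by
    rw [hβe]
    refine (lt_iff _).2 ?_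
    have := hS.inv_up hε0 (by linarith)
    linarith
  -- the choice of ε'
  have hev3 : ∀ᶠ x in 𝓝 b, x < f a ∧ x < f⁻¹ (b - ε) ∧ f⁻¹ x < a - s :=
    (continuousAt_id.eventually_lt continuousAt_const hbfa).and
      ((continuousAt_id.eventually_lt continuousAt_const hεF).and
      ((cont f⁻¹).continuousAt.eventually_lt continuousAt_const (by rw [hFb]; linarith)))
  obtain ⟨d₃, hd₃, hd₃'⟩ := Metric.eventually_nhds_iff.1 hev3
  set ε' : ℝ := min (d₃ / 2) (1 / 4) with hε'
  have hε'0 : 0 < ε' := lt_min (by linarith) (by norm_num)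
  have hε'1 : ε' ≤ 1 / 4 := min_le_right _ _
  obtain ⟨hε'f, hε'F, hε'a⟩ : b + ε' < f a ∧ b + ε' < f⁻¹ (b - ε) ∧ f⁻¹ (b + ε') < a - s := by
    apply hd₃'
    have := min_le_left (d₃ / 2) (1 / 4)
    rw [Real.dist_eq, abs_lt]; constructor <;> linarith
  have hβe2 : β (b + ε') < f⁻¹ (b + ε') := by
    rw [hβapp]
    refine (lt_iff _).2 ?_
    have h1 : b + ε' - b = ε' := by ring
    have := hS.inv_up hε'0 (by linarith)
    rw [h1]; linarith
  have hβe3 : a - r < β (b + ε') := by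
    rw [← hFb, hβapp]
    refine (lt_iff _).2 ?_
    have h1 : b + ε' - b = ε' := by ring
    have := hS.inv_pos hε'0
    rw [h1]; linarith
  obtain ⟨G₁, hG1, hG1q, hG1'⟩ := interp3 u β p (p + η) (b - ε)
    ((f⁻¹ (b - ε) + β (b - ε)) / 2) (by linarith) (by linarith) (by linarith) (by linarith)
  obtain ⟨u₁, hu1, hu1q, hu1'⟩ := interp3 G₁ α (b + ε') (f a) (a - e)
    ((β (b + ε') + f⁻¹ (b + ε')) / 2) (by linarith) (by linarith)
    (by rw [hG1' _ (by linarith)]; linarith) (by rw [hαe]; linarith)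
  -- p'
  have hFa : a < f⁻¹ a := by rw [← lt_iff f, app_inv_self]; exact hfa
  set m : ℝ := min (a + 1) (f⁻¹ a) with hm
  have ham : a < m := lt_min (by linarith) hFa
  have hm1 : m ≤ a + 1 := min_le_left _ _
  have hm2 : m ≤ f⁻¹ a := min_le_right _ _
  -- properties
  have U1 : ∀ x ≤ p, u₁ x = u x := fun x hx => by
    rw [hu1 x (by linarith), hG1 x hx]
  have U2 : ∀ x, p < x → x ≤ b - ε → x < u₁ x ∧ x < f (u₁ x) := by
    intro x h1 h2
    rw [hu1 x (by linarith)]
    have key : x < G₁ x ∧ f⁻¹ x < G₁ x := by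
      rcases le_total x (p + η) with h3 | h3
      · have h4 : G₁ p < G₁ x := (lt_iff _).2 h1
        rw [hG1 p le_rfl] at h4
        have h5 : f⁻¹ x ≤ f⁻¹ (p + η) := (le_iff _).2 h3
        constructor <;> linarith
      · have h4 : G₁ (p + η) ≤ G₁ x := (le_iff _).2 h3
        rw [hG1q] at h4
        have h5 : f⁻¹ x ≤ f⁻¹ (b - ε) := (le_iff _).2 h2
        constructor <;> linarith
    refine ⟨key.1, ?_⟩
    rw [← lt_iff f⁻¹, inv_app_self]; exact key.2
  have U3 : ∀ x, b - ε ≤ x → x ≤ b + ε' → u₁ x = β x := by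
    intro x h1 h2
    rw [hu1 x h2, hG1' x h1]
  have U3a : ∀ x, b - ε ≤ x → x ≤ b + ε' → x < u₁ x := by
    intro x h1 h2
    rw [U3 x h1 h2]
    have : β (b - ε) ≤ β x := (le_iff _).2 h1
    linarith
  have U3b : ∀ x, b - ε ≤ x → x < b → x < f (u₁ x) := by
    intro x h1 h2
    rw [U3 x h1 (by linarith), hβapp, app_inv_self]
    have := hS.inv_down (x := x - b) (by linarith) (by linarith)
    linarith
  have U3c : ∀ x, b < x → x ≤ b + ε' → f (u₁ x) < x := by
    intro x h1 h2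
    rw [U3 x (by linarith) h2, hβapp, app_inv_self]
    have := hS.inv_up (x := x - b) (by linarith) (by linarith)
    linarith
  have U4 : ∀ x, b + ε' ≤ x → x ≤ f a → x < u₁ x ∧ f (u₁ x) < x := by
    intro x h1 h2
    have h3 : u₁ (b + ε') ≤ u₁ x := (le_iff _).2 h1
    rw [U3 _ (by linarith) le_rfl] at h3
    have h4 : u₁ x ≤ u₁ (f a) := (le_iff _).2 h2
    rw [hu1q] at h4
    have h5 : f⁻¹ (b + ε') ≤ f⁻¹ x := (le_iff _).2 h1
    refine ⟨by linarith, ?_⟩
    rw [← lt_iff f⁻¹, inv_app_self]; linarith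
  have U5 : ∀ x, f a ≤ x → x ≤ a - e → x < u₁ x ∧ f (u₁ x) < x := by
    intro x h1 h2
    have h3 : u₁ (f a) ≤ u₁ x := (le_iff _).2 h1
    rw [hu1q] at h3
    have h4 : u₁ x ≤ u₁ (a - e) := (le_iff _).2 h2
    rw [hu1' _ le_rfl, hαe] at h4
    have h5 : f⁻¹ (f a) ≤ f⁻¹ x := (le_iff _).2 h1
    rw [inv_app_self] at h5
    refine ⟨by linarith, ?_⟩
    rw [← lt_iff f⁻¹, inv_app_self]; linarith
  have U6 : ∀ x, a - e ≤ x → x < a → x < u₁ x := by
    intro x h1 h2
    rw [hu1' x h1, hα]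
    have := hS.inv_down (x := x - a) (by linarith) (by linarith)
    linarith
  have U6' : ∀ x, a < x → x ≤ (a + m) / 2 → u₁ x < x := by
    intro x h1 h2
    rw [hu1' x (by linarith), hα]
    have := hS.inv_up (x := x - a) (by linarith) (by linarith)
    linarith
  have U6a : u₁ a = a := by rw [hu1' a (by linarith), hαa]
  have U7 : ∀ x, a - e ≤ x → x ≤ (a + m) / 2 → f (u₁ x) < x := by
    intro x h1 h2
    rw [← lt_iff f⁻¹, inv_app_self]
    rcases le_total x a with h3 | h3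
    · have h4 : u₁ x ≤ u₁ a := (le_iff _).2 h3
      rw [U6a] at h4
      have h5 : f⁻¹ (f a) < f⁻¹ x := (lt_iff _).2 (by linarith)
      rw [inv_app_self] at h5
      linarith
    · have h4 : f⁻¹ a ≤ f⁻¹ x := (le_iff _).2 h3
      rcases eq_or_lt_of_le h3 with h5 | h5
      · rw [← h5, U6a]; exact hFa
      · have := U6' x h5 h2
        linarith
  have W1 : ∀ x, a₀ < x → x < a → x < u₁ x := by
    intro x h1 h2
    rcases le_or_gt x p with h3 | h3
    · rw [U1 x h3]; exact h.ua x h1 h3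
    rcases le_total x (b - ε) with h4 | h4
    · exact (U2 x h3 h4).1
    rcases le_total x (b + ε') with h5 | h5
    · exact U3a x h4 h5
    rcases le_total x (f a) with h6 | h6
    · exact (U4 x h5 h6).1
    rcases le_total x (a - e) with h7 | h7
    · exact (U5 x h6 h7).1
    exact U6 x h7 h2
  have W2 : ∀ x, b₀ < x → x < b → x < f (u₁ x) := by
    intro x h1 h2
    rcases le_or_gt x p with h3 | h3
    · rw [U1 x h3]; exact h.wb x h1 h3
    rcases le_total x (b - ε) with h4 | h4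
    · exact (U2 x h3 h4).2
    exact U3b x h4 h2
  have W3 : ∀ x, b < x → x ≤ (a + m) / 2 → f (u₁ x) < x := by
    intro x h1 h2
    rcases le_total x (b + ε') with h5 | h5
    · exact U3c x h1 h5
    rcases le_total x (f a) with h6 | h6
    · exact (U4 x h5 h6).2
    rcases le_total x (a - e) with h7 | h7
    · exact (U5 x h6 h7).2
    exact U7 x h7 h2
  -- first correction: `w` near `b`
  obtain ⟨w₂, P, B1, B2, B3, B4, B5, B6, B7⟩ := corr hS (f * u₁) b₀ b (b - ε) (by linarith)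
    (by linarith) (by
      filter_upwards [h.gb, Iio_mem_nhds hbp0] with x h1 h2
      rw [mul_app, U1 x (le_of_lt h2), h1]) (by
      filter_upwards [Ioo_mem_nhds (show b - ε < b by linarith)
        (show b < b + ε' by linarith)] with x hx
      rw [mul_app, U3 x hx.1.le hx.2.le, hβapp, app_inv_self]) (by
      intro x h1 h2
      rw [mul_app]; exact W2 x h1 h2)
  have hfu2 : ∀ x, f ((f⁻¹ * w₂) x) = w₂ x := fun x => by rw [mul_app, app_inv_self]
  have E1 : ∀ x ≤ b - ε, (f⁻¹ * w₂) x = u₁ x := by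
    intro x hx; rw [mul_app, B1 x hx, mul_app, inv_app_self]
  have E2 : ∀ x, b ≤ x → (f⁻¹ * w₂) x = u₁ x := by
    intro x hx; rw [mul_app, B2 x hx, mul_app, inv_app_self]
  have W4 : ∀ x, a₀ < x → x < a → x < (f⁻¹ * w₂) x := by
    intro x h1 h2
    rcases le_or_gt x (b - ε) with h3 | h3
    · rw [E1 x h3]; exact W1 x h1 h2
    rcases lt_or_ge x b with h4 | h4
    · have h5 := B4 x (by linarith) h4
      have h6 : f⁻¹ (b - ε) < f⁻¹ (w₂ x) := (lt_iff _).2 (by linarith)
      rw [mul_app]; linarith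
    · rw [E2 x h4]; exact W1 x h1 h2
  -- second correction: `u` near `a`
  obtain ⟨u₃, Q, A1, A2, A3, A4, A5, A6, A7⟩ := corr hS (f⁻¹ * w₂) a₀ a (a - e) (by linarith)
    (by linarith) (by
      filter_upwards [h.ga, Iio_mem_nhds hap0] with x h1 h2
      have h3 : x < p := h2
      rw [E1 x (by linarith), U1 x h3.le, h1]) (by
      filter_upwards [Ioi_mem_nhds (show a - e < a by linarith)] with x hx
      have h3 : a - e < x := hx
      rw [E2 x (by linarith), hu1' x h3.le, hα]) W4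
  have hu₃a : u₃ a = a := by rw [A2 a le_rfl, E2 a (by linarith), U6a]
  refine ⟨u₃, Q, P, a, b, (a + m) / 2, by linarith, by linarith, by linarith, by linarith,
    ?_, ⟨by linarith, by linarith, ?_, ?_, ?_, ?_⟩, ⟨A5, A6, A7⟩, ⟨B5, B6, ?_⟩⟩
  · intro x hx
    rw [A1 x (by linarith), E1 x (by linarith), U1 x hx]
  · filter_upwards [A3, Ioi_mem_nhds (show a - e < a by linarith)] with x h1 hx
    have h3 : a - e < x := hx
    rw [h1, E2 x (by linarith), hu1' x h3.le, hα]
  · filter_upwards [B3, Ioo_mem_nhds (show b - ε < b by linarith)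
        (show b < b + ε' by linarith)] with x h1 hx
    rw [A1 x (by linarith [hx.2]), hfu2, h1, mul_app, U3 x hx.1.le hx.2.le, hβapp, app_inv_self]
  · intro x h1 h2
    rw [A2 x h1.le, E2 x (by linarith)]; exact U6' x h1 h2
  · intro x h1 h2
    rcases le_or_gt x (a - e) with h3 | h3
    · rw [A1 x h3, E2 x h1.le]; exact W3 x h1 h2
    rcases lt_or_ge x a with h4 | h4
    · have h5 : u₃ x < a := by rw [← hu₃a]; exact (lt_iff u₃).2 h4
      have h6 : f (u₃ x) < f a := (lt_iff f).2 h5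
      linarith
    · rw [A2 x h4, E2 x h1.le]; exact W3 x h1 h2
  · intro x h1 h2
    rw [mul_app, A1 x (by linarith), hfu2]; exact B7 x h1 h2

end RevLine
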